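import Mathlib

/-!
# Affine Dynkin diagrams of types A, D, E and their positive vectors
-/

namespace Pool.Agent.H5.TSD

open Finset

/-- The affine diagram of type `D_n` (`n ≥ 4`) on `{0, 1, ..., n}`: the path
`0 - 1 - ... - (n-2)`, the vertex `n-1` joined to `1`, and the vertex `n` joined to `n-3`. -/
def affineD (n : ℕ) : SimpleGraph (Fin (n + 1)) :=
  SimpleGraph.fromRel fun i j : Fin (n + 1) =>
    (i.val + 1 = j.val ∧ j.val + 2 ≤ n) ∨ (i.val = 1 ∧ j.val + 1 = n) ∨
      (i.val + 3 = n ∧ j.val = n)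

/-- The affine diagram of type `E_6` on `{0, ..., 6}`: the path `0 - 1 - 2 - 3 - 4` and the edges
`2 - 5` and `5 - 6`. -/
def affineE6 : SimpleGraph (Fin 7) :=
  SimpleGraph.fromRel fun i j : Fin 7 =>
    (i.val + 1 = j.val ∧ j.val ≤ 4) ∨ (i.val = 2 ∧ j.val = 5) ∨ (i.val = 5 ∧ j.val = 6)

/-- The affine diagram of type `E_7` on `{0, ..., 7}`: the path `0 - 1 - ... - 6` and the edge
`3 - 7`. -/
def affineE7 : SimpleGraph (Fin 8) :=
  SimpleGraph.fromRel fun i j : Fin 8 =>
    (i.val + 1 = j.val ∧ j.val ≤ 6) ∨ (i.val = 3 ∧ j.val = 7)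

/-- The affine diagram of type `E_8` on `{0, ..., 8}`: the path `0 - 1 - ... - 7` and the edge
`2 - 8`. -/
def affineE8 : SimpleGraph (Fin 9) :=
  SimpleGraph.fromRel fun i j : Fin 9 =>
    (i.val + 1 = j.val ∧ j.val ≤ 7) ∨ (i.val = 2 ∧ j.val = 8)

/-- `H` is an affine Dynkin diagram: a cycle with `m ≥ 3` vertices (type `A_(m-1)`), or of type
`D_n` (`n ≥ 4`), `E_6`, `E_7` or `E_8`. -/
def IsAffineDynkin {W : Type} (H : SimpleGraph W) : Prop :=
  (∃ m ≥ 3, Nonempty (H ≃g SimpleGraph.cycleGraph m)) ∨ (∃ n ≥ 4, Nonempty (H ≃g affineD n)) ∨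
    Nonempty (H ≃g affineE6) ∨ Nonempty (H ≃g affineE7) ∨ Nonempty (H ≃g affineE8)

open Classical in
/-- `f` is additive on the graph `H` and positive. -/
def PosAdd {W : Type} [Fintype W] (H : SimpleGraph W) (f : W → ℤ) : Prop :=
  (∀ a, 0 < f a) ∧ ∀ a, ∑ b ∈ H.neighborFinset a, f b = 2 * f a

theorem sum_nbr {W : Type} [Fintype W] (H : SimpleGraph W) (f : W → ℤ) (a : W)
    [DecidableRel H.Adj] [Fintype (H.neighborSet a)] :
    ∑ b ∈ H.neighborFinset a, f b = ∑ b, if H.Adj a b then f b else 0 := by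
  rw [← Finset.sum_filter]
  refine Finset.sum_congr ?_ fun _ _ => rfl
  ext b
  simp

theorem cycle_sum (n : ℕ) (a : Fin (n + 3)) :
    ∑ b, (if (SimpleGraph.cycleGraph (n + 3)).Adj a b then (1 : ℤ) else 0) = 2 := by
  have h := sum_nbr (SimpleGraph.cycleGraph (n + 3)) (fun _ => 1) a
  rw [← h, Finset.sum_const, SimpleGraph.card_neighborFinset_eq_degree,
    SimpleGraph.cycleGraph_degree_three_le]
  rfl

theorem posAdd_cycle (m : ℕ) (hm : 3 ≤ m) :
    ∃ f, PosAdd (SimpleGraph.cycleGraph m) f := by
  refine ⟨fun _ => 1, fun _ => one_pos, fun a => ?_⟩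
  obtain ⟨n, rfl⟩ : ∃ n, m = n + 3 := ⟨m - 3, by omega⟩
  rw [sum_nbr]
  exact cycle_sum n a

theorem ind_sum_eq {n : ℕ} (F : ℕ → ℤ) (m : ℕ) (c : Prop) [Decidable c] (hm : c → m < n) :
    ∑ b : Fin n, (if b.val = m ∧ c then F b.val else 0) = if c then F m else 0 := by
  by_cases hc : c
  · simp only [hc, and_true, if_true]
    rw [Finset.sum_eq_single ⟨m, hm hc⟩]
    · simp
    · intro b _ hb
      rw [if_neg]
      intro h
      exact hb (Fin.ext h)
    · intro h; exact absurd (Finset.mem_univ _) h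
  · simp [hc]

theorem posAdd_D (n : ℕ) (hn : 4 ≤ n) : ∃ f, PosAdd (affineD n) f := by
  classical
  set F : ℕ → ℤ := fun i => if i = 0 ∨ i + 2 = n ∨ i + 1 = n ∨ i = n then 1 else 2 with hF
  refine ⟨fun i => F i.val, fun i => ?_, fun i => ?_⟩
  · change 0 < F i.val
    simp only [hF]
    split_ifs <;> norm_num
  rw [sum_nbr]
  have hi := i.2
  have key : ∀ b : Fin (n + 1), (if (affineD n).Adj i b then F b.val else 0) =
      (if b.val = i.val + 1 ∧ (i.val + 3 ≤ n) then F b.val else 0) +
      (if b.val = i.val - 1 ∧ (1 ≤ i.val ∧ i.val + 2 ≤ n) then F b.val else 0) +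
      (if b.val = n - 1 ∧ (i.val = 1) then F b.val else 0) +
      (if b.val = 1 ∧ (i.val + 1 = n) then F b.val else 0) +
      (if b.val = n ∧ (i.val + 3 = n) then F b.val else 0) +
      (if b.val = n - 3 ∧ (i.val = n) then F b.val else 0) := by
    intro b
    have hb := b.2
    have hadj : (affineD n).Adj i b ↔ i ≠ b ∧
        (((i.val + 1 = b.val ∧ b.val + 2 ≤ n) ∨ (i.val = 1 ∧ b.val + 1 = n) ∨
          (i.val + 3 = n ∧ b.val = n)) ∨
        ((b.val + 1 = i.val ∧ i.val + 2 ≤ n) ∨ (b.val = 1 ∧ i.val + 1 = n) ∨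
          (b.val + 3 = n ∧ i.val = n))) := by
      unfold affineD
      rw [SimpleGraph.fromRel_adj]
    have hne : (i ≠ b) ↔ i.val ≠ b.val := by
      rw [Ne, Fin.ext_iff]
    rw [hne] at hadj
    by_cases h : (affineD n).Adj i b
    · rw [if_pos h]
      rw [hadj] at h
      obtain ⟨h0, (⟨h1, h2⟩ | ⟨h1, h2⟩ | ⟨h1, h2⟩) | (⟨h1, h2⟩ | ⟨h1, h2⟩ | ⟨h1, h2⟩)⟩ := h
      · rw [if_pos (by omega), if_neg (by omega), if_neg (by omega), if_neg (by omega),
          if_neg (by omega), if_neg (by omega)]
        ring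
      · rw [if_neg (by omega), if_neg (by omega), if_pos (by omega), if_neg (by omega),
          if_neg (by omega), if_neg (by omega)]
        ring
      · rw [if_neg (by omega), if_neg (by omega), if_neg (by omega), if_neg (by omega),
          if_pos (by omega), if_neg (by omega)]
        ring
      · rw [if_neg (by omega), if_pos (by omega), if_neg (by omega), if_neg (by omega),
          if_neg (by omega), if_neg (by omega)]
        ring
      · rw [if_neg (by omega), if_neg (by omega), if_neg (by omega), if_pos (by omega),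
          if_neg (by omega), if_neg (by omega)]
        ring
      · rw [if_neg (by omega), if_neg (by omega), if_neg (by omega), if_neg (by omega),
          if_neg (by omega), if_pos (by omega)]
        ring
    · rw [if_neg h]
      rw [hadj] at h
      rw [if_neg (by omega), if_neg (by omega), if_neg (by omega), if_neg (by omega),
        if_neg (by omega), if_neg (by omega)]
      norm_num
  rw [Finset.sum_congr rfl fun b _ => key b]
  simp only [Finset.sum_add_distrib]
  rw [ind_sum_eq F (i.val + 1) (i.val + 3 ≤ n) (by omega),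
    ind_sum_eq F (i.val - 1) (1 ≤ i.val ∧ i.val + 2 ≤ n) (by omega),
    ind_sum_eq F (n - 1) (i.val = 1) (by omega), ind_sum_eq F 1 (i.val + 1 = n) (by omega),
    ind_sum_eq F n (i.val + 3 = n) (by omega), ind_sum_eq F (n - 3) (i.val = n) (by omega)]
  have hF1 : ∀ i, (i = 0 ∨ i + 2 = n ∨ i + 1 = n ∨ i = n) → F i = 1 := fun i h => by
    simp only [hF]; rw [if_pos h]
  have hF2 : ∀ i, i ≠ 0 → i + 2 ≠ n → i + 1 ≠ n → i ≠ n → F i = 2 := fun i h1 h2 h3 h4 => by
    simp only [hF]; rw [if_neg (by omega)]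
  have hcase : i.val = 0 ∨ i.val = n ∨ i.val + 1 = n ∨ i.val + 2 = n ∨
      (i.val ≠ 0 ∧ i.val + 3 ≤ n) := by omega
  rcases hcase with h | h | h | h | ⟨h, h'⟩
  · rw [if_pos (by omega), if_neg (by omega), if_neg (by omega), if_neg (by omega),
      if_neg (by omega), if_neg (by omega), hF1 i.val (by omega),
      hF2 (i.val + 1) (by omega) (by omega) (by omega) (by omega)]
    norm_num
  · rw [if_neg (by omega), if_neg (by omega), if_neg (by omega), if_neg (by omega),
      if_neg (by omega), if_pos (by omega), hF1 i.val (by omega),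
      hF2 (n - 3) (by omega) (by omega) (by omega) (by omega)]
    norm_num
  · rw [if_neg (by omega), if_neg (by omega), if_neg (by omega), if_pos (by omega),
      if_neg (by omega), if_neg (by omega), hF1 i.val (by omega),
      hF2 1 (by omega) (by omega) (by omega) (by omega)]
    norm_num
  · rw [if_neg (by omega), if_pos (by omega), if_neg (by omega), if_neg (by omega),
      if_neg (by omega), if_neg (by omega), hF1 i.val (by omega),
      hF2 (i.val - 1) (by omega) (by omega) (by omega) (by omega)]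
    norm_num
  · rw [if_pos (by omega), if_pos (by omega), hF2 i.val (by omega) (by omega) (by omega) (by omega),
      if_neg (show ¬ (i.val + 1 = n) by omega), if_neg (show ¬ (i.val = n) by omega),
      hF1 n (by omega), hF1 (n - 1) (by omega)]
    by_cases h1 : i.val = 1
    · rw [if_pos h1, hF1 (i.val - 1) (by omega)]
      by_cases h3 : i.val + 3 = n
      · rw [if_pos h3, hF1 (i.val + 1) (by omega)]
        norm_num
      · rw [if_neg h3, hF2 (i.val + 1) (by omega) (by omega) (by omega) (by omega)]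
        norm_num
    · rw [if_neg h1, hF2 (i.val - 1) (by omega) (by omega) (by omega) (by omega)]
      by_cases h3 : i.val + 3 = n
      · rw [if_pos h3, hF1 (i.val + 1) (by omega)]
        norm_num
      · rw [if_neg h3, hF2 (i.val + 1) (by omega) (by omega) (by omega) (by omega)]
        norm_num

instance : DecidableRel affineE6.Adj := inferInstanceAs (DecidableRel (SimpleGraph.fromRel _).Adj)

instance : DecidableRel affineE7.Adj := inferInstanceAs (DecidableRel (SimpleGraph.fromRel _).Adj)

instance : DecidableRel affineE8.Adj := inferInstanceAs (DecidableRel (SimpleGraph.fromRel _).Adj)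

theorem posAdd_E6 : ∃ f, PosAdd affineE6 f := by
  refine ⟨![1, 2, 3, 2, 1, 2, 1], by decide, fun a => ?_⟩
  rw [sum_nbr]
  revert a
  decide

theorem posAdd_E7 : ∃ f, PosAdd affineE7 f := by
  refine ⟨![1, 2, 3, 4, 3, 2, 1, 2], by decide, fun a => ?_⟩
  rw [sum_nbr]
  revert a
  decide

theorem posAdd_E8 : ∃ f, PosAdd affineE8 f := by
  refine ⟨![2, 4, 6, 5, 4, 3, 2, 1, 3], by decide, fun a => ?_⟩
  rw [sum_nbr]
  revert a
  decide

theorem exists_posAdd_dynkin {W : Type} [Fintype W] (H : SimpleGraph W) (h : IsAffineDynkin H) :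
    ∃ f, PosAdd H f := by
  classical
  have key : ∀ {m : ℕ} (K : SimpleGraph (Fin m)), (∃ f, PosAdd K f) → Nonempty (H ≃g K) →
      ∃ f, PosAdd H f := by
    rintro m K ⟨f, hf0, hf⟩ ⟨e⟩
    refine ⟨fun w => f (e w), fun a => hf0 _, fun a => ?_⟩
    have h1 := hf (e a)
    have h2 : ∑ b ∈ H.neighborFinset a, f (e b) = ∑ b ∈ K.neighborFinset (e a), f b := by
      refine Finset.sum_bij (fun b _ => e b) ?_ ?_ ?_ ?_
      · intro b hb
        rw [SimpleGraph.mem_neighborFinset] at hb ⊢
        exact e.map_adj_iff.mpr hb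
      · intro b _ b' _ h; exact e.injective h
      · intro b hb
        rw [SimpleGraph.mem_neighborFinset] at hb
        refine ⟨e.symm b, ?_, e.apply_symm_apply b⟩
        rw [SimpleGraph.mem_neighborFinset]
        rw [← e.map_adj_iff, e.apply_symm_apply]
        exact hb
      · intro b _; rfl
    exact h2.trans h1
  rcases h with ⟨m, hm, e⟩ | ⟨n, hn, e⟩ | e | e | e
  · exact key _ (posAdd_cycle m hm) e
  · exact key _ (posAdd_D n hn) e
  · exact key _ posAdd_E6 e
  · exact key _ posAdd_E7 e
  · exact key _ posAdd_E8 e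

/-- From the components to the whole graph. -/
theorem exists_posAdd_of_components {V : Type} [Fintype V] (H : SimpleGraph V)
    (h : ∀ C : H.ConnectedComponent, IsAffineDynkin C.toSimpleGraph) : ∃ f, PosAdd H f := by
  classical
  choose g hg0 hg using fun C : H.ConnectedComponent => exists_posAdd_dynkin C.toSimpleGraph (h C)
  have hval : ∀ (C : H.ConnectedComponent) (u : V) (hu : u ∈ C),
      g (H.connectedComponentMk u) ⟨u, rfl⟩ = g C ⟨u, hu⟩ := by
    intro C u hu
    have : H.connectedComponentMk u = C := hu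
    subst this
    rfl
  refine ⟨fun v => g (H.connectedComponentMk v) ⟨v, rfl⟩, fun a => hg0 _ _, fun a => ?_⟩
  set C := H.connectedComponentMk a with hC
  have h1 := hg C ⟨a, rfl⟩
  have h2 : ∑ b ∈ H.neighborFinset a, g (H.connectedComponentMk b) ⟨b, rfl⟩ =
      ∑ b ∈ C.toSimpleGraph.neighborFinset ⟨a, rfl⟩, g C b := by
    have hmem : ∀ b, H.Adj a b → b ∈ C := by
      intro b hb
      change H.connectedComponentMk b = H.connectedComponentMk a
      exact (SimpleGraph.ConnectedComponent.connectedComponentMk_eq_of_adj hb).symm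
    refine Finset.sum_bij (fun b hb => ⟨b, hmem b (by simpa using hb)⟩) ?_ ?_ ?_ ?_
    · intro b hb
      rw [SimpleGraph.mem_neighborFinset] at hb ⊢
      exact hb
    · intro b _ b' _ h
      exact congrArg Subtype.val h
    · intro b hb
      rw [SimpleGraph.mem_neighborFinset] at hb
      exact ⟨b.1, by rw [SimpleGraph.mem_neighborFinset]; exact hb, rfl⟩
    · intro b hb
      exact hval C b _
  exact h2.trans h1

end Pool.Agent.H5.TSD
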