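import Pool.Agent.H5.TSD.Near

/-!
# Asymptotics of T-systems in a complete ultrametric field
-/

namespace Pool.Agent.H5.TSD

open Finset

section
variable {E : Type} [NormedField E] [IsUltrametricDist E]

/-- the subgroup of sequences of units close to one with difference in the class `A_ρ` -/
def nearGroup {δ a ρ : ℝ} (hδ0 : 0 ≤ δ) (hδ : δ < 1) (ha0 : 0 < a) (ha : a < 1) (hρ : 0 < ρ)
    (hρa : ρ ≤ a) : Subgroup (ℕ → Eˣ) where
  carrier := {f | NearA δ a ρ (fun t => (f t : E))}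
  mul_mem' := by
    intro f g hf hg
    exact NearA.mul hδ0 hδ ha0 ha hρ hρa hf hg
  one_mem' := NearA.one hδ0 ha0
  inv_mem' := by
    intro f hf
    have := NearA.inv hδ0 hδ ha0 ha hρ hρa hf
    change NearA δ a ρ (fun t => ((f⁻¹ t : Eˣ) : E))
    have e : (fun t => ((f⁻¹ t : Eˣ) : E)) = (fun t => (f t : E))⁻¹ := by
      funext t
      simp
    rw [e]
    exact this

variable {V : Type}

/-- the second multiplicative difference with step `n` of a T-system dominated by `N` -/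
theorem theta_near {δ a ρ : ℝ} (hδ0 : 0 ≤ δ) (hδ : δ < 1) (ha0 : 0 < a) (ha : a < 1) (hρ : 0 < ρ)
    (hρa : ρ ≤ a) (N : V → Finset V) (n : ℕ)
    (hper : ∀ {A : Type} [AddCommGroup A] (L : ℕ → V → A),
      (∀ t v, L (t + 2) v + L t v = ∑ u ∈ N v, L (t + 1) u) →
      ∀ t v, L (t + 2 * n) v + L t v = 2 • L (t + n) v)
    (T : ℕ → V → E) (hT0 : ∀ t v, T t v ≠ 0)
    (κ : V → ℕ → E)
    (hrel : ∀ t v, T (t + 2) v * T t v = (∏ u ∈ N v, T (t + 1) u) * κ v t)
    (hκ : ∀ v, NearA δ a ρ (κ v)) (v : V) :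
    NearA δ a ρ (fun t => T (t + 2 * n) v * T t v / T (t + n) v ^ 2) := by
  set H := nearGroup (E := E) hδ0 hδ ha0 ha hρ hρa with hH
  have hmemH : ∀ f : ℕ → Eˣ, f ∈ H ↔ NearA δ a ρ (fun t => (f t : E)) := fun f => Iff.rfl
  set Tu : ℕ → V → ℕ → Eˣ := fun t v s => Units.mk0 (T (s + t) v) (hT0 _ _) with hTu
  set L : ℕ → V → Additive ((ℕ → Eˣ) ⧸ H) := fun t v =>
    Additive.ofMul (QuotientGroup.mk (Tu t v)) with hL
  have hLrel : ∀ t v, L (t + 2) v + L t v = ∑ u ∈ N v, L (t + 1) u := by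
    intro t v
    have e1 : L (t + 2) v + L t v = Additive.ofMul
        (QuotientGroup.mk (s := H) (Tu (t + 2) v * Tu t v)) := rfl
    have e2 : ∑ u ∈ N v, L (t + 1) u = Additive.ofMul
        (QuotientGroup.mk (s := H) (∏ u ∈ N v, Tu (t + 1) u)) := by
      have e3 : QuotientGroup.mk (s := H) (∏ u ∈ N v, Tu (t + 1) u) =
          ∏ u ∈ N v, QuotientGroup.mk (s := H) (Tu (t + 1) u) :=
        map_prod (QuotientGroup.mk' H) _ _
      rw [e3, ofMul_prod]
    rw [e1, e2]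
    congr 1
    rw [eq_comm, QuotientGroup.eq, hmemH]
    have e4 : (fun s => (((∏ u ∈ N v, Tu (t + 1) u)⁻¹ * (Tu (t + 2) v * Tu t v)) s : Eˣ) : ℕ → E)
        = fun s => κ v (s + t) := by
      funext s
      have hp : ((∏ u ∈ N v, Tu (t + 1) u) s : Eˣ) =
          ∏ u ∈ N v, Units.mk0 (T (s + (t + 1)) u) (hT0 _ _) := by
        rw [Finset.prod_apply]
      have h1 := hrel (s + t) v
      have h0 : ∏ u ∈ N v, T (s + t + 1) u ≠ 0 :=
        Finset.prod_ne_zero_iff.mpr fun u _ => hT0 _ _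
      rw [Pi.mul_apply, Pi.inv_apply, Pi.mul_apply, hp, Units.val_mul, Units.val_inv_eq_inv_val,
        Units.val_mul, Units.coe_prod]
      change (∏ u ∈ N v, T (s + (t + 1)) u)⁻¹ * (T (s + (t + 2)) v * T (s + t) v) = κ v (s + t)
      rw [show s + (t + 1) = s + t + 1 by ring, show s + (t + 2) = s + t + 2 by ring, h1]
      field_simp
    rw [e4]
    exact (hκ v).shn hδ0 ha0 ha t
  have h1 := hper L hLrel 0 v
  have e1 : L (0 + 2 * n) v + L 0 v = Additive.ofMul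
      (QuotientGroup.mk (s := H) (Tu (0 + 2 * n) v * Tu 0 v)) := rfl
  have e2 : 2 • L (0 + n) v = Additive.ofMul
      (QuotientGroup.mk (s := H) ((Tu (0 + n) v) ^ 2)) := rfl
  rw [e1, e2] at h1
  have h2 : QuotientGroup.mk (s := H) (Tu (0 + 2 * n) v * Tu 0 v) =
      QuotientGroup.mk (s := H) ((Tu (0 + n) v) ^ 2) := h1
  rw [eq_comm, QuotientGroup.eq, hmemH] at h2
  have e3 : (fun s => ((((Tu (0 + n) v) ^ 2)⁻¹ * (Tu (0 + 2 * n) v * Tu 0 v)) s : Eˣ) : ℕ → E)
      = fun t => T (t + 2 * n) v * T t v / T (t + n) v ^ 2 := by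
    funext s
    rw [Pi.mul_apply, Pi.inv_apply, Pi.mul_apply, Pi.pow_apply, Units.val_mul,
      Units.val_inv_eq_inv_val, Units.val_mul, Units.val_pow_eq_pow_val]
    change ((T (s + (0 + n)) v) ^ 2)⁻¹ * (T (s + (0 + 2 * n)) v * T (s + 0) v) = _
    rw [zero_add, zero_add, add_zero]
    field_simp
  rw [e3] at h2
  exact h2

omit [IsUltrametricDist E] in
theorem FinSeq.prod' {ι : Type*} (s : Finset ι) (f : ι → ℕ → E) (h : ∀ i ∈ s, FinSeq (f i)) :
    FinSeq (∏ i ∈ s, f i) := by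
  classical
  induction s using Finset.induction_on with
  | empty => rw [prod_empty]; exact FinSeq.one
  | insert i s hi ih =>
    rw [prod_insert hi]
    exact (h i (by simp)).mul (ih fun j hj => h j (by simp [hj]))

theorem NearA.prod {δ a ρ : ℝ} (hδ0 : 0 ≤ δ) (hδ : δ < 1) (ha0 : 0 < a) (ha : a < 1) (hρ : 0 < ρ)
    (hρa : ρ ≤ a) {ι : Type*} (s : Finset ι) (f : ι → ℕ → E) (h : ∀ i ∈ s, NearA δ a ρ (f i)) :
    NearA δ a ρ (∏ i ∈ s, f i) := by
  classical
  induction s using Finset.induction_on with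
  | empty => rw [prod_empty]; exact NearA.one hδ0 ha0
  | insert i s hi ih =>
    rw [prod_insert hi]
    exact (h i (by simp)).mul hδ0 hδ ha0 ha hρ hρa (ih fun j hj => h j (by simp [hj]))

/-- (M7) asymptotics in a complete ultrametric field -/
theorem asym [CompleteSpace E]
    (N M : V → Finset V) (n : ℕ) (hn : 0 < n)
    (hper : ∀ {A : Type} [AddCommGroup A] (L : ℕ → V → A),
      (∀ t v, L (t + 2) v + L t v = ∑ u ∈ N v, L (t + 1) u) →
      ∀ t v, L (t + 2 * n) v + L t v = 2 • L (t + n) v)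
    (T : ℕ → V → E) (hT0 : ∀ t v, T t v ≠ 0)
    (hrel : ∀ t v, T (t + 2) v * T t v = ∏ u ∈ N v, T (t + 1) u + ∏ u ∈ M v, T (t + 1) u)
    (δ a : ℝ) (hδ0 : 0 ≤ δ) (hδ : δ < 1) (ha0 : 0 < a) (ha : a < 1)
    (hk : ∀ t v, ‖∏ u ∈ M v, T (t + 1) u‖ ≤ δ * a ^ t * ‖∏ u ∈ N v, T (t + 1) u‖)
    (C R : ℝ) (hR0 : 0 < R) (hR : ∀ t v, ‖T t v‖ ≤ C * R ^ t) (v : V) :
    ∃ (D : ℕ) (p : ℕ → E) (ρ C' : ℝ), 0 ≤ ρ ∧ ρ < 1 ∧
      ∀ t, ‖∑ i ∈ range D, p i * T (t + 2 * i) v + T (t + 2 * D) v‖ ≤ C' * ρ ^ t := by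
  have hN0 : ∀ t v, ∏ u ∈ N v, T (t + 1) u ≠ 0 := fun t v =>
    Finset.prod_ne_zero_iff.mpr fun u _ => hT0 _ _
  have hM0 : ∀ t v, ∏ u ∈ M v, T (t + 1) u ≠ 0 := fun t v =>
    Finset.prod_ne_zero_iff.mpr fun u _ => hT0 _ _
  -- the ratio of the two products
  set κ : V → ℕ → E := fun v t => (∏ u ∈ M v, T (t + 1) u) / ∏ u ∈ N v, T (t + 1) u with hκdef
  have hκnorm : ∀ v t, ‖κ v t‖ ≤ δ * a ^ t := by
    intro v t
    rw [hκdef]
    simp only [norm_div]
    rw [div_le_iff₀ (norm_pos_iff.mpr (hN0 t v))]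
    exact hk t v
  have hκsmall : ∀ v, Small a (κ v) := fun v => ⟨δ, hκnorm v⟩
  have hnear : ∀ v, Near δ a (1 + κ v) := by
    intro v t
    have : (1 + κ v) t - 1 = κ v t := by change 1 + κ v t - 1 = _; ring
    rw [this]
    exact hκnorm v t
  have hrel' : ∀ t v, T (t + 2) v * T t v = (∏ u ∈ N v, T (t + 1) u) * (1 + κ v) t := by
    intro t v
    rw [hrel]
    change _ = (∏ u ∈ N v, T (t + 1) u) *
      (1 + (∏ u ∈ M v, T (t + 1) u) / ∏ u ∈ N v, T (t + 1) u)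
    have := hN0 t v
    field_simp
  set Θ : V → ℕ → E := fun v t => T (t + 2 * n) v * T t v / T (t + n) v ^ 2 with hΘ
  have hΘA : ∀ ρ, 0 < ρ → ρ ≤ a → (∀ v, Asy ρ (κ v)) → ∀ v, NearA δ a ρ (Θ v) := by
    intro ρ hρ hρa hκA v
    refine theta_near hδ0 hδ ha0 ha hρ hρa N n hper T hT0 (fun v => 1 + κ v) hrel' ?_ v
    intro v
    refine ⟨hnear v, ?_⟩
    have : (1 + κ v) - 1 = κ v := by ring
    rw [this]
    exact hκA v
  have hΘnear : ∀ v, Near δ a (Θ v) := fun v =>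
    (hΘA a ha0 le_rfl (fun v => Asy.of_small (hκsmall v)) v).1
  choose W hW1 hW2 hW3 using fun v => exists_prod hδ0 hδ ha0 ha n hn (hΘnear v)
  choose U hU1 hU2 hU3 using fun v => exists_prod hδ0 hδ ha0 ha n hn (hW1 v)
  have hU0 : ∀ v t, U v t ≠ 0 := fun v => (hU1 v).ne_zero hδ0 hδ ha0 ha
  have hW0 : ∀ v t, W v t ≠ 0 := fun v => (hW1 v).ne_zero hδ0 hδ ha0 ha
  have hUn : ∀ v t, ‖U v t‖ = 1 := fun v => (hU1 v).norm_eq hδ0 hδ ha0 ha
  set ℓ : V → ℕ → E := fun v t => T t v / U v t with hℓ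
  have hℓ0 : ∀ v t, ℓ v t ≠ 0 := fun v t => div_ne_zero (hT0 _ _) (hU0 _ _)
  have hTℓ : ∀ v t, T t v = ℓ v t * U v t := by
    intro v t
    simp only [hℓ]
    field_simp [hU0 v t]
  have hℓfin : ∀ v, FinSeq (ℓ v) := by
    intro v
    refine finSeq_of_geom n hn (hℓ0 v) ?_
    intro t
    simp only [hℓ]
    have e1 := hU2 v t
    have e2 := hU2 v (t + n)
    have e3 := hW2 v t
    rw [show t + n + n = t + 2 * n by ring] at e2
    have h1 := hT0 t v
    have h2 := hT0 (t + n) v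
    have h3 := hU0 v (t + 2 * n)
    have h4 := hU0 v t
    have h5 := hU0 v (t + n)
    have h6 := hW0 v t
    have h7 := hW0 v (t + n)
    have e4 : W v t * T (t + n) v ^ 2 = T (t + 2 * n) v * T t v * W v (t + n) := by
      rw [e3]
      simp only [hΘ]
      field_simp
    have e5 : U v (t + n) ^ 2 * W v t = U v t * U v (t + 2 * n) * W v (t + n) := by
      rw [e1, pow_two]
      conv_lhs => rw [e2]
      conv_rhs => rw [e2]
      ring
    rw [div_mul_div_comm, div_pow, div_eq_div_iff (mul_ne_zero h3 h4) (pow_ne_zero 2 h5)]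
    have e6 : (T (t + 2 * n) v * T t v * U v (t + n) ^ 2) * (W v t * W v (t + n)) =
        (T (t + n) v ^ 2 * (U v (t + 2 * n) * U v t)) * (W v t * W v (t + n)) := by
      calc _ = (T (t + 2 * n) v * T t v * W v (t + n)) * (U v (t + n) ^ 2 * W v t) := by ring
        _ = (W v t * T (t + n) v ^ 2) * (U v t * U v (t + 2 * n) * W v (t + n)) := by
            rw [e4, e5]
        _ = _ := by ring
    exact mul_right_cancel₀ (mul_ne_zero h6 h7) e6
  -- the ratio of the leading parts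
  set K : V → ℕ → E := fun v t => (∏ u ∈ M v, ℓ u (t + 1)) / ∏ u ∈ N v, ℓ u (t + 1) with hK
  have hinvfin : ∀ v, FinSeq (fun t => (ℓ v t)⁻¹) := by
    intro v
    refine finSeq_of_geom n hn (fun t => inv_ne_zero (hℓ0 v t)) ?_
    have : ∀ t, ℓ v (t + 2 * n) * ℓ v t = ℓ v (t + n) ^ 2 := by
      intro t
      simp only [hℓ]
      have e1 := hU2 v t
      have e2 := hU2 v (t + n)
      have e3 := hW2 v t
      rw [show t + n + n = t + 2 * n by ring] at e2
      have h1 := hT0 t v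
      have h2 := hT0 (t + n) v
      have h3 := hU0 v (t + 2 * n)
      have h4 := hU0 v t
      have h5 := hU0 v (t + n)
      have h6 := hW0 v t
      have h7 := hW0 v (t + n)
      have e4 : W v t * T (t + n) v ^ 2 = T (t + 2 * n) v * T t v * W v (t + n) := by
        rw [e3]
        simp only [hΘ]
        field_simp
      have e5 : U v (t + n) ^ 2 * W v t = U v t * U v (t + 2 * n) * W v (t + n) := by
        rw [e1, pow_two]
        conv_lhs => rw [e2]
        conv_rhs => rw [e2]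
        ring
      rw [div_mul_div_comm, div_pow, div_eq_div_iff (mul_ne_zero h3 h4) (pow_ne_zero 2 h5)]
      have e6 : (T (t + 2 * n) v * T t v * U v (t + n) ^ 2) * (W v t * W v (t + n)) =
          (T (t + n) v ^ 2 * (U v (t + 2 * n) * U v t)) * (W v t * W v (t + n)) := by
        calc _ = (T (t + 2 * n) v * T t v * W v (t + n)) * (U v (t + n) ^ 2 * W v t) := by ring
          _ = (W v t * T (t + n) v ^ 2) * (U v t * U v (t + 2 * n) * W v (t + n)) := by
              rw [e4, e5]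
          _ = _ := by ring
      exact mul_right_cancel₀ (mul_ne_zero h6 h7) e6
    intro t
    rw [← mul_inv, this t, inv_pow]
  have hKfin : ∀ v, FinSeq (K v) := by
    intro v
    have e : K v = (∏ u ∈ M v, fun t => ℓ u (t + 1)) * ∏ u ∈ N v, fun t => (ℓ u (t + 1))⁻¹ := by
      funext t
      rw [Pi.mul_apply, Finset.prod_apply, Finset.prod_apply, Finset.prod_inv_distrib]
      simp only [hK]
      rw [div_eq_mul_inv]
    rw [e]
    refine FinSeq.mul (FinSeq.prod' _ _ fun u _ => (hℓfin u).shn 1)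
      (FinSeq.prod' _ _ fun u _ => (hinvfin u).shn 1)
  set Q : V → ℕ → E := fun v =>
    (∏ u ∈ M v, fun t => U u (t + 1)) * (∏ u ∈ N v, fun t => U u (t + 1))⁻¹ with hQ
  have hκK : ∀ v, κ v = K v * Q v := by
    intro v
    funext t
    change (∏ u ∈ M v, T (t + 1) u) / ∏ u ∈ N v, T (t + 1) u = K v t * Q v t
    simp only [hK, hQ, Pi.mul_apply, Pi.inv_apply, Finset.prod_apply]
    have e1 : ∏ u ∈ M v, T (t + 1) u = (∏ u ∈ M v, ℓ u (t + 1)) * ∏ u ∈ M v, U u (t + 1) := by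
      rw [← Finset.prod_mul_distrib]
      exact Finset.prod_congr rfl fun u _ => hTℓ u _
    have e2 : ∏ u ∈ N v, T (t + 1) u = (∏ u ∈ N v, ℓ u (t + 1)) * ∏ u ∈ N v, U u (t + 1) := by
      rw [← Finset.prod_mul_distrib]
      exact Finset.prod_congr rfl fun u _ => hTℓ u _
    rw [e1, e2]
    have h1 : ∏ u ∈ N v, ℓ u (t + 1) ≠ 0 := Finset.prod_ne_zero_iff.mpr fun u _ => hℓ0 _ _
    have h2 : ∏ u ∈ N v, U u (t + 1) ≠ 0 := Finset.prod_ne_zero_iff.mpr fun u _ => hU0 _ _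
    field_simp
  have hQA : ∀ ρ, 0 < ρ → ρ ≤ a → (∀ v, NearA δ a ρ (U v)) → ∀ v, NearA δ a ρ (Q v) := by
    intro ρ hρ hρa hUA v
    refine NearA.mul hδ0 hδ ha0 ha hρ hρa ?_ ?_
    · exact NearA.prod hδ0 hδ ha0 ha hρ hρa _ _ fun u _ => (hUA u).shn hδ0 ha0 ha 1
    · exact NearA.inv hδ0 hδ ha0 ha hρ hρa
        (NearA.prod hδ0 hδ ha0 ha hρ hρa _ _ fun u _ => (hUA u).shn hδ0 ha0 ha 1)
  have hUA : ∀ ρ, 0 < ρ → ρ ≤ a → (∀ v, Asy ρ (κ v)) → ∀ v, NearA δ a ρ (U v) := by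
    intro ρ hρ hρa hκA v
    exact hU3 v ρ hρ hρa (hW3 v ρ hρ hρa (hΘA ρ hρ hρa hκA v))
  have hQnorm : ∀ v t, ‖Q v t‖ = 1 := by
    intro v
    exact (hQA a ha0 le_rfl (hUA a ha0 le_rfl fun v => Asy.of_small (hκsmall v)) v).1.norm_eq
      hδ0 hδ ha0 ha
  have hKsmall : ∀ v, Small a (K v) := by
    intro v
    refine ⟨δ, fun t => ?_⟩
    have := hκnorm v t
    rw [hκK v, Pi.mul_apply, norm_mul, hQnorm, mul_one] at this
    exact this
  have hκall : ∀ m : ℕ, ∀ v, Asy (a ^ (m + 1)) (κ v) := by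
    intro m
    induction m with
    | zero => intro v; rw [zero_add, pow_one]; exact Asy.of_small (hκsmall v)
    | succ m ih =>
      intro v
      have hρ : 0 < a ^ (m + 1) := pow_pos ha0 _
      have hρa : a ^ (m + 1) ≤ a := by
        calc a ^ (m + 1) ≤ a ^ 1 := pow_le_pow_of_le_one ha0.le ha.le (by omega)
          _ = a := pow_one a
      have h1 := hQA _ hρ hρa (hUA _ hρ hρa ih) v
      have e : κ v = K v + K v * (Q v - 1) := by rw [hκK v]; ring
      rw [e]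
      refine Asy.add (Asy.of_fin (hKfin v)) ?_
      obtain ⟨g₀, g₁, hg0, hg1, hg⟩ := h1.2
      rw [hg, mul_add]
      refine Asy.add (Asy.of_fin ((hKfin v).mul hg0)) (Asy.of_small ?_)
      have := (hKsmall v).mul ha0.le hg1
      rwa [← pow_succ'] at this
  -- conclusion
  obtain ⟨m, hm⟩ : ∃ m : ℕ, R * a ^ (m + 1) < 1 := by
    obtain ⟨m, hm⟩ := exists_pow_lt_of_lt_one (inv_pos.mpr hR0) ha
    refine ⟨m, ?_⟩
    have h1 : a ^ (m + 1) ≤ a ^ m := pow_le_pow_of_le_one ha0.le ha.le (by omega)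
    calc R * a ^ (m + 1) ≤ R * a ^ m := mul_le_mul_of_nonneg_left h1 hR0.le
      _ < R * R⁻¹ := by exact mul_lt_mul_of_pos_left hm hR0
      _ = 1 := mul_inv_cancel₀ hR0.ne'
  have hρ : 0 < a ^ (m + 1) := pow_pos ha0 _
  have hρa : a ^ (m + 1) ≤ a := by
    calc a ^ (m + 1) ≤ a ^ 1 := pow_le_pow_of_le_one ha0.le ha.le (by omega)
      _ = a := pow_one a
  obtain ⟨g₀, g₁, hg0, hg1, hg⟩ := (hUA _ hρ hρa (hκall m) v).2
  have hℓR : Small R (ℓ v) := by
    refine ⟨C, fun t => ?_⟩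
    simp only [hℓ]
    rw [norm_div, hUn, div_one]
    exact hR t v
  set f₀ : ℕ → E := ℓ v + ℓ v * g₀ with hf0
  set f₁ : ℕ → E := ℓ v * g₁ with hf1
  have hfin : FinSeq f₀ := (hℓfin v).add ((hℓfin v).mul hg0)
  have hsm : Small (R * a ^ (m + 1)) f₁ := hℓR.mul hR0.le hg1
  have hTf : ∀ t, T t v = f₀ t + f₁ t := by
    intro t
    have h1 := congrFun hg t
    change U v t - 1 = g₀ t + g₁ t at h1
    rw [hTℓ v t]
    change _ = (ℓ v t + ℓ v t * g₀ t) + ℓ v t * g₁ t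
    linear_combination (ℓ v t) * h1
  obtain ⟨D, p, hp⟩ := hfin.exists_rec
  set ρ := R * a ^ (m + 1) with hρdef
  have hρ0 : 0 ≤ ρ := (mul_pos hR0 hρ).le
  have hsum : ∀ t, ∑ i ∈ range D, p i * T (t + 2 * i) v + T (t + 2 * D) v =
      ∑ i ∈ range D, p i * f₁ (t + 2 * i) + f₁ (t + 2 * D) := by
    intro t
    have h1 := hp t
    have h2 : ∑ i ∈ range D, p i * T (t + 2 * i) v =
        ∑ i ∈ range D, p i * f₀ (t + 2 * i) + ∑ i ∈ range D, p i * f₁ (t + 2 * i) := by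
      rw [← Finset.sum_add_distrib]
      refine Finset.sum_congr rfl fun i _ => ?_
      rw [hTf]; ring
    rw [h2, hTf]
    linear_combination h1
  have hfinal : Small ρ (fun t => ∑ i ∈ range D, p i * T (t + 2 * i) v + T (t + 2 * D) v) := by
    have e : (fun t => ∑ i ∈ range D, p i * T (t + 2 * i) v + T (t + 2 * D) v) =
        (∑ i ∈ range D, p i • (fun t => f₁ (t + 2 * i))) + fun t => f₁ (t + 2 * D) := by
      funext t
      rw [hsum t, Pi.add_apply, Finset.sum_apply]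
      rfl
    rw [e]
    have h1 : ∀ s : Finset ℕ, Small ρ (∑ i ∈ s, p i • (fun t => f₁ (t + 2 * i))) := by
      intro s
      classical
      induction s using Finset.induction_on with
      | empty => rw [sum_empty]; exact Small.zero ρ
      | insert i s hi ih =>
        rw [sum_insert hi]
        exact (Small.smul _ (hsm.shn _)).add ih
    exact (h1 _).add (hsm.shn _)
  obtain ⟨C', hC'⟩ := hfinal
  exact ⟨D, p, ρ, C', hρ0, hm, hC'⟩

end

end Pool.Agent.H5.TSD
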