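import Mathlib

/-!
# Completion of a field at a nonarchimedean absolute value
-/

namespace Pool.Agent.H5.TSD

theorem exists_completion {K : Type} [Field K] (A : AbsoluteValue K ℝ)
    (hA : IsNonarchimedean A) :
    ∃ (E : Type) (_ : NormedField E) (_ : CompleteSpace E) (_ : IsUltrametricDist E)
      (j : K →+* E), ∀ x, ‖j x‖ = A x := by
  have hbase : ∀ x y : WithAbs A, ‖x + y‖ ≤ max ‖x‖ ‖y‖ := by
    intro x y
    exact hA _ _
  refine ⟨UniformSpace.Completion (WithAbs A), inferInstance, inferInstance, ?_,
    UniformSpace.Completion.coeRingHom.comp (WithAbs.equiv A).symm.toRingHom, ?_⟩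
  · refine IsUltrametricDist.isUltrametricDist_of_forall_norm_add_le_max_norm ?_
    intro x y
    induction x, y using UniformSpace.Completion.induction_on₂ with
    | hp =>
      exact isClosed_le (continuous_norm.comp continuous_add)
        ((continuous_norm.comp continuous_fst).max (continuous_norm.comp continuous_snd))
    | ih a b =>
      rw [← UniformSpace.Completion.coe_add, UniformSpace.Completion.norm_coe,
        UniformSpace.Completion.norm_coe, UniformSpace.Completion.norm_coe]
      exact hbase a b
  · intro x
    change ‖((WithAbs.equiv A).symm x : UniformSpace.Completion (WithAbs A))‖ = A x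
    rw [UniformSpace.Completion.norm_coe]
    rfl

end Pool.Agent.H5.TSD
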