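import Pool.Agent.H5.TSD.Defs

/-!
# Gauss absolute values with real weights on the field of rational functions
-/

namespace Pool.Agent.H5.TSD

open Finset Pool.Agent.H15.TSys

variable {V : Type}

/-- the weight of a monomial -/
noncomputable def wt (μ : V → ℝ) (m : V →₀ ℕ) : ℝ := m.sum fun v k => (k : ℝ) * μ v

theorem wt_add (μ : V → ℝ) (m m' : V →₀ ℕ) : wt μ (m + m') = wt μ m + wt μ m' := by
  unfold wt
  exact Finsupp.sum_add_index' (fun v => by simp) (fun v a b => by push_cast; ring)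

theorem wt_single (μ : V → ℝ) (v : V) (k : ℕ) : wt μ (Finsupp.single v k) = k * μ v := by
  unfold wt
  rw [Finsupp.sum_single_index (by simp)]

theorem wt_neg (μ : V → ℝ) (m : V →₀ ℕ) : wt (-μ) m = -wt μ m := by
  unfold wt
  rw [Finsupp.sum, Finsupp.sum, ← Finset.sum_neg_distrib]
  exact Finset.sum_congr rfl fun v _ => by simp

/-- the embedding of polynomials into Hahn series -/
noncomputable def hemb (μ : V → ℝ) : MvPolynomial V ℚ →+* HahnSeries ℝ (KK V) :=
  MvPolynomial.eval₂Hom ((HahnSeries.C : KK V →+* HahnSeries ℝ (KK V)).comp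
    (algebraMap ℚ (KK V))) (fun v => HahnSeries.single (μ v) (xv v))

theorem hemb_monomial (μ : V → ℝ) (m : V →₀ ℕ) (c : ℚ) :
    hemb μ (MvPolynomial.monomial m c) =
      HahnSeries.single (wt μ m) (algebraMap (MvPolynomial V ℚ) (KK V)
        (MvPolynomial.monomial m c)) := by
  induction m using Finsupp.induction generalizing c with
  | zero =>
    unfold hemb
    rw [show wt μ 0 = 0 by simp [wt]]
    change MvPolynomial.eval₂Hom _ _ (MvPolynomial.C c) = HahnSeries.single 0 (algebraMap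
      (MvPolynomial V ℚ) (KK V) (MvPolynomial.C c))
    rw [MvPolynomial.eval₂Hom_C, ← MvPolynomial.algebraMap_eq, ← IsScalarTower.algebraMap_apply,
      RingHom.comp_apply, HahnSeries.C_apply]
  | single_add v k m hv hk ih =>
    have e : MvPolynomial.monomial (Finsupp.single v k + m) c =
        (MvPolynomial.X v : MvPolynomial V ℚ) ^ k * MvPolynomial.monomial m c := by
      rw [MvPolynomial.X_pow_eq_monomial, MvPolynomial.monomial_mul, one_mul]
    rw [e, map_mul, ih, map_pow]
    have e2 : hemb μ (MvPolynomial.X v) = HahnSeries.single (μ v) (xv v) := by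
      unfold hemb
      rw [MvPolynomial.eval₂Hom_X']
    rw [e2, HahnSeries.single_pow, HahnSeries.single_mul_single, wt_add, wt_single,
      (algebraMap (MvPolynomial V ℚ) (KK V)).map_mul,
      (algebraMap (MvPolynomial V ℚ) (KK V)).map_pow, nsmul_eq_mul]
    rfl

open Classical in
theorem hemb_coeff (μ : V → ℝ) (p : MvPolynomial V ℚ) (e : ℝ) :
    (hemb μ p).coeff e = algebraMap (MvPolynomial V ℚ) (KK V)
      (∑ m ∈ p.support.filter (fun m => wt μ m = e), MvPolynomial.monomial m (p.coeff m)) := by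
  conv_lhs => rw [p.as_sum]
  rw [map_sum, HahnSeries.coeff_sum, map_sum, Finset.sum_filter]
  refine Finset.sum_congr rfl fun m _ => ?_
  rw [hemb_monomial, HahnSeries.coeff_single]
  by_cases h : wt μ m = e
  · rw [if_pos h.symm, if_pos h]
  · rw [if_neg (Ne.symm h), if_neg h]

theorem hemb_coeff_ne (μ : V → ℝ) (p : MvPolynomial V ℚ) (m : V →₀ ℕ) (hm : m ∈ p.support) :
    (hemb μ p).coeff (wt μ m) ≠ 0 := by
  classical
  rw [hemb_coeff]
  refine algMap_ne fun h => ?_
  have h1 := congrArg (MvPolynomial.coeff m) h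
  rw [MvPolynomial.coeff_sum, MvPolynomial.coeff_zero] at h1
  rw [Finset.sum_eq_single (a := m)] at h1
  · rw [MvPolynomial.coeff_monomial, if_pos rfl] at h1
    exact (MvPolynomial.mem_support_iff.mp hm) h1
  · intro b _ hb
    rw [MvPolynomial.coeff_monomial, if_neg hb]
  · intro hnot
    exact absurd (by rw [Finset.mem_filter]; exact ⟨hm, rfl⟩) hnot

theorem hemb_inj (μ : V → ℝ) : Function.Injective (hemb (V := V) μ) := by
  rw [injective_iff_map_eq_zero]
  intro p hp
  by_contra hne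
  obtain ⟨m, hm⟩ := MvPolynomial.support_nonempty.mpr hne
  refine hemb_coeff_ne μ p m hm ?_
  rw [hp, HahnSeries.coeff_zero]

theorem order_hemb (μ : V → ℝ) {p : MvPolynomial V ℚ} (hp : p ≠ 0) :
    (∀ m ∈ p.support, (hemb μ p).order ≤ wt μ m) ∧ ∃ m ∈ p.support, (hemb μ p).order = wt μ m := by
  classical
  refine ⟨fun m hm => HahnSeries.order_le_of_coeff_ne_zero (hemb_coeff_ne μ p m hm), ?_⟩
  by_contra hcon
  push Not at hcon
  have h0 : hemb μ p ≠ 0 := by
    intro h
    exact hp (hemb_inj μ (by rw [h, map_zero]))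
  have h1 : (hemb μ p).coeff (hemb μ p).order ≠ 0 := by
    rw [Ne, HahnSeries.coeff_order_eq_zero]
    exact h0
  apply h1
  rw [hemb_coeff, Finset.sum_eq_zero, map_zero]
  intro m hm
  exact absurd (Finset.mem_filter.mp hm).2.symm (hcon m (Finset.mem_filter.mp hm).1)

/-- the embedding of the field -/
noncomputable def hembF (μ : V → ℝ) : KK V →+* HahnSeries ℝ (KK V) :=
  IsFractionRing.lift (hemb_inj μ)

theorem hembF_alg (μ : V → ℝ) (p : MvPolynomial V ℚ) :
    hembF μ (algebraMap (MvPolynomial V ℚ) (KK V) p) = hemb μ p := by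
  unfold hembF
  rw [IsFractionRing.lift_algebraMap]

open Classical in
/-- the absolute value attached to a weight: `|x_v| = exp (-μ_v)` -/
noncomputable def gabs (μ : V → ℝ) : AbsoluteValue (KK V) ℝ where
  toFun z := if z = 0 then 0 else Real.exp (-(hembF μ z).order)
  map_mul' := by
    intro a b
    by_cases ha : a = 0
    · simp [ha]
    by_cases hb : b = 0
    · simp [hb]
    rw [if_neg (mul_ne_zero ha hb), if_neg ha, if_neg hb, map_mul, HahnSeries.order_mul
      ((map_ne_zero _).mpr ha) ((map_ne_zero _).mpr hb), ← Real.exp_add]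
    congr 1; ring
  nonneg' := by
    intro a
    by_cases h : a = 0
    · simp [h]
    · simp only [h, if_false]
      exact (Real.exp_pos _).le
  eq_zero' := by
    intro a
    by_cases h : a = 0
    · simp [h]
    · simp [h, (Real.exp_pos _).ne']
  add_le' := by
    intro a b
    by_cases hab : a + b = 0
    · rw [if_pos hab]
      refine add_nonneg ?_ ?_ <;> (split_ifs <;> positivity)
    by_cases ha : a = 0
    · simp [ha]
    by_cases hb : b = 0
    · simp [hb]
    rw [if_neg hab, if_neg ha, if_neg hb, map_add]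
    have h1 : min (hembF μ a).order (hembF μ b).order ≤ (hembF μ a + hembF μ b).order := by
      refine HahnSeries.min_order_le_order_add ?_
      rw [← map_add]
      exact (map_ne_zero _).mpr hab
    rcases min_le_iff.mp h1 with h | h
    · exact (Real.exp_le_exp.mpr (by linarith)).trans
        (le_add_of_nonneg_right (Real.exp_pos _).le)
    · exact (Real.exp_le_exp.mpr (by linarith)).trans
        (le_add_of_nonneg_left (Real.exp_pos _).le)

open Classical in
theorem gabs_apply (μ : V → ℝ) {z : KK V} (hz : z ≠ 0) :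
    gabs μ z = Real.exp (-(hembF μ z).order) := by
  change (if z = 0 then (0 : ℝ) else _) = _
  rw [if_neg hz]

theorem gabs_alg (μ : V → ℝ) {p : MvPolynomial V ℚ} (hp : p ≠ 0) :
    gabs μ (algebraMap (MvPolynomial V ℚ) (KK V) p) = Real.exp (-(hemb μ p).order) := by
  rw [gabs_apply μ (algMap_ne hp), hembF_alg]

theorem gabs_nonarch (μ : V → ℝ) : IsNonarchimedean (gabs μ) := by
  intro a b
  by_cases hab : a + b = 0
  · rw [hab, map_zero]
    exact le_max_of_le_left ((gabs μ).nonneg _)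
  by_cases ha : a = 0
  · simp [ha]
  by_cases hb : b = 0
  · simp [hb]
  rw [gabs_apply μ hab, gabs_apply μ ha, gabs_apply μ hb, map_add]
  have h1 : min (hembF μ a).order (hembF μ b).order ≤ (hembF μ a + hembF μ b).order := by
    refine HahnSeries.min_order_le_order_add ?_
    rw [← map_add]
    exact (map_ne_zero _).mpr hab
  rcases min_le_iff.mp h1 with h | h
  · exact le_max_of_le_left (Real.exp_le_exp.mpr (by linarith))
  · exact le_max_of_le_right (Real.exp_le_exp.mpr (by linarith))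

theorem gabs_ge (μ : V → ℝ) {p : MvPolynomial V ℚ} {m : V →₀ ℕ} (hm : m ∈ p.support) :
    Real.exp (-wt μ m) ≤ gabs μ (algebraMap (MvPolynomial V ℚ) (KK V) p) := by
  have hp : p ≠ 0 := by
    intro h
    rw [h] at hm
    simp at hm
  rw [gabs_alg μ hp]
  exact Real.exp_le_exp.mpr (by linarith [(order_hemb μ hp).1 m hm])

theorem gabs_monomial (μ : V → ℝ) (m : V →₀ ℕ) :
    gabs μ (algebraMap (MvPolynomial V ℚ) (KK V) (MvPolynomial.monomial m 1)) =
      Real.exp (-wt μ m) := by
  have hne : (MvPolynomial.monomial m (1 : ℚ)) ≠ 0 := by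
    rw [Ne, MvPolynomial.monomial_eq_zero]
    exact one_ne_zero
  rw [gabs_alg μ hne, hemb_monomial, HahnSeries.order_single (algMap_ne hne)]

theorem gabs_xv (μ : V → ℝ) (v : V) : gabs μ (xv v) = Real.exp (-μ v) := by
  have := gabs_monomial μ (Finsupp.single v 1)
  rw [wt_single, Nat.cast_one, one_mul] at this
  exact this

theorem gabs_add_pos_alg (μ : V → ℝ) {p q : MvPolynomial V ℚ} (hp : PosPoly p)
    (hq : PosPoly q) :
    gabs μ (algebraMap (MvPolynomial V ℚ) (KK V) (p + q)) =
      max (gabs μ (algebraMap (MvPolynomial V ℚ) (KK V) p))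
        (gabs μ (algebraMap (MvPolynomial V ℚ) (KK V) q)) := by
  have hsup : ∀ m, m ∈ p.support → m ∈ (p + q).support := by
    intro m hm
    rw [MvPolynomial.mem_support_iff] at hm ⊢
    rw [MvPolynomial.coeff_add]
    have h1 := hp.2 m
    have h2 := hq.2 m
    have h3 : 0 < p.coeff m := lt_of_le_of_ne h1 (Ne.symm hm)
    exact (add_pos_of_pos_of_nonneg h3 h2).ne'
  have hsuq : ∀ m, m ∈ q.support → m ∈ (p + q).support := by
    intro m hm
    rw [MvPolynomial.mem_support_iff] at hm ⊢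
    rw [MvPolynomial.coeff_add]
    have h1 := hp.2 m
    have h2 := hq.2 m
    have h3 : 0 < q.coeff m := lt_of_le_of_ne h2 (Ne.symm hm)
    exact (add_pos_of_nonneg_of_pos h1 h3).ne'
  refine le_antisymm ?_ (max_le ?_ ?_)
  · rw [map_add]
    exact gabs_nonarch μ _ _
  · obtain ⟨m, hm, hme⟩ := (order_hemb μ hp.1).2
    rw [gabs_alg μ hp.1, hme]
    exact gabs_ge μ (hsup m hm)
  · obtain ⟨m, hm, hme⟩ := (order_hemb μ hq.1).2
    rw [gabs_alg μ hq.1, hme]
    exact gabs_ge μ (hsuq m hm)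

theorem gabs_add_pos (μ : V → ℝ) {a b : KK V} (ha : a ∈ (posCone V).S)
    (hb : b ∈ (posCone V).S) : gabs μ (a + b) = max (gabs μ a) (gabs μ b) := by
  obtain ⟨p, q, hp, hq, rfl⟩ := ha
  obtain ⟨p', q', hp', hq', rfl⟩ := hb
  have hq0 := algMap_ne (V := V) hq.1
  have hq0' := algMap_ne (V := V) hq'.1
  have e1 : algebraMap (MvPolynomial V ℚ) (KK V) p / algebraMap _ _ q +
      algebraMap (MvPolynomial V ℚ) (KK V) p' / algebraMap _ _ q' =
      algebraMap (MvPolynomial V ℚ) (KK V) (p * q' + q * p') / algebraMap _ _ (q * q') := by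
    rw [map_add, map_mul, map_mul, map_mul, div_add_div _ _ hq0 hq0']
  rw [e1, map_div₀, gabs_add_pos_alg μ (hp.mul hq') (hq.mul hp'), map_mul, map_mul, map_mul,
    map_mul, map_mul, map_mul, map_div₀, map_div₀]
  have h1 : 0 < gabs μ (algebraMap (MvPolynomial V ℚ) (KK V) q) := (gabs μ).pos hq0
  have h2 : 0 < gabs μ (algebraMap (MvPolynomial V ℚ) (KK V) q') := (gabs μ).pos hq0'
  have e2 : gabs μ (algebraMap (MvPolynomial V ℚ) (KK V) p) /
      gabs μ (algebraMap (MvPolynomial V ℚ) (KK V) q) =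
      (gabs μ (algebraMap (MvPolynomial V ℚ) (KK V) p) *
        gabs μ (algebraMap (MvPolynomial V ℚ) (KK V) q')) /
      (gabs μ (algebraMap (MvPolynomial V ℚ) (KK V) q) *
        gabs μ (algebraMap (MvPolynomial V ℚ) (KK V) q')) := by
    field_simp
  have e3 : gabs μ (algebraMap (MvPolynomial V ℚ) (KK V) p') /
      gabs μ (algebraMap (MvPolynomial V ℚ) (KK V) q') =
      (gabs μ (algebraMap (MvPolynomial V ℚ) (KK V) q) *
        gabs μ (algebraMap (MvPolynomial V ℚ) (KK V) p')) /
      (gabs μ (algebraMap (MvPolynomial V ℚ) (KK V) q) *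
        gabs μ (algebraMap (MvPolynomial V ℚ) (KK V) q')) := by
    field_simp
  rw [e2, e3, max_div_div_right (mul_pos h1 h2).le]

theorem LS_form {h : KK V} (hh : h ∈ LS V) : ∃ (p : MvPolynomial V ℚ) (m : V →₀ ℕ),
    h * algebraMap (MvPolynomial V ℚ) (KK V) (MvPolynomial.monomial m 1) =
      algebraMap (MvPolynomial V ℚ) (KK V) p := by
  unfold LS at hh
  induction hh using Algebra.adjoin_induction with
  | mem x hx =>
    rcases hx with ⟨v, rfl⟩ | ⟨v, rfl⟩
    · refine ⟨MvPolynomial.X v, 0, ?_⟩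
      change xv v * algebraMap (MvPolynomial V ℚ) (KK V) 1 = _
      rw [map_one, mul_one]
      rfl
    · refine ⟨1, Finsupp.single v 1, ?_⟩
      change (xv v)⁻¹ * xv v = _
      rw [map_one, inv_mul_cancel₀]
      exact algMap_ne (MvPolynomial.X_ne_zero v)
  | algebraMap r =>
    refine ⟨MvPolynomial.C r, 0, ?_⟩
    change algebraMap ℚ (KK V) r * algebraMap (MvPolynomial V ℚ) (KK V) 1 = _
    rw [map_one, mul_one, ← MvPolynomial.algebraMap_eq, ← IsScalarTower.algebraMap_apply]
  | add x y _ _ hx hy =>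
    obtain ⟨p, m, hp⟩ := hx
    obtain ⟨q, n, hq⟩ := hy
    refine ⟨p * MvPolynomial.monomial n 1 + q * MvPolynomial.monomial m 1, m + n, ?_⟩
    have e : MvPolynomial.monomial (m + n) (1 : ℚ) =
        MvPolynomial.monomial m 1 * MvPolynomial.monomial n 1 := by
      rw [MvPolynomial.monomial_mul, one_mul]
    rw [e, (algebraMap (MvPolynomial V ℚ) (KK V)).map_mul,
      (algebraMap (MvPolynomial V ℚ) (KK V)).map_add,
      (algebraMap (MvPolynomial V ℚ) (KK V)).map_mul,
      (algebraMap (MvPolynomial V ℚ) (KK V)).map_mul, ← hp, ← hq]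
    ring
  | mul x y _ _ hx hy =>
    obtain ⟨p, m, hp⟩ := hx
    obtain ⟨q, n, hq⟩ := hy
    refine ⟨p * q, m + n, ?_⟩
    have e : MvPolynomial.monomial (m + n) (1 : ℚ) =
        MvPolynomial.monomial m 1 * MvPolynomial.monomial n 1 := by
      rw [MvPolynomial.monomial_mul, one_mul]
    rw [e, (algebraMap (MvPolynomial V ℚ) (KK V)).map_mul,
      (algebraMap (MvPolynomial V ℚ) (KK V)).map_mul, ← hp, ← hq]
    ring

theorem gabs_LS (μ : V → ℝ) {h : KK V} (hh : h ∈ LS V) (h0 : h ≠ 0) :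
    1 ≤ gabs μ h * gabs (-μ) h := by
  obtain ⟨p, m, hp⟩ := LS_form hh
  have hm0 : algebraMap (MvPolynomial V ℚ) (KK V) (MvPolynomial.monomial m 1) ≠ 0 := by
    refine algMap_ne ?_
    rw [Ne, MvPolynomial.monomial_eq_zero]
    exact one_ne_zero
  have hp0 : p ≠ 0 := by
    intro hz
    rw [hz, map_zero] at hp
    exact (mul_ne_zero h0 hm0) hp
  obtain ⟨m', hm'⟩ := MvPolynomial.support_nonempty.mpr hp0
  have h1 := congrArg (gabs μ) hp
  have h2 := congrArg (gabs (-μ)) hp
  rw [map_mul, gabs_monomial] at h1 h2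
  have h3 := gabs_ge μ hm'
  have h4 := gabs_ge (-μ) hm'
  rw [← h1] at h3
  rw [← h2] at h4
  rw [wt_neg] at h4
  rw [wt_neg, neg_neg] at h4
  rw [neg_neg] at h4
  have h5 : Real.exp (-wt μ m') * Real.exp (wt μ m') ≤
      (gabs μ h * Real.exp (-wt μ m)) * (gabs (-μ) h * Real.exp (wt μ m)) :=
    mul_le_mul h3 h4 (Real.exp_pos _).le
      (mul_nonneg ((gabs μ).nonneg _) (Real.exp_pos _).le)
  have h6 : ∀ r : ℝ, Real.exp (-r) * Real.exp r = 1 := fun r => by
    rw [← Real.exp_add, neg_add_cancel, Real.exp_zero]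
  calc (1 : ℝ) = Real.exp (-wt μ m') * Real.exp (wt μ m') := (h6 _).symm
    _ ≤ _ := h5
    _ = gabs μ h * gabs (-μ) h * (Real.exp (-wt μ m) * Real.exp (wt μ m)) := by ring
    _ = gabs μ h * gabs (-μ) h := by rw [h6, mul_one]

/-- (M4) -/
theorem exists_abv (μ : V → ℝ) :
    ∃ A B : AbsoluteValue (KK V) ℝ, IsNonarchimedean A ∧ IsNonarchimedean B ∧
      (∀ v, A (xv v) = Real.exp (μ v)) ∧ (∀ v, B (xv v) = Real.exp (-μ v)) ∧
      (∀ a ∈ (posCone V).S, ∀ b ∈ (posCone V).S, A (a + b) = max (A a) (A b)) ∧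
      (∀ a ∈ (posCone V).S, ∀ b ∈ (posCone V).S, B (a + b) = max (B a) (B b)) ∧
      ∀ h ∈ LS V, h ≠ 0 → 1 ≤ A h * B h := by
  refine ⟨gabs (-μ), gabs μ, gabs_nonarch _, gabs_nonarch _, fun v => ?_, fun v => gabs_xv μ v,
    fun a ha b hb => gabs_add_pos _ ha hb, fun a ha b hb => gabs_add_pos _ ha hb,
    fun h hh h0 => ?_⟩
  · rw [gabs_xv, Pi.neg_apply, neg_neg]
  · rw [mul_comm]
    exact gabs_LS μ hh h0

end Pool.Agent.H5.TSD
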