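import Mathlib

/-!
# Hankel determinants: decay from a linear recurrence up to small errors, and the passage from the
vanishing of a Hankel determinant to a linear recurrence
-/

namespace Pool.Agent.H5.TSD

open Finset

section Bound

variable {E : Type*} [NormedField E]

/-- the Hankel determinant of size `M + 1` -/
def hk {K : Type*} [CommRing K] (a : ℕ → K) (M s : ℕ) : K :=
  (Matrix.of fun i j : Fin (M + 1) => a (s + i + j)).det

theorem norm_det_le {m : ℕ} (B : Matrix (Fin m) (Fin m) E) (r : Fin m → ℝ)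
    (h : ∀ i j, ‖B i j‖ ≤ r i) : ‖B.det‖ ≤ (Nat.factorial m) * ∏ i, r i := by
  rw [Matrix.det_apply]
  refine (norm_sum_le _ _).trans ?_
  have h1 : ∀ τ : Equiv.Perm (Fin m), ‖Equiv.Perm.sign τ • ∏ i, B (τ i) i‖ ≤ ∏ i, r i := by
    intro τ
    have h2 : ‖Equiv.Perm.sign τ • ∏ i, B (τ i) i‖ = ∏ i, ‖B (τ i) i‖ := by
      rcases Int.units_eq_one_or (Equiv.Perm.sign τ) with h | h
      · rw [h, one_smul, norm_prod]
      · rw [h, Units.neg_smul, one_smul, norm_neg, norm_prod]
    rw [h2]
    calc ∏ i, ‖B (τ i) i‖ ≤ ∏ i, r (τ i) :=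
          Finset.prod_le_prod (fun i _ => norm_nonneg _) fun i _ => h _ _
      _ = ∏ i, r i := Equiv.prod_comp τ r
  calc ∑ τ : Equiv.Perm (Fin m), ‖Equiv.Perm.sign τ • ∏ i, B (τ i) i‖
      ≤ ∑ _τ : Equiv.Perm (Fin m), ∏ i, r i := Finset.sum_le_sum fun τ _ => h1 τ
    _ = _ := by
      rw [Finset.sum_const, Finset.card_univ, Fintype.card_perm, Fintype.card_fin, nsmul_eq_mul]

/-- the row operations -/
def rowL (E : Type*) [NormedField E] (M D : ℕ) (p : ℕ → E) :
    Matrix (Fin (M + 1)) (Fin (M + 1)) E :=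
  Matrix.of fun i k => if k = i then 1 else
    if (D ≤ (i : ℕ) ∧ (i : ℕ) - D ≤ k ∧ (k : ℕ) < i) then p (k - (i - D)) else 0

theorem det_rowL (M D : ℕ) (p : ℕ → E) : (rowL E M D p).det = 1 := by
  rw [Matrix.det_of_isLowerTriangular]
  · refine Finset.prod_eq_one fun i _ => ?_
    simp [rowL]
  · intro i k hik
    have hlt : (i : ℕ) < k := hik
    have h1 : ¬ k = i := by
      intro h
      rw [h] at hlt
      exact lt_irrefl _ hlt
    simp only [rowL, Matrix.of_apply, h1, if_false]
    rw [if_neg]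
    omega

theorem rowL_mul (M D : ℕ) (p : ℕ → E) (a : ℕ → E) (s : ℕ) (i j : Fin (M + 1)) :
    (rowL E M D p * Matrix.of fun i j : Fin (M + 1) => a (s + i + j)) i j =
      if D ≤ (i : ℕ) then
        ∑ k ∈ range D, p k * a (s + ((i : ℕ) - D) + j + k) + a (s + ((i : ℕ) - D) + j + D)
      else a (s + i + j) := by
  rw [Matrix.mul_apply]
  simp only [rowL, Matrix.of_apply]
  rw [← Finset.add_sum_erase Finset.univ _ (Finset.mem_univ i)]
  rw [if_pos rfl, one_mul]
  have h1 : ∑ k ∈ Finset.univ.erase i, (if k = i then (1 : E) else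
      if (D ≤ (i : ℕ) ∧ (i : ℕ) - D ≤ k ∧ (k : ℕ) < i) then p (k - (i - D)) else 0) *
        a (s + k + j) =
      ∑ k : Fin (M + 1), (if (D ≤ (i : ℕ) ∧ (i : ℕ) - D ≤ k ∧ (k : ℕ) < i) then
        p (k - (i - D)) * a (s + k + j) else 0) := by
    rw [← Finset.add_sum_erase Finset.univ _ (Finset.mem_univ i)]
    rw [if_neg (by omega), zero_add]
    refine Finset.sum_congr rfl fun k hk => ?_
    rw [if_neg (Finset.ne_of_mem_erase hk)]
    split_ifs <;> simp
  rw [h1]
  by_cases hD : D ≤ (i : ℕ)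
  · rw [if_pos hD, add_comm]
    have hi := i.2
    congr 1
    · rw [← Finset.sum_filter]
      refine Finset.sum_bij' (fun k _ => (k : ℕ) - ((i : ℕ) - D))
        (fun l hl => ⟨(i : ℕ) - D + l, by
          have := Finset.mem_range.mp hl
          omega⟩) ?_ ?_ ?_ ?_ ?_
      · intro k hk
        have := (Finset.mem_filter.mp hk).2
        rw [Finset.mem_range]
        omega
      · intro l hl
        have := Finset.mem_range.mp hl
        rw [Finset.mem_filter]
        refine ⟨Finset.mem_univ _, hD, ?_, ?_⟩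
        · change (i : ℕ) - D ≤ (i : ℕ) - D + l; omega
        · change (i : ℕ) - D + l < (i : ℕ); omega
      · intro k hk
        have := (Finset.mem_filter.mp hk).2
        apply Fin.ext
        change (i : ℕ) - D + ((k : ℕ) - ((i : ℕ) - D)) = k
        omega
      · intro l hl
        change (i : ℕ) - D + l - ((i : ℕ) - D) = l
        omega
      · intro k hk
        have := (Finset.mem_filter.mp hk).2
        change p (k - (i - D)) * a (s + k + j) =
          p ((k : ℕ) - ((i : ℕ) - D)) * a (s + ((i : ℕ) - D) + j + ((k : ℕ) - ((i : ℕ) - D)))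
        congr 2
        omega
    · congr 1
      omega
  · rw [if_neg hD, Finset.sum_eq_zero, add_zero]
    intro k _
    rw [if_neg]
    omega

theorem hankel_tendsto (a : ℕ → E) (C R : ℝ) (hR0 : 0 < R) (hR : ∀ l, ‖a l‖ ≤ C * R ^ l) (D : ℕ)
    (p : ℕ → E) (ρ C' : ℝ) (hρ0 : 0 ≤ ρ) (hρ1 : ρ < 1)
    (h : ∀ l, ‖∑ k ∈ range D, p k * a (l + k) + a (l + D)‖ ≤ C' * ρ ^ l) :
    ∃ M₀, ∀ M ≥ M₀, Filter.Tendsto (fun s => ‖hk a M s‖) Filter.atTop (nhds 0) := by
  have hC0 : 0 ≤ C := by
    have := hR 0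
    rw [pow_zero, mul_one] at this
    exact (norm_nonneg _).trans this
  have hC0' : 0 ≤ C' := by
    have := h 0
    rw [pow_zero, mul_one] at this
    exact (norm_nonneg _).trans this
  -- enough rows
  have hex : ∃ m : ℕ, R ^ D * ρ ^ m < 1 := by
    obtain ⟨m, hm⟩ := exists_pow_lt_of_lt_one (inv_pos.mpr (pow_pos hR0 D)) hρ1
    refine ⟨m, ?_⟩
    calc R ^ D * ρ ^ m < R ^ D * (R ^ D)⁻¹ := mul_lt_mul_of_pos_left hm (pow_pos hR0 D)
      _ = 1 := mul_inv_cancel₀ (pow_pos hR0 D).ne'
  obtain ⟨m, hm⟩ := hex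
  refine ⟨D + m, fun M hM => ?_⟩
  set R1 := max 1 R with hR1
  have hR11 : 1 ≤ R1 := le_max_left _ _
  set C1 := C * R1 ^ (2 * M) with hC1
  have hC10 : 0 ≤ C1 := mul_nonneg hC0 (pow_nonneg (by linarith) _)
  set r : ℕ → Fin (M + 1) → ℝ := fun s i => if D ≤ (i : ℕ) then C' * ρ ^ s else C1 * R ^ s with hr
  have hbound : ∀ s, ‖hk a M s‖ ≤ (Nat.factorial (M + 1)) * ∏ i, r s i := by
    intro s
    have h1 : hk a M s = (rowL E M D p * Matrix.of fun i j : Fin (M + 1) => a (s + i + j)).det := by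
      rw [Matrix.det_mul, det_rowL, one_mul]; rfl
    rw [h1]
    refine norm_det_le _ _ fun i j => ?_
    rw [rowL_mul]
    simp only [hr]
    split_ifs with hD
    · have h2 := h (s + ((i : ℕ) - D) + j)
      refine h2.trans (mul_le_mul_of_nonneg_left ?_ hC0')
      exact pow_le_pow_of_le_one hρ0 hρ1.le (by omega)
    · refine (hR _).trans ?_
      have h3 : R ^ (s + (i : ℕ) + j) ≤ R1 ^ (2 * M) * R ^ s := by
        rw [add_assoc, pow_add, mul_comm]
        refine mul_le_mul_of_nonneg_right ?_ (pow_nonneg hR0.le s)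
        calc R ^ ((i : ℕ) + j) ≤ R1 ^ ((i : ℕ) + j) :=
              pow_le_pow_left₀ hR0.le (le_max_right _ _) _
          _ ≤ R1 ^ (2 * M) := pow_le_pow_right₀ hR11 (by
              have := i.2
              have := j.2
              omega)
      calc C * R ^ (s + (i : ℕ) + j) ≤ C * (R1 ^ (2 * M) * R ^ s) :=
            mul_le_mul_of_nonneg_left h3 hC0
        _ = C1 * R ^ s := by rw [hC1]; ring
  have hprod : ∀ s, ∏ i, r s i = (C1 ^ D * C' ^ (M + 1 - D)) * (R ^ D * ρ ^ (M + 1 - D)) ^ s := by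
    intro s
    have h1 : ∏ i : Fin (M + 1), r s i =
        ∏ i ∈ range (M + 1), (if D ≤ i then C' * ρ ^ s else C1 * R ^ s) := by
      rw [Finset.prod_range]
    have hsplit : M + 1 = D + (M + 1 - D) := by omega
    have h2 : ∏ i ∈ range (D + (M + 1 - D)), (if D ≤ i then C' * ρ ^ s else C1 * R ^ s) =
        (C1 * R ^ s) ^ D * (C' * ρ ^ s) ^ (M + 1 - D) := by
      rw [Finset.prod_range_add]
      congr 1
      · rw [Finset.prod_congr rfl (g := fun _ => C1 * R ^ s), Finset.prod_const, card_range]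
        intro i hi
        rw [if_neg]
        have := Finset.mem_range.mp hi
        omega
      · rw [Finset.prod_congr rfl (g := fun _ => C' * ρ ^ s), Finset.prod_const, card_range]
        intro i hi
        rw [if_pos (by omega)]
    rw [h1]
    conv_lhs => rw [hsplit]
    rw [h2]
    generalize M + 1 - D = e
    generalize C1 = c1
    ring
  set q := R ^ D * ρ ^ (M + 1 - D) with hq
  have hq0 : 0 ≤ q := mul_nonneg (pow_nonneg hR0.le _) (pow_nonneg hρ0 _)
  have hq1 : q < 1 := by
    refine lt_of_le_of_lt ?_ hm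
    refine mul_le_mul_of_nonneg_left ?_ (pow_nonneg hR0.le _)
    exact pow_le_pow_of_le_one hρ0 hρ1.le (by omega)
  have hlim : Filter.Tendsto (fun s : ℕ => (Nat.factorial (M + 1) : ℝ) *
      ((C1 ^ D * C' ^ (M + 1 - D)) * q ^ s)) Filter.atTop (nhds 0) := by
    have h1 := ((tendsto_pow_atTop_nhds_zero_of_lt_one hq0 hq1).const_mul
      (C1 ^ D * C' ^ (M + 1 - D))).const_mul (Nat.factorial (M + 1) : ℝ)
    rwa [mul_zero, mul_zero] at h1
  refine squeeze_zero (fun s => norm_nonneg _) (fun s => ?_) hlim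
  have := hbound s
  rwa [hprod s] at this

end Bound

section Kronecker

variable {K : Type*} [Field K]

/-- integer indexed version -/
def hz (a : ℤ → K) (M : ℕ) (s : ℤ) : K :=
  (Matrix.of fun i j : Fin (M + 1) => a (s + i + j)).det

theorem hz_shift (σ : K ≃+* K) (a : ℤ → K) (ha : ∀ l, σ (a l) = a (l + 1)) (M : ℕ) (s : ℤ) :
    σ (hz a M s) = hz a M (s + 1) := by
  unfold hz
  have := RingHom.map_det (σ : K →+* K) (Matrix.of fun i j : Fin (M + 1) => a (s + i + j))
  change σ _ = _ at this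
  rw [this]
  congr 1
  ext i j
  change σ (a (s + i + j)) = a (s + 1 + i + j)
  rw [ha]
  congr 1; ring

theorem hz_zero_iff (σ : K ≃+* K) (a : ℤ → K) (ha : ∀ l, σ (a l) = a (l + 1)) (M : ℕ) (s : ℤ) :
    hz a M s = 0 ↔ hz a M 0 = 0 := by
  have hstep : ∀ s, hz a M (s + 1) = 0 ↔ hz a M s = 0 := by
    intro s
    rw [← hz_shift σ a ha]
    exact map_eq_zero_iff σ σ.injective
  induction s using Int.induction_on with
  | zero => exact Iff.rfl
  | succ i ih => rw [hstep]; exact ih
  | pred i ih =>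
    rw [← hstep, sub_add_cancel]
    exact ih

/-- a vanishing Hankel determinant gives a linear recurrence with constant coefficients -/
theorem exists_rec_of_hankel (σ : K ≃+* K) (a : ℤ → K) (ha : ∀ l, σ (a l) = a (l + 1))
    (h0 : a 0 ≠ 0) (M : ℕ) (hM : hz a M 0 = 0) :
    ∃ (m : ℕ) (c : ℕ → K), (∃ k ≤ m, c k ≠ 0) ∧
      ∀ l : ℕ, ∑ k ∈ range (m + 1), c k * a (l + k) = 0 := by
  classical
  have hex : ∃ m, hz a m 0 = 0 := ⟨M, hM⟩
  obtain ⟨m, hm, hmin⟩ : ∃ m, hz a m 0 = 0 ∧ ∀ m' < m, hz a m' 0 ≠ 0 :=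
    ⟨Nat.find hex, Nat.find_spec hex, fun m' h => Nat.find_min hex h⟩
  have hmpos : 0 < m := by
    rcases Nat.eq_zero_or_pos m with h1 | h1
    · exfalso
      rw [h1] at hm
      unfold hz at hm
      rw [Matrix.det_fin_one] at hm
      apply h0
      simpa using hm
    · exact h1
  obtain ⟨n, rfl⟩ : ∃ n, m = n + 1 := ⟨m - 1, by omega⟩
  have hn : ∀ s, hz a n s ≠ 0 := fun s h => hmin n (by omega) ((hz_zero_iff σ a ha n s).mp h)
  have hn1 : ∀ s, hz a (n + 1) s = 0 := fun s => (hz_zero_iff σ a ha (n + 1) s).mpr hm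
  -- normalised kernel vectors
  have hker : ∀ s : ℤ, ∃ c : ℕ → K, ∀ j ≤ n + 1,
      ∑ k ∈ range (n + 1), c k * a (s + j + k) + a (s + j + (n + 1 : ℕ)) = 0 := by
    intro s
    obtain ⟨w, hw, hw0⟩ := Matrix.exists_mulVec_eq_zero_iff.mpr (hn1 s)
    have hrow : ∀ j : Fin (n + 2), ∑ k : Fin (n + 2), a (s + j + k) * w k = 0 := by
      intro j
      exact congrFun hw0 j
    have hlast : w (Fin.last (n + 1)) ≠ 0 := by
      intro hz0
      apply hw
      have h2 : (Matrix.of fun i j : Fin (n + 1) => a (s + i + j)).mulVec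
          (fun k => w k.castSucc) = 0 := by
        funext j
        have := hrow j.castSucc
        rw [Fin.sum_univ_castSucc, hz0, mul_zero, add_zero] at this
        exact this
      have h3 : (fun k : Fin (n + 1) => w k.castSucc) = 0 := by
        by_contra hne
        exact hn s (Matrix.exists_mulVec_eq_zero_iff.mp ⟨_, hne, h2⟩)
      funext k
      refine Fin.lastCases ?_ (fun i => ?_) k
      · exact hz0
      · exact congrFun h3 i
    refine ⟨fun k => if h : k < n + 2 then w ⟨k, h⟩ / w (Fin.last (n + 1)) else 0, fun j hj => ?_⟩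
    have h4 := hrow ⟨j, by omega⟩
    rw [Fin.sum_univ_castSucc] at h4
    have h5 : ∑ k ∈ range (n + 1), (if h : k < n + 2 then w ⟨k, h⟩ / w (Fin.last (n + 1)) else 0) *
        a (s + j + k) = (∑ k : Fin (n + 1), a (s + j + k) * w k.castSucc) /
          w (Fin.last (n + 1)) := by
      rw [Finset.sum_range, Finset.sum_div]
      refine Finset.sum_congr rfl fun k _ => ?_
      rw [dif_pos (show (k : ℕ) < n + 2 by have := k.2; omega)]
      change w k.castSucc / _ * _ = _
      ring
    rw [h5]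
    field_simp
    have h6 : ((Fin.last (n + 1) : Fin (n + 2)) : ℕ) = n + 1 := rfl
    change ∑ k : Fin (n + 1), a (s + j + k) * w k.castSucc +
      a (s + j + (Fin.last (n + 1) : ℕ)) * w (Fin.last (n + 1)) = 0 at h4
    rw [h6] at h4
    linear_combination h4
  choose c hc using hker
  have huniq : ∀ (s : ℤ) (d d' : ℕ → K),
      (∀ j ≤ n, ∑ k ∈ range (n + 1), d k * a (s + j + k) + a (s + j + (n + 1 : ℕ)) = 0) →
      (∀ j ≤ n, ∑ k ∈ range (n + 1), d' k * a (s + j + k) + a (s + j + (n + 1 : ℕ)) = 0) →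
      ∀ k < n + 1, d k = d' k := by
    intro s d d' hd hd' k hk
    have h2 : (Matrix.of fun i j : Fin (n + 1) => a (s + i + j)).mulVec
        (fun k : Fin (n + 1) => d k - d' k) = 0 := by
      funext j
      change ∑ k : Fin (n + 1), a (s + j + k) * (d k - d' k) = 0
      have e1 := hd j (by have := j.2; omega)
      have e2 := hd' j (by have := j.2; omega)
      rw [Finset.sum_range] at e1 e2
      have e3 : ∑ k : Fin (n + 1), a (s + j + k) * (d k - d' k) =
          ∑ k : Fin (n + 1), d k * a (s + j + k) - ∑ k : Fin (n + 1), d' k * a (s + j + k) := by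
        rw [← Finset.sum_sub_distrib]
        exact Finset.sum_congr rfl fun k _ => by ring
      rw [e3]
      linear_combination e1 - e2
    have h3 : (fun k : Fin (n + 1) => d k - d' k) = 0 := by
      by_contra hne
      exact hn s (Matrix.exists_mulVec_eq_zero_iff.mp ⟨_, hne, h2⟩)
    exact sub_eq_zero.mp (congrFun h3 ⟨k, hk⟩)
  have hconst : ∀ l : ℕ, ∀ k < n + 1, c l k = c 0 k := by
    intro l
    induction l with
    | zero => intro k _; rfl
    | succ l ih =>
      intro k hk
      rw [← ih k hk]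
      refine huniq ((l : ℤ) + 1) _ _ ?_ ?_ k hk
      · intro j hj
        have := hc ((l + 1 : ℕ) : ℤ) j (by omega)
        push_cast at this ⊢
        exact this
      · intro j hj
        have := hc (l : ℤ) (j + 1) (by omega)
        rw [← this]
        congr 1
        · refine Finset.sum_congr rfl fun k _ => ?_
          congr 2; push_cast; ring
        · congr 1; push_cast; ring
  refine ⟨n + 1, fun k => if k < n + 1 then c 0 k else 1, ⟨n + 1, le_rfl, ?_⟩, fun l => ?_⟩
  · dsimp only
    rw [if_neg (by omega)]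
    exact one_ne_zero
  · dsimp only
    rw [Finset.sum_range_succ, if_neg (by omega), one_mul]
    have := hc (l : ℤ) 0 (by omega)
    rw [Nat.cast_zero, add_zero] at this
    rw [← this]
    congr 1
    refine Finset.sum_congr rfl fun k hk => ?_
    rw [if_pos (Finset.mem_range.mp hk), hconst l k (Finset.mem_range.mp hk)]

end Kronecker

end Pool.Agent.H5.TSD
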