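import Pool.Agent.H5.TSD.Asym
import Pool.Agent.H5.TSD.Gauss
import Pool.Agent.H5.TSD.Compl
import Pool.Agent.H5.TSD.Hankel

/-!
# Decay of the Hankel determinants of a T-system at one absolute value
-/

namespace Pool.Agent.H5.TSD

open Finset Pool.Agent.H15.TSys

/-- the tropical evolution -/
noncomputable def fseq (lam s : ℝ) : ℕ → ℝ
  | 0 => 0
  | 1 => s
  | (t + 2) => min (2 * fseq lam s (t + 1)) (lam * fseq lam s (t + 1)) - fseq lam s t

variable {V : Type}

section
variable (G : Sys V) (q : V → ℝ) (lam : ℝ) (hq : Eig G q lam) (T : V → ℤ → KK V) (hT : G.IsT T)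
  (s : ℝ) (A : AbsoluteValue (KK V) ℝ)
  (hx : ∀ v, A (xv v) = Real.exp (-(q v * fseq lam s (G.ε v).toNat)))
  (hadd : ∀ a ∈ (posCone V).S, ∀ b ∈ (posCone V).S, A (a + b) = max (A a) (A b))

include hq hT hx hadd in
theorem abs_T (t : ℕ) : ∀ v, Even ((t : ℤ) + G.ε v) →
    A (T v t) = Real.exp (-(q v * fseq lam s t)) := by
  induction t using Nat.strong_induction_on with
  | _ t ih =>
    intro v hv
    by_cases ht2 : 2 ≤ t
    · obtain ⟨r, rfl⟩ : ∃ r, t = r + 2 := ⟨t - 2, by omega⟩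
      have hr : Even ((r : ℤ) + G.ε v) := by
        obtain ⟨k, hk⟩ := hv
        exact ⟨k - 1, by push_cast at hk; linarith⟩
      have hrel := hT.rel v (r + 1) (by
        obtain ⟨k, hk⟩ := hr
        exact ⟨k + 1, by linarith⟩)
      rw [show (r : ℤ) + 1 + 1 = ((r + 2 : ℕ) : ℤ) by push_cast; ring,
        show (r : ℤ) + 1 - 1 = ((r : ℕ) : ℤ) by ring] at hrel
      have hadm : ∀ u, G.ε u = 1 - G.ε v → Even (((r + 1 : ℕ) : ℤ) + G.ε u) := by
        intro u hu
        obtain ⟨k, hk⟩ := hr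
        rw [hu]
        exact ⟨k + 1 - G.ε v, by push_cast; linarith⟩
      have hpos : ∀ u, G.ε u = 1 - G.ε v → T u ((r : ℤ) + 1) ∈ (posCone V).S := by
        intro u hu
        have := hT.pos (hadm u hu)
        push_cast at this
        exact this
      have hval : ∀ u, G.ε u = 1 - G.ε v →
          A (T u ((r : ℤ) + 1)) = Real.exp (-(q u * fseq lam s (r + 1))) := by
        intro u hu
        have := ih (r + 1) (by omega) u (hadm u hu)
        push_cast at this
        exact this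
      have e1 := congrArg A hrel
      rw [map_mul, hadd _ ((posCone V).prod _ _ fun u hu => hpos u (G.εN hu)) _
        ((posCone V).prod _ _ fun u hu => hpos u (G.εM hu)), map_prod, map_prod,
        Finset.prod_congr rfl (fun u hu => hval u (G.εN hu)),
        Finset.prod_congr rfl (fun u hu => hval u (G.εM hu)), ← Real.exp_sum, ← Real.exp_sum,
        ih r (by omega) v hr] at e1
      have e2 : ∑ u ∈ G.N v, -(q u * fseq lam s (r + 1)) =
          -(q v * (2 * fseq lam s (r + 1))) := by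
        rw [Finset.sum_neg_distrib, ← Finset.sum_mul, hq.eigN]; ring
      have e3 : ∑ u ∈ G.M v, -(q u * fseq lam s (r + 1)) =
          -(q v * (lam * fseq lam s (r + 1))) := by
        rw [Finset.sum_neg_distrib, ← Finset.sum_mul, hq.eigM]; ring
      rw [e2, e3, ← Real.exp_strictMono.monotone.map_max, max_neg_neg,
        ← mul_min_of_nonneg _ _ (hq.pos v).le] at e1
      have e4 : A (T v ((r + 2 : ℕ) : ℤ)) = Real.exp (-(q v * min (2 * fseq lam s (r + 1))
          (lam * fseq lam s (r + 1)))) / Real.exp (-(q v * fseq lam s r)) := by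
        rw [← e1]
        field_simp
      rw [e4, ← Real.exp_sub]
      congr 1
      change _ = -(q v * (min (2 * fseq lam s (r + 1)) (lam * fseq lam s (r + 1)) -
        fseq lam s r))
      ring
    · have htε : (t : ℤ) = G.ε v := by
        obtain ⟨k, hk⟩ := hv
        rcases G.hε v with h0 | h0 <;> omega
      rw [htε, hT.init, hx]
      congr 3
      rw [← htε]
      rfl

/-- the time used for the vertex `v`: the first admissible time `≥ t` -/
def idx (t : ℕ) (v : V) : ℕ := if Even ((t : ℤ) + G.ε v) then t else t + 1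

theorem idx_even (t : ℕ) (v : V) : Even (((idx G t v : ℕ) : ℤ) + G.ε v) := by
  unfold idx
  split_ifs with h
  · exact h
  · rw [Int.not_even_iff_odd] at h
    obtain ⟨k, hk⟩ := h
    exact ⟨k + 1, by push_cast; linarith⟩

theorem idx_add_two (t : ℕ) (v : V) : idx G (t + 2) v = idx G t v + 2 := by
  unfold idx
  have : Even (((t + 2 : ℕ) : ℤ) + G.ε v) ↔ Even ((t : ℤ) + G.ε v) := by
    constructor
    · rintro ⟨k, hk⟩
      exact ⟨k - 1, by push_cast at hk; linarith⟩
    · rintro ⟨k, hk⟩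
      exact ⟨k + 1, by push_cast; linarith⟩
  by_cases h : Even ((t : ℤ) + G.ε v)
  · rw [if_pos h, if_pos (this.mpr h)]
  · rw [if_neg h, if_neg (fun h' => h (this.mp h'))]

theorem idx_add (t l : ℕ) (v : V) : idx G (t + 2 * l) v = idx G t v + 2 * l := by
  induction l with
  | zero => rfl
  | succ l ih => rw [show t + 2 * (l + 1) = (t + 2 * l) + 2 by ring, idx_add_two, ih]; ring

theorem idx_nbr (t : ℕ) (v u : V) (hu : G.ε u = 1 - G.ε v) : idx G (t + 1) u = idx G t v + 1 := by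
  unfold idx
  have : Even (((t + 1 : ℕ) : ℤ) + G.ε u) ↔ Even ((t : ℤ) + G.ε v) := by
    rw [hu]
    constructor
    · rintro ⟨k, hk⟩
      exact ⟨k - 1 + G.ε v, by push_cast at hk; linarith⟩
    · rintro ⟨k, hk⟩
      exact ⟨k + 1 - G.ε v, by push_cast; linarith⟩
  by_cases h : Even ((t : ℤ) + G.ε v)
  · rw [if_pos h, if_pos (this.mpr h)]
  · rw [if_neg h, if_neg (fun h' => h (this.mp h'))]

include hq hT hx hadd in
/-- decay of the Hankel determinants -/
theorem decay [Finite V] [Nonempty V] (hA : IsNonarchimedean A)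
    (n : ℕ) (hn : 0 < n)
    (hper : ∀ {B : Type} [AddCommGroup B] (L : ℕ → V → B),
      (∀ t v, L (t + 2) v + L t v = ∑ u ∈ G.N v, L (t + 1) u) →
      ∀ t v, L (t + 2 * n) v + L t v = 2 • L (t + n) v)
    (t₀ : ℕ) (p : ℝ) (hp : 0 < p) (hf0 : fseq lam s t₀ < 0)
    (hf : ∀ t : ℕ, fseq lam s (t₀ + t) = fseq lam s t₀ - p * t) (v : V) :
    ∃ M₀, ∀ M ≥ M₀, Filter.Tendsto
      (fun r : ℕ => A (hk (fun l : ℕ => T v (G.ε v + 2 * l)) M r)) Filter.atTop (nhds 0) := by
  obtain ⟨E, _, _, _, j, hj⟩ := exists_completion A hA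
  set f := fseq lam s with hfdef
  obtain ⟨v₁, hv₁⟩ := Finite.exists_min q
  obtain ⟨v₂, hv₂⟩ := Finite.exists_max q
  set qm := q v₁ with hqm
  set qM := q v₂ with hqM
  have hqm0 : 0 < qm := hq.pos v₁
  have hlam : 0 < 2 - lam := by linarith [hq.lam2]
  set T' : ℕ → V → E := fun t v => j (T v (idx G (t₀ + t) v)) with hT'
  have hidxge : ∀ t v, ∃ i : ℕ, i ≤ 1 ∧ idx G (t₀ + t) v = t₀ + (t + i) := by
    intro t v
    unfold idx
    split_ifs
    · exact ⟨0, by omega, by omega⟩
    · exact ⟨1, le_rfl, by omega⟩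
  have hnormT : ∀ t v, ‖T' t v‖ = Real.exp (-(q v * f (idx G (t₀ + t) v))) := by
    intro t v
    rw [hT', hj]
    exact abs_T G q lam hq T hT s A hx hadd _ v (idx_even G _ v)
  have hT0 : ∀ t v, T' t v ≠ 0 := by
    intro t v h
    have := hnormT t v
    rw [h, norm_zero] at this
    exact (Real.exp_pos _).ne this
  have hrel : ∀ t v, T' (t + 2) v * T' t v =
      ∏ u ∈ G.N v, T' (t + 1) u + ∏ u ∈ G.M v, T' (t + 1) u := by
    intro t v
    simp only [hT']
    rw [← map_mul, show t₀ + (t + 2) = (t₀ + t) + 2 by ring, idx_add_two]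
    set e := idx G (t₀ + t) v with he
    have hE : Even ((e : ℤ) + G.ε v) := idx_even G _ v
    have h1 := hT.rel v (e + 1) (by
      obtain ⟨k, hk⟩ := hE
      exact ⟨k + 1, by linarith⟩)
    have h2 : T v ((e + 2 : ℕ) : ℤ) * T v ((e : ℕ) : ℤ) =
        ∏ u ∈ G.N v, T u ((e : ℤ) + 1) + ∏ u ∈ G.M v, T u ((e : ℤ) + 1) := by
      rw [← h1, show ((e + 2 : ℕ) : ℤ) = (e : ℤ) + 1 + 1 by push_cast; ring,
        show (e : ℤ) + 1 - 1 = e by ring]
    rw [h2, map_add, map_prod, map_prod]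
    congr 1
    · refine Finset.prod_congr rfl fun u hu => ?_
      rw [show t₀ + (t + 1) = (t₀ + t) + 1 by ring, idx_nbr G _ v u (G.εN hu), ← he]
      push_cast
      ring_nf
    · refine Finset.prod_congr rfl fun u hu => ?_
      rw [show t₀ + (t + 1) = (t₀ + t) + 1 by ring, idx_nbr G _ v u (G.εM hu), ← he]
      push_cast
      ring_nf
  set δ := Real.exp ((2 - lam) * qm * f t₀) with hδ
  set a := Real.exp (-((2 - lam) * qm * p)) with ha
  have hδ0 : 0 ≤ δ := (Real.exp_pos _).le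
  have hδ1 : δ < 1 := by
    rw [hδ, Real.exp_lt_one_iff]
    exact mul_neg_of_pos_of_neg (mul_pos hlam hqm0) hf0
  have ha0 : 0 < a := Real.exp_pos _
  have ha1 : a < 1 := by
    rw [ha, Real.exp_lt_one_iff, neg_lt_zero]
    exact mul_pos (mul_pos hlam hqm0) hp
  have hneg : ∀ t : ℕ, f (t₀ + t) < 0 := by
    intro t
    rw [hf t]
    have : 0 ≤ p * t := mul_nonneg hp.le (Nat.cast_nonneg t)
    linarith
  have hkk : ∀ t v, ‖∏ u ∈ G.M v, T' (t + 1) u‖ ≤ δ * a ^ t * ‖∏ u ∈ G.N v, T' (t + 1) u‖ := by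
    intro t v
    obtain ⟨i, hi, hie⟩ := hidxge t v
    set e := idx G (t₀ + t) v with he
    have hvalN : ∀ u, G.ε u = 1 - G.ε v → ‖T' (t + 1) u‖ = Real.exp (-(q u * f (e + 1))) := by
      intro u hu
      rw [hnormT, show t₀ + (t + 1) = (t₀ + t) + 1 by ring, idx_nbr G _ v u hu]
    rw [norm_prod, norm_prod, Finset.prod_congr rfl (fun u hu => hvalN u (G.εM hu)),
      Finset.prod_congr rfl (fun u hu => hvalN u (G.εN hu)), ← Real.exp_sum, ← Real.exp_sum]
    have e2 : ∑ u ∈ G.N v, -(q u * f (e + 1)) = -(2 * q v * f (e + 1)) := by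
      rw [Finset.sum_neg_distrib, ← Finset.sum_mul, hq.eigN]
    have e3 : ∑ u ∈ G.M v, -(q u * f (e + 1)) = -(lam * q v * f (e + 1)) := by
      rw [Finset.sum_neg_distrib, ← Finset.sum_mul, hq.eigM]
    rw [e2, e3, hδ, ha, ← Real.exp_nat_mul, ← Real.exp_add, ← Real.exp_add, Real.exp_le_exp]
    have h1 : e + 1 = t₀ + (t + (i + 1)) := by omega
    have h2 : f (e + 1) ≤ f t₀ - p * t := by
      rw [h1, hf]
      push_cast
      have : 0 ≤ p * ((i : ℝ) + 1) := by positivity
      nlinarith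
    have h3 : f (e + 1) < 0 := by rw [h1]; exact hneg _
    have h4 : qm * (f t₀ - p * t) ≥ q v * f (e + 1) := by
      have h5 : q v * f (e + 1) ≤ qm * f (e + 1) :=
        mul_le_mul_of_nonpos_right (hv₁ v) h3.le
      have h6 : qm * f (e + 1) ≤ qm * (f t₀ - p * t) := mul_le_mul_of_nonneg_left h2 hqm0.le
      linarith
    have h7 : (2 - lam) * (q v * f (e + 1)) ≤ (2 - lam) * (qm * (f t₀ - p * t)) :=
      mul_le_mul_of_nonneg_left h4 hlam.le
    linarith
  set R := Real.exp (qM * p) with hRdef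
  set C := Real.exp (qM * (p - f t₀)) with hCdef
  have hqM0 : 0 < qM := hq.pos v₂
  have hR : ∀ t v, ‖T' t v‖ ≤ C * R ^ t := by
    intro t v
    obtain ⟨i, hi, hie⟩ := hidxge t v
    rw [hnormT, hie, hf, hRdef, hCdef, ← Real.exp_nat_mul, ← Real.exp_add, Real.exp_le_exp]
    push_cast
    have h1 : (0 : ℝ) ≤ p * (t + i) - f t₀ := by
      have : (0 : ℝ) ≤ p * (t + i) := by positivity
      linarith
    have h2 : q v * (p * (t + i) - f t₀) ≤ qM * (p * (t + i) - f t₀) :=
      mul_le_mul_of_nonneg_right (hv₂ v) h1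
    have h3 : (i : ℝ) ≤ 1 := by exact_mod_cast hi
    have h4 : qM * (p * (t + i) - f t₀) ≤ qM * (p * (t + 1) - f t₀) := by
      refine mul_le_mul_of_nonneg_left ?_ hqM0.le
      have : p * ((t : ℝ) + i) ≤ p * (t + 1) := mul_le_mul_of_nonneg_left (by linarith) hp.le
      linarith
    linarith
  obtain ⟨D, pc, ρ, C', hρ0, hρ1, hb⟩ := asym G.N G.M n hn hper T' hT0 hrel δ a hδ0 hδ1 ha0 ha1
    hkk C R (Real.exp_pos _) hR v
  have h2 := hankel_tendsto (fun l => T' (2 * l) v) C (R ^ 2) (pow_pos (Real.exp_pos _) 2)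
    (fun l => by
      have := hR (2 * l) v
      rwa [pow_mul] at this) D pc (ρ ^ 2) C' (pow_nonneg hρ0 2)
    (by nlinarith) (fun l => by
      have := hb (2 * l)
      rw [← pow_mul]
      refine le_trans (le_of_eq ?_) this
      congr 2
      · refine Finset.sum_congr rfl fun k _ => ?_
        rw [mul_add]
      · rw [mul_add])
  obtain ⟨M₀, hM₀⟩ := h2
  refine ⟨M₀, fun M hM => ?_⟩
  have h3 := hM₀ M hM
  -- the starting index
  obtain ⟨l₀, hl₀⟩ : ∃ l₀ : ℕ, ((idx G t₀ v : ℕ) : ℤ) = G.ε v + 2 * l₀ := by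
    obtain ⟨k, hk⟩ := idx_even G t₀ v
    refine ⟨(k - G.ε v).toNat, ?_⟩
    rw [Int.toNat_of_nonneg]
    · linarith
    · rcases G.hε v with h | h
      · rw [h] at hk ⊢; omega
      · rw [h] at hk ⊢
        have : (0 : ℤ) ≤ (idx G t₀ v : ℕ) := Int.natCast_nonneg _
        omega
  have h4 : ∀ r : ℕ, ‖hk (fun l => T' (2 * l) v) M r‖ =
      A (hk (fun l : ℕ => T v (G.ε v + 2 * l)) M (r + l₀)) := by
    intro r
    rw [← hj]
    congr 1
    unfold hk
    rw [RingHom.map_det]
    congr 1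
    ext i k
    simp only [Matrix.of_apply, RingHom.mapMatrix_apply, Matrix.map_apply, hT']
    rw [idx_add]
    congr 2
    push_cast
    rw [hl₀]
    ring
  simp only [h4] at h3
  exact (Filter.tendsto_add_atTop_iff_nat l₀).mp h3

end

end Pool.Agent.H5.TSD
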