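import Pool.Agent.H15.TSys.Rec

/-!
# Commuting neighbourhoods, Laurent polynomials, the common eigenvector
-/

namespace Pool.Agent.H5.TSD

open Finset Pool.Agent.H15.TSys

variable {V : Type}

/-- symmetric, disjoint, commuting neighbourhoods -/
structure Good [DecidableEq V] (G : Sys V) : Prop where
  symmN : ∀ u v, u ∈ G.N v → v ∈ G.N u
  symmM : ∀ u v, u ∈ G.M v → v ∈ G.M u
  disj : ∀ v, Disjoint (G.N v) (G.M v)
  comm : ∀ v u, ((G.N v).filter (fun w => u ∈ G.M w)).card =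
    ((G.M v).filter (fun w => u ∈ G.N w)).card

/-- the Laurent polynomials inside `ℚ(x)` -/
noncomputable def LS (V : Type) : Subalgebra ℚ (KK V) :=
  Algebra.adjoin ℚ (Set.range (xv (V := V)) ∪ Set.range (fun v : V => (xv v)⁻¹))

/-- a positive common eigenvector with eigenvalues `2` and `lam < 2` -/
structure Eig (G : Sys V) (q : V → ℝ) (lam : ℝ) : Prop where
  pos : ∀ v, 0 < q v
  eigN : ∀ v, ∑ u ∈ G.N v, q u = 2 * q v
  eigM : ∀ v, ∑ u ∈ G.M v, q u = lam * q v
  lam0 : 0 ≤ lam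
  lam2 : lam < 2

end Pool.Agent.H5.TSD
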