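import Pool.Agent.H5.TSD.Gauss

/-!
# Laurent polynomials: the ring, its evaluations, the kernel of a monomial substitution
-/

namespace Pool.Agent.H5.TSD

open Finset Pool.Agent.H15.TSys

/-- Laurent polynomials over `ℚ` -/
abbrev LL (V : Type) := AddMonoidAlgebra ℚ (V →₀ ℤ)

variable {V : Type}

/-- the monomial hom attached to a family of units -/
noncomputable def mhom {F : Type*} [CommRing F] (y : V → Fˣ) : Multiplicative (V →₀ ℤ) →* F :=
  (Units.coeHom F).comp (AddMonoidHom.toMultiplicativeLeft
    (Finsupp.liftAddHom fun v => zmultiplesHom (Additive Fˣ) (Additive.ofMul (y v))))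

/-- evaluation of Laurent polynomials at a family of units -/
noncomputable def lev {F : Type*} [CommRing F] [Algebra ℚ F] (y : V → Fˣ) : LL V →ₐ[ℚ] F :=
  AddMonoidAlgebra.lift ℚ F (V →₀ ℤ) (mhom y)

/-- the variable `x_v` as a unit -/
noncomputable def lx (v : V) : (LL V)ˣ where
  val := AddMonoidAlgebra.single (Finsupp.single v 1) 1
  inv := AddMonoidAlgebra.single (Finsupp.single v (-1)) 1
  val_inv := by
    rw [AddMonoidAlgebra.single_mul_single, ← Finsupp.single_add]
    simp [AddMonoidAlgebra.one_def]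
  inv_val := by
    rw [AddMonoidAlgebra.single_mul_single, ← Finsupp.single_add]
    simp [AddMonoidAlgebra.one_def]

theorem lev_lx {F : Type*} [CommRing F] [Algebra ℚ F] (y : V → Fˣ) (v : V) :
    lev y (lx v : LL V) = y v := by
  unfold lev lx
  change AddMonoidAlgebra.lift ℚ F (V →₀ ℤ) (mhom y) (AddMonoidAlgebra.single
    (Finsupp.single v 1) 1) = _
  rw [AddMonoidAlgebra.lift_single, one_smul]
  simp [mhom]

theorem lev_lx_inv {F : Type*} [CommRing F] [Algebra ℚ F] (y : V → Fˣ) (v : V) :
    lev y (((lx v)⁻¹ : (LL V)ˣ) : LL V) = (((y v)⁻¹ : Fˣ) : F) := by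
  have h1 : lev y (((lx v)⁻¹ : (LL V)ˣ) : LL V) * (y v : F) = 1 := by
    rw [← lev_lx y v, ← map_mul, Units.inv_mul, map_one]
  exact (Units.inv_eq_of_mul_eq_one_left h1).symm

/-- homs are determined by the values at the variables -/
theorem hom_ext {F : Type*} [CommRing F] [Algebra ℚ F] (f g : LL V →ₐ[ℚ] F)
    (h : ∀ v : V, f (lx v : LL V) = g (lx v : LL V)) : f = g := by
  have key : ∀ m : V →₀ ℤ, f (AddMonoidAlgebra.single m 1) = g (AddMonoidAlgebra.single m 1) := by
    intro m
    set Mf : Multiplicative (V →₀ ℤ) →* F := (f : LL V →* F).comp (AddMonoidAlgebra.of ℚ (V →₀ ℤ))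
    set Mg : Multiplicative (V →₀ ℤ) →* F := (g : LL V →* F).comp (AddMonoidAlgebra.of ℚ (V →₀ ℤ))
    -- lift to units
    have hu : ∀ a : Multiplicative (V →₀ ℤ), Mf.toHomUnits a = Mg.toHomUnits a := by
      have e : Mf.toHomUnits = Mg.toHomUnits := by
        have e1 : AddMonoidHom.toMultiplicativeLeft.symm Mf.toHomUnits =
            AddMonoidHom.toMultiplicativeLeft.symm Mg.toHomUnits := by
          apply Finsupp.addHom_ext'
          intro v
          apply AddMonoidHom.ext_int
          change Additive.ofMul (Mf.toHomUnits (Multiplicative.ofAdd (Finsupp.single v 1))) =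
            Additive.ofMul (Mg.toHomUnits (Multiplicative.ofAdd (Finsupp.single v 1)))
          congr 1
          apply Units.ext
          exact h v
        exact AddMonoidHom.toMultiplicativeLeft.symm.injective e1
      intro a; rw [e]
    exact congrArg Units.val (hu (Multiplicative.ofAdd m))
  apply AlgHom.ext
  intro n
  induction n using AddMonoidAlgebra.induction_on with
  | of a => exact key _
  | add x y hx hy => rw [map_add, map_add, hx, hy]
  | smul r x hx => rw [map_smul, map_smul, hx]

/-- every Laurent polynomial is a polynomial divided by a monomial -/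
theorem LL_form (n : LL V) : ∃ (p : MvPolynomial V ℚ) (m : V →₀ ℕ),
    n * MvPolynomial.aeval (fun v => (lx v : LL V)) (MvPolynomial.monomial m (1 : ℚ)) =
      MvPolynomial.aeval (fun v => (lx v : LL V)) p := by
  have hmon : ∀ m : V →₀ ℕ, MvPolynomial.aeval (fun v => (lx v : LL V))
      (MvPolynomial.monomial m (1 : ℚ)) =
      AddMonoidAlgebra.single (m.mapRange (Nat.cast : ℕ → ℤ) rfl) 1 := by
    intro m
    induction m using Finsupp.induction with
    | zero =>
      rw [Finsupp.mapRange_zero]
      change MvPolynomial.aeval _ (1 : MvPolynomial V ℚ) = 1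
      rw [map_one]
    | single_add v k m hv hk ih =>
      have e : MvPolynomial.monomial (Finsupp.single v k + m) (1 : ℚ) =
          (MvPolynomial.X v : MvPolynomial V ℚ) ^ k * MvPolynomial.monomial m 1 := by
        rw [MvPolynomial.X_pow_eq_monomial, MvPolynomial.monomial_mul, one_mul]
      rw [e, map_mul, ih, map_pow, MvPolynomial.aeval_X]
      change (AddMonoidAlgebra.single (Finsupp.single v (1 : ℤ)) (1 : ℚ)) ^ k * _ = _
      rw [AddMonoidAlgebra.single_pow, AddMonoidAlgebra.single_mul_single, one_pow, one_mul]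
      congr 1
      rw [Finsupp.mapRange_add (by intro x y; push_cast; rfl), Finsupp.mapRange_single]
      simp
  induction n using AddMonoidAlgebra.induction_on with
  | of a =>
    refine ⟨MvPolynomial.monomial (a.mapRange Int.toNat rfl) 1,
      a.mapRange (fun z => (-z).toNat) rfl, ?_⟩
    rw [hmon, hmon]
    change AddMonoidAlgebra.single a (1 : ℚ) * _ = _
    rw [AddMonoidAlgebra.single_mul_single, one_mul]
    congr 1
    ext v
    simp only [Finsupp.add_apply, Finsupp.mapRange_apply]
    omega
  | add x y hx hy =>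
    obtain ⟨p, m, hp⟩ := hx
    obtain ⟨q, n, hq⟩ := hy
    refine ⟨p * MvPolynomial.monomial n 1 + q * MvPolynomial.monomial m 1, m + n, ?_⟩
    have e : MvPolynomial.monomial (m + n) (1 : ℚ) =
        MvPolynomial.monomial m 1 * MvPolynomial.monomial n 1 := by
      rw [MvPolynomial.monomial_mul, one_mul]
    rw [e, map_mul, map_add, map_mul, map_mul, ← hp, ← hq]
    ring
  | smul r x hx =>
    obtain ⟨p, m, hp⟩ := hx
    refine ⟨r • p, m, ?_⟩
    rw [map_smul, ← hp, smul_mul_assoc]

/-- the tautological evaluation in the field -/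
noncomputable def xu (v : V) : (KK V)ˣ :=
  Units.mk0 (xv v) (algMap_ne (MvPolynomial.X_ne_zero v))

theorem xu_val (v : V) : ((xu v : (KK V)ˣ) : KK V) = xv v := rfl

theorem lev_poly (p : MvPolynomial V ℚ) :
    lev (xu (V := V)) (MvPolynomial.aeval (fun v => (lx v : LL V)) p) =
      algebraMap (MvPolynomial V ℚ) (KK V) p := by
  have : (lev (xu (V := V))).comp (MvPolynomial.aeval (fun v => (lx v : LL V))) =
      IsScalarTower.toAlgHom ℚ (MvPolynomial V ℚ) (KK V) := by
    apply MvPolynomial.algHom_ext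
    intro v
    rw [AlgHom.comp_apply, MvPolynomial.aeval_X, lev_lx]
    rfl
  exact congrArg (fun f : MvPolynomial V ℚ →ₐ[ℚ] KK V => f p) this

theorem lev_inj : Function.Injective (lev (xu (V := V))) := by
  rw [injective_iff_map_eq_zero]
  intro n hn
  obtain ⟨p, m, hp⟩ := LL_form n
  have h1 := congrArg (lev (xu (V := V))) hp
  rw [map_mul, hn, zero_mul, lev_poly] at h1
  have h2 : p = 0 := by
    by_contra hne
    exact algMap_ne hne h1.symm
  rw [h2, map_zero] at hp
  have h3 : IsUnit (MvPolynomial.aeval (fun v => (lx v : LL V))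
      (MvPolynomial.monomial m (1 : ℚ))) := by
    have e : MvPolynomial.monomial m (1 : ℚ) = ∏ v ∈ m.support, MvPolynomial.X v ^ m v := by
      rw [MvPolynomial.monomial_eq, MvPolynomial.C_1, one_mul]
      rfl
    rw [e, map_prod]
    refine IsUnit.prod_iff.mpr ?_
    intro v _
    rw [map_pow, MvPolynomial.aeval_X]
    exact (lx v).isUnit.pow _
  exact (h3.mul_left_eq_zero).mp hp

instance : NoZeroDivisors (LL V) :=
  Function.Injective.noZeroDivisors (lev (xu (V := V))) lev_inj (map_zero _) (map_mul _)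

theorem single_zpow_mem (S : Subalgebra ℚ (LL V)) (h : ∀ v : V, (lx v : LL V) ∈ S)
    (hi : ∀ v : V, (((lx v)⁻¹ : (LL V)ˣ) : LL V) ∈ S) : S = ⊤ := by
  have h1 : ∀ (v : V) (k : ℤ), (AddMonoidAlgebra.single (Finsupp.single v k) 1 : LL V) ∈ S := by
    intro v k
    rcases Int.eq_nat_or_neg k with ⟨n, rfl | rfl⟩
    · have e : (AddMonoidAlgebra.single (Finsupp.single v (n : ℤ)) 1 : LL V) =
          (lx v : LL V) ^ n := by
        change _ = (AddMonoidAlgebra.single (Finsupp.single v (1 : ℤ)) (1 : ℚ)) ^ n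
        rw [AddMonoidAlgebra.single_pow, one_pow]
        congr 1
        simp
      rw [e]
      exact S.pow_mem (h v) n
    · have e : (AddMonoidAlgebra.single (Finsupp.single v (-(n : ℤ))) 1 : LL V) =
          (((lx v)⁻¹ : (LL V)ˣ) : LL V) ^ n := by
        change _ = (AddMonoidAlgebra.single (Finsupp.single v (-1 : ℤ)) (1 : ℚ)) ^ n
        rw [AddMonoidAlgebra.single_pow, one_pow]
        congr 1
        simp
      rw [e]
      exact S.pow_mem (hi v) n
  have h2 : ∀ m : V →₀ ℤ, (AddMonoidAlgebra.single m 1 : LL V) ∈ S := by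
    intro m
    induction m using Finsupp.induction with
    | zero => exact S.one_mem
    | single_add v k m hv hk ih =>
      have e : (AddMonoidAlgebra.single (Finsupp.single v k + m) 1 : LL V) =
          AddMonoidAlgebra.single (Finsupp.single v k) 1 * AddMonoidAlgebra.single m 1 := by
        rw [AddMonoidAlgebra.single_mul_single, one_mul]
      rw [e]
      exact S.mul_mem (h1 v k) ih
  rw [eq_top_iff]
  intro n _
  induction n using AddMonoidAlgebra.induction_on with
  | of a => exact h2 _
  | add x y hx hy => exact S.add_mem (hx trivial) (hy trivial)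
  | smul r x hx => exact S.smul_mem (hx trivial) r

/-- evaluations at Laurent units stay in the Laurent polynomials -/
theorem lev_mem {F : Type*} [CommRing F] [Algebra ℚ F] (S : Subalgebra ℚ F) (y : V → Fˣ)
    (h : ∀ v, (y v : F) ∈ S)
    (hi : ∀ v, (((y v)⁻¹ : Fˣ) : F) ∈ S) (n : LL V) : lev y n ∈ S := by
  have : S.comap (lev y) = ⊤ := by
    apply single_zpow_mem
    · intro v
      change lev y (lx v : LL V) ∈ S
      rw [lev_lx]
      exact h v
    · intro v
      change lev y (((lx v)⁻¹ : (LL V)ˣ) : LL V) ∈ S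
      rw [lev_lx_inv]
      exact hi v
  have h1 : n ∈ S.comap (lev y) := by rw [this]; trivial
  exact h1

theorem xv_mem_LS (v : V) : xv v ∈ LS V := Algebra.subset_adjoin (Or.inl ⟨v, rfl⟩)

theorem xv_inv_mem_LS (v : V) : (xv v)⁻¹ ∈ LS V := Algebra.subset_adjoin (Or.inr ⟨v, rfl⟩)

theorem lev_mem_LS (n : LL V) : lev (xu (V := V)) n ∈ LS V :=
  lev_mem _ _ (fun v => xv_mem_LS v) (fun v => by
    rw [Units.val_inv_eq_inv_val]; exact xv_inv_mem_LS v) n

theorem exists_lev_of_mem_LS {z : KK V} (hz : z ∈ LS V) : ∃ n : LL V, lev (xu (V := V)) n = z := by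
  have : LS V ≤ (lev (xu (V := V))).range := by
    unfold LS
    rw [Algebra.adjoin_le_iff]
    rintro z (⟨v, rfl⟩ | ⟨v, rfl⟩)
    · exact ⟨(lx v : LL V), lev_lx _ _⟩
    · refine ⟨(((lx v)⁻¹ : (LL V)ˣ) : LL V), ?_⟩
      change lev (xu (V := V)) (((lx v)⁻¹ : (LL V)ˣ) : LL V) = _
      rw [lev_lx_inv, Units.val_inv_eq_inv_val]
      rfl
  exact this hz

/-- substituting `u` for the variable `w₀` -/
noncomputable def sub1 [DecidableEq V] (w₀ : V) (u : (LL V)ˣ) : LL V →ₐ[ℚ] LL V :=
  lev (fun v => if v = w₀ then u else lx v)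

/-- the kernel of the substitution -/
theorem dvd_of_sub1_eq_zero [DecidableEq V] (w₀ : V) (u : (LL V)ˣ) (n : LL V)
    (h : sub1 w₀ u n = 0) : ((lx w₀ : LL V) - u) ∣ n := by
  set I : Ideal (LL V) := Ideal.span {((lx w₀ : LL V) - u)} with hI
  have e : (Ideal.Quotient.mkₐ ℚ I).comp (sub1 w₀ u) = Ideal.Quotient.mkₐ ℚ I := by
    apply hom_ext
    intro v
    rw [AlgHom.comp_apply]
    unfold sub1
    rw [lev_lx]
    by_cases hv : v = w₀
    · subst hv
      rw [if_pos rfl]
      change Ideal.Quotient.mk I _ = Ideal.Quotient.mk I _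
      rw [eq_comm, Ideal.Quotient.mk_eq_mk_iff_sub_mem]
      exact Ideal.subset_span rfl
    · rw [if_neg hv]
  have h1 : Ideal.Quotient.mk I n = 0 := by
    have := congrArg (fun f : LL V →ₐ[ℚ] LL V ⧸ I => f n) e
    change Ideal.Quotient.mk I (sub1 w₀ u n) = Ideal.Quotient.mk I n at this
    rw [h, map_zero] at this
    exact this.symm
  rw [Ideal.Quotient.eq_zero_iff_mem, hI, Ideal.mem_span_singleton] at h1
  exact h1

end Pool.Agent.H5.TSD
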