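import Pool.Agent.H5.TSD.Lau1

/-!
# The first three half-steps of the T-system with generic coefficients, as Laurent polynomials
-/

namespace Pool.Agent.H5.TSD

open Finset Pool.Agent.H15.TSys

variable {V : Type}

/-- the variable attached to a vertex -/
noncomputable def Xu (v : V) : (LL (V ⊕ V))ˣ := lx (Sum.inl v)

/-- the coefficient attached to a vertex -/
noncomputable def Yu (v : V) : (LL (V ⊕ V))ˣ := lx (Sum.inr v)

variable (G : Sys V)

/-- the exchange polynomial -/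
noncomputable def PP (v : V) : LL (V ⊕ V) :=
  ∏ u ∈ G.N v, (Xu u : LL (V ⊕ V)) + (Yu v : LL (V ⊕ V)) * ∏ u ∈ G.M v, (Xu u : LL (V ⊕ V))

/-- first half-step -/
noncomputable def A1 (v : V) : LL (V ⊕ V) := PP G v * (((Xu v)⁻¹ : (LL (V ⊕ V))ˣ) : LL (V ⊕ V))

/-- second half-step -/
noncomputable def A2 (w : V) : LL (V ⊕ V) :=
  (∏ u ∈ G.N w, A1 G u + (Yu w : LL (V ⊕ V)) * ∏ u ∈ G.M w, A1 G u) *
    (((Xu w)⁻¹ : (LL (V ⊕ V))ˣ) : LL (V ⊕ V))

/-- coefficient in the third half-step -/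
noncomputable def C1 (b : V) : LL (V ⊕ V) :=
  (∏ u ∈ G.N b, (Yu u : LL (V ⊕ V))) * (((Yu b)⁻¹ : (LL (V ⊕ V))ˣ) : LL (V ⊕ V))

/-- right-hand side of the third half-step -/
noncomputable def RR (b : V) : LL (V ⊕ V) :=
  ∏ u ∈ G.N b, A2 G u + C1 G b * ∏ u ∈ G.M b, A2 G u

theorem lev_inv {F : Type*} [CommRing F] [Algebra ℚ F] (f : LL (V ⊕ V) →ₐ[ℚ] F)
    (u : (LL (V ⊕ V))ˣ) (w : Fˣ) (h : f (u : LL (V ⊕ V)) = w) :
    f ((u⁻¹ : (LL (V ⊕ V))ˣ) : LL (V ⊕ V)) = ((w⁻¹ : Fˣ) : F) := by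
  have h1 : f ((u⁻¹ : (LL (V ⊕ V))ˣ) : LL (V ⊕ V)) * (w : F) = 1 := by
    rw [← h, ← map_mul, Units.inv_mul, map_one]
  exact (Units.inv_eq_of_mul_eq_one_left h1).symm

/-! ### the substitution -/

section
variable [DecidableEq V]

/-- the value of `y_b` at which the exchange polynomial vanishes -/
noncomputable def uu (b : V) : (LL (V ⊕ V))ˣ := -((∏ u ∈ G.N b, Xu u) * (∏ u ∈ G.M b, Xu u)⁻¹)

/-- the substitution modulo the exchange polynomial at `b` -/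
noncomputable def th (b : V) : LL (V ⊕ V) →ₐ[ℚ] LL (V ⊕ V) := sub1 (Sum.inr b) (uu G b)

theorem th_X (b v : V) : th G b (Xu v : LL (V ⊕ V)) = Xu v := by
  unfold th sub1 Xu
  rw [lev_lx, if_neg (by simp)]

theorem th_Xi (b v : V) : th G b (((Xu v)⁻¹ : (LL (V ⊕ V))ˣ) : LL (V ⊕ V)) =
    (((Xu v)⁻¹ : (LL (V ⊕ V))ˣ) : LL (V ⊕ V)) :=
  lev_inv _ _ _ (th_X G b v)

theorem th_Y {b v : V} (h : v ≠ b) : th G b (Yu v : LL (V ⊕ V)) = Yu v := by
  unfold th sub1 Yu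
  rw [lev_lx, if_neg (by simpa using h)]

theorem th_Yb (b : V) : th G b (Yu b : LL (V ⊕ V)) = uu G b := by
  unfold th sub1 Yu
  rw [lev_lx, if_pos rfl]

omit [DecidableEq V] in
theorem coe_prod_units {ι : Type*} {R : Type*} [CommRing R] (s : Finset ι) (f : ι → Rˣ) :
    ((∏ i ∈ s, f i : Rˣ) : R) = ∏ i ∈ s, (f i : R) :=
  map_prod (Units.coeHom R) _ _

omit [DecidableEq V] in
theorem uu_mul (b : V) : (uu G b : LL (V ⊕ V)) * ∏ u ∈ G.M b, (Xu u : LL (V ⊕ V)) =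
    -∏ u ∈ G.N b, (Xu u : LL (V ⊕ V)) := by
  rw [← coe_prod_units, ← coe_prod_units, ← Units.val_mul, ← Units.val_neg]
  congr 1
  unfold uu
  rw [neg_mul, inv_mul_cancel_right]

theorem th_PP_self (b : V) : th G b (PP G b) = 0 := by
  unfold PP
  rw [map_add, map_mul, map_prod, map_prod, th_Yb]
  simp only [th_X]
  rw [uu_mul]
  ring

theorem th_PP {b v : V} (h : v ≠ b) : th G b (PP G v) = PP G v := by
  unfold PP
  rw [map_add, map_mul, map_prod, map_prod, th_Y G h]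
  simp only [th_X]

theorem dvd_of_th {b : V} {n : LL (V ⊕ V)} (h : th G b n = 0) : PP G b ∣ n := by
  have h1 := dvd_of_sub1_eq_zero _ _ n h
  refine dvd_trans ?_ h1
  refine ⟨(((∏ u ∈ G.M b, Xu u)⁻¹ : (LL (V ⊕ V))ˣ) : LL (V ⊕ V)), ?_⟩
  have h2 : PP G b = (((lx (Sum.inr b : V ⊕ V) : (LL (V ⊕ V))ˣ) : LL (V ⊕ V)) - uu G b) *
      ((∏ u ∈ G.M b, Xu u : (LL (V ⊕ V))ˣ) : LL (V ⊕ V)) := by
    rw [coe_prod_units, sub_mul, uu_mul]
    unfold PP Yu
    ring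
  rw [h2, mul_assoc, Units.mul_inv, mul_one]

theorem th_dvd {b : V} {n : LL (V ⊕ V)} (h : PP G b ∣ n) : th G b n = 0 := by
  obtain ⟨m, rfl⟩ := h
  rw [map_mul, th_PP_self, zero_mul]

/-- the exchange polynomial is prime -/
theorem PP_prime {b : V} {x y : LL (V ⊕ V)} (h : PP G b ∣ x * y) : PP G b ∣ x ∨ PP G b ∣ y := by
  have h1 := th_dvd G h
  rw [map_mul] at h1
  rcases mul_eq_zero.mp h1 with h2 | h2
  · exact Or.inl (dvd_of_th G h2)
  · exact Or.inr (dvd_of_th G h2)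

theorem th_A1_self (b : V) : th G b (A1 G b) = 0 := by
  unfold A1
  rw [map_mul, th_dvd G dvd_rfl, zero_mul]

theorem th_A1 {b v : V} (h : v ≠ b) : th G b (A1 G v) = A1 G v := by
  unfold A1
  rw [map_mul, th_PP G h, th_Xi]

omit [DecidableEq V] in
theorem ne_of_mem_N {b w : V} (h : w ∈ G.N b) : w ≠ b := fun e => G.hN b w h (by rw [e])

omit [DecidableEq V] in
theorem ne_of_mem_M {b w : V} (h : w ∈ G.M b) : w ≠ b := fun e => G.hM b w h (by rw [e])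

theorem th_A2_N (hG : Good G) {b w : V} (h : w ∈ G.N b) : th G b (A2 G w) =
    (Yu w : LL (V ⊕ V)) * (∏ u ∈ G.M w, A1 G u) *
      (((Xu w)⁻¹ : (LL (V ⊕ V))ˣ) : LL (V ⊕ V)) := by
  unfold A2
  rw [map_mul, map_add, map_mul, map_prod, map_prod, th_Y G (ne_of_mem_N G h), th_Xi,
    Finset.prod_eq_zero (hG.symmN w b h) (th_A1_self G b), zero_add]
  congr 2
  refine Finset.prod_congr rfl fun u hu => th_A1 G fun e => ?_
  exact Finset.disjoint_left.mp (hG.disj w) (hG.symmN w b h) (e ▸ hu)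

theorem th_A2_M (hG : Good G) {b w : V} (h : w ∈ G.M b) : th G b (A2 G w) =
    (∏ u ∈ G.N w, A1 G u) * (((Xu w)⁻¹ : (LL (V ⊕ V))ˣ) : LL (V ⊕ V)) := by
  unfold A2
  rw [map_mul, map_add, map_mul, map_prod, map_prod, th_Xi,
    Finset.prod_eq_zero (hG.symmM w b h) (th_A1_self G b), mul_zero, add_zero]
  congr 1
  refine Finset.prod_congr rfl fun u hu => th_A1 G fun e => ?_
  exact Finset.disjoint_left.mp (hG.disj w) (e ▸ hu) (hG.symmM w b h)

theorem prod_comm_of [Fintype V] (hG : Good G) {R : Type*} [CommRing R] (f : V → R) (b : V) :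
    ∏ w ∈ G.N b, ∏ v ∈ G.M w, f v = ∏ w ∈ G.M b, ∏ v ∈ G.N w, f v := by
  have h1 : ∀ (S : Finset V) (Q : V → Finset V), ∏ w ∈ S, ∏ v ∈ Q w, f v =
      ∏ v : V, f v ^ (S.filter (fun w => v ∈ Q w)).card := by
    intro S Q
    have e : ∀ w ∈ S, ∏ v ∈ Q w, f v = ∏ v : V, if v ∈ Q w then f v else 1 := by
      intro w _
      rw [Finset.prod_ite_mem, Finset.univ_inter]
    rw [Finset.prod_congr rfl e, Finset.prod_comm]
    refine Finset.prod_congr rfl fun v _ => ?_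
    rw [← Finset.prod_filter, Finset.prod_const]
  rw [h1, h1]
  exact Finset.prod_congr rfl fun v _ => by rw [hG.comm b v]

theorem th_RR [Fintype V] (hG : Good G) (b : V) : th G b (RR G b) = 0 := by
  unfold RR C1
  rw [map_add, map_mul, map_mul, map_prod, map_prod, map_prod, lev_inv _ _ _ (th_Yb G b),
    Finset.prod_congr rfl (fun w hw => th_A2_N G hG hw),
    Finset.prod_congr rfl (fun w hw => th_A2_M G hG hw),
    Finset.prod_congr rfl (fun w hw => th_Y G (ne_of_mem_N G hw)),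
    Finset.prod_mul_distrib, Finset.prod_mul_distrib, Finset.prod_mul_distrib,
    prod_comm_of G hG (A1 G) b]
  have h1 : ∏ w ∈ G.N b, (((Xu w)⁻¹ : (LL (V ⊕ V))ˣ) : LL (V ⊕ V)) +
      (((uu G b)⁻¹ : (LL (V ⊕ V))ˣ) : LL (V ⊕ V)) *
        ∏ w ∈ G.M b, (((Xu w)⁻¹ : (LL (V ⊕ V))ˣ) : LL (V ⊕ V)) = 0 := by
    rw [← coe_prod_units, ← coe_prod_units, ← Units.val_mul]
    have h2 : (uu G b)⁻¹ * ∏ w ∈ G.M b, (Xu w)⁻¹ = -∏ w ∈ G.N b, (Xu w)⁻¹ := by
      unfold uu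
      rw [Finset.prod_inv_distrib, Finset.prod_inv_distrib, inv_neg, mul_inv_rev, inv_inv, neg_mul,
        mul_right_comm, mul_inv_cancel, one_mul]
    rw [h2, Units.val_neg, add_neg_cancel]
  linear_combination (∏ w ∈ G.N b, (Yu w : LL (V ⊕ V))) * (∏ w ∈ G.M b, ∏ u ∈ G.N w, A1 G u) * h1

/-- the third half-step is possible -/
theorem exists_A3 [Fintype V] (hG : Good G) (b : V) :
    ∃ a : LL (V ⊕ V), a * A1 G b = RR G b := by
  obtain ⟨c, hc⟩ := dvd_of_th G (th_RR G hG b)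
  refine ⟨c * (Xu b : LL (V ⊕ V)), ?_⟩
  rw [hc]
  unfold A1
  have := Units.mul_inv (Xu b : (LL (V ⊕ V))ˣ)
  linear_combination c * PP G b * this

/-! ### the test point -/

/-- all variables `1` except `y_b = -1` -/
noncomputable def ev (b : V) : LL (V ⊕ V) →ₐ[ℚ] ℚ :=
  lev (fun i => if i = Sum.inr b then -1 else 1)

theorem ev_X (b v : V) : ev b (Xu v : LL (V ⊕ V)) = 1 := by
  unfold ev Xu
  rw [lev_lx, if_neg (by simp)]
  rfl

theorem ev_Xi (b v : V) : ev b (((Xu v)⁻¹ : (LL (V ⊕ V))ˣ) : LL (V ⊕ V)) = 1 := by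
  have := lev_inv (ev b) (Xu v) 1 (by rw [ev_X]; rfl)
  rw [this]; simp

theorem ev_Y {b v : V} (h : v ≠ b) : ev b (Yu v : LL (V ⊕ V)) = 1 := by
  unfold ev Yu
  rw [lev_lx, if_neg (by simpa using h)]
  rfl

theorem ev_Yi {b v : V} (h : v ≠ b) :
    ev b (((Yu v)⁻¹ : (LL (V ⊕ V))ˣ) : LL (V ⊕ V)) = 1 := by
  have := lev_inv (ev b) (Yu v) 1 (by rw [ev_Y h]; rfl)
  rw [this]; simp

theorem ev_Yb (b : V) : ev b (Yu b : LL (V ⊕ V)) = -1 := by
  unfold ev Yu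
  rw [lev_lx, if_pos rfl]
  rfl

theorem ev_PP_self (b : V) : ev b (PP G b) = 0 := by
  unfold PP
  rw [map_add, map_mul, map_prod, map_prod, ev_Yb]
  simp only [ev_X, Finset.prod_const_one]
  norm_num

theorem ev_PP {b v : V} (h : v ≠ b) : ev b (PP G v) = 2 := by
  unfold PP
  rw [map_add, map_mul, map_prod, map_prod, ev_Y h]
  simp only [ev_X, Finset.prod_const_one]
  norm_num

theorem ev_A1_self (b : V) : ev b (A1 G b) = 0 := by
  unfold A1
  rw [map_mul, ev_PP_self, zero_mul]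

theorem ev_A1 {b v : V} (h : v ≠ b) : ev b (A1 G v) = 2 := by
  unfold A1
  rw [map_mul, ev_PP G h, ev_Xi, mul_one]

theorem ev_A1_nonneg (b v : V) : 0 ≤ ev b (A1 G v) := by
  by_cases h : v = b
  · rw [h, ev_A1_self]
  · rw [ev_A1 G h]; norm_num

theorem ev_A2 (hG : Good G) {b w : V} (h : w ≠ b) : 0 < ev b (A2 G w) := by
  unfold A2
  rw [map_mul, map_add, map_mul, map_prod, map_prod, ev_Xi, mul_one, ev_Y h, one_mul]
  have h1 : 0 ≤ ∏ u ∈ G.N w, ev b (A1 G u) := Finset.prod_nonneg fun u _ => ev_A1_nonneg G b u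
  have h2 : 0 ≤ ∏ u ∈ G.M w, ev b (A1 G u) := Finset.prod_nonneg fun u _ => ev_A1_nonneg G b u
  by_cases hb : b ∈ G.N w
  · have h3 : 0 < ∏ u ∈ G.M w, ev b (A1 G u) := by
      refine Finset.prod_pos fun u hu => ?_
      have hub : u ≠ b := fun e => Finset.disjoint_left.mp (hG.disj w) hb (e ▸ hu)
      rw [ev_A1 G hub]
      norm_num
    linarith
  · have h3 : 0 < ∏ u ∈ G.N w, ev b (A1 G u) := by
      refine Finset.prod_pos fun u hu => ?_
      have hub : u ≠ b := fun e => hb (e ▸ hu)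
      rw [ev_A1 G hub]
      norm_num
    linarith

theorem ev_C1 {b b' : V} (h : b' ≠ b) (hb : b ∉ G.N b') : ev b (C1 G b') = 1 := by
  unfold C1
  rw [map_mul, map_prod, ev_Yi h, mul_one]
  exact Finset.prod_eq_one fun u hu => ev_Y fun e => hb (e ▸ hu)

theorem ev_RR (hG : Good G) {b b' : V} (h : b' ≠ b) (hN : b ∉ G.N b') (hM : b ∉ G.M b') :
    0 < ev b (RR G b') := by
  unfold RR
  rw [map_add, map_mul, map_prod, map_prod, ev_C1 G h hN, one_mul]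
  have h1 : 0 < ∏ u ∈ G.N b', ev b (A2 G u) :=
    Finset.prod_pos fun u hu => ev_A2 G hG fun e => hN (e ▸ hu)
  have h2 : 0 < ∏ u ∈ G.M b', ev b (A2 G u) :=
    Finset.prod_pos fun u hu => ev_A2 G hG fun e => hM (e ▸ hu)
  linarith

theorem not_dvd_of_ev {b : V} {n : LL (V ⊕ V)} (h : ev b n ≠ 0) : ¬ PP G b ∣ n := by
  rintro ⟨m, rfl⟩
  rw [map_mul, ev_PP_self, zero_mul] at h
  exact h rfl

/-! ### the vertex itself -/

/-- doubling `y_w` -/
noncomputable def ta (w : V) : LL (V ⊕ V) →ₐ[ℚ] LL (V ⊕ V) :=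
  lev (fun i => if i = Sum.inr w then
    Units.map (algebraMap ℚ (LL (V ⊕ V))).toMonoidHom (Units.mk0 (2 : ℚ) two_ne_zero) *
      lx (Sum.inr w) else lx i)

theorem ta_X (w v : V) : ta w (Xu v : LL (V ⊕ V)) = Xu v := by
  unfold ta Xu
  rw [lev_lx, if_neg (by simp)]

theorem ta_Xi (w v : V) : ta w (((Xu v)⁻¹ : (LL (V ⊕ V))ˣ) : LL (V ⊕ V)) =
    (((Xu v)⁻¹ : (LL (V ⊕ V))ˣ) : LL (V ⊕ V)) :=
  lev_inv _ _ _ (ta_X w v)

theorem ta_Y {w v : V} (h : v ≠ w) : ta w (Yu v : LL (V ⊕ V)) = Yu v := by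
  unfold ta Yu
  rw [lev_lx, if_neg (by simpa using h)]

theorem ta_Yi {w v : V} (h : v ≠ w) : ta w (((Yu v)⁻¹ : (LL (V ⊕ V))ˣ) : LL (V ⊕ V)) =
    (((Yu v)⁻¹ : (LL (V ⊕ V))ˣ) : LL (V ⊕ V)) :=
  lev_inv _ _ _ (ta_Y h)

theorem ta_Yw (w : V) : ta w (Yu w : LL (V ⊕ V)) = 2 * Yu w := by
  unfold ta Yu
  rw [lev_lx, if_pos rfl, Units.val_mul]
  congr 1

theorem ta_PP {w v : V} (h : v ≠ w) : ta w (PP G v) = PP G v := by
  unfold PP
  rw [map_add, map_mul, map_prod, map_prod, ta_Y h]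
  simp only [ta_X]

theorem ta_A1 {w v : V} (h : v ≠ w) : ta w (A1 G v) = A1 G v := by
  unfold A1
  rw [map_mul, ta_PP G h, ta_Xi]

theorem ta_A2 {w v : V} (h : v ≠ w) (hN : w ∉ G.N v) (hM : w ∉ G.M v) :
    ta w (A2 G v) = A2 G v := by
  have h1 : ∏ u ∈ G.N v, ta w (A1 G u) = ∏ u ∈ G.N v, A1 G u := by
    refine Finset.prod_congr rfl fun u hu => ta_A1 G ?_
    intro e
    exact hN (e ▸ hu)
  have h2 : ∏ u ∈ G.M v, ta w (A1 G u) = ∏ u ∈ G.M v, A1 G u := by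
    refine Finset.prod_congr rfl fun u hu => ta_A1 G ?_
    intro e
    exact hM (e ▸ hu)
  unfold A2
  rw [map_mul, map_add, map_mul, map_prod, map_prod, ta_Y h, ta_Xi, h1, h2]

theorem ta_A2_self (w : V) : ta w (A2 G w) =
    (∏ u ∈ G.N w, A1 G u + 2 * (Yu w : LL (V ⊕ V)) * ∏ u ∈ G.M w, A1 G u) *
      (((Xu w)⁻¹ : (LL (V ⊕ V))ˣ) : LL (V ⊕ V)) := by
  unfold A2
  rw [map_mul, map_add, map_mul, map_prod, map_prod, ta_Yw, ta_Xi,
    Finset.prod_congr rfl (fun u hu => ta_A1 G fun e => G.hN w u hu (by rw [e])),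
    Finset.prod_congr rfl (fun u hu => ta_A1 G fun e => G.hM w u hu (by rw [e]))]

theorem A1_ne (b : V) (hne : ∃ c : V, c ≠ b) : A1 G b ≠ 0 := by
  obtain ⟨c, hc⟩ := hne
  intro h
  have := ev_A1 G (b := c) (v := b) hc.symm
  rw [h, map_zero] at this
  norm_num at this

theorem not_dvd_A3 (hG : Good G) {b w : V} (hw : w ∈ G.N b) {a : LL (V ⊕ V)}
    (ha : a * A1 G b = RR G b) : ¬ PP G b ∣ a := by
  intro hdvd
  have hwb : w ≠ b := ne_of_mem_N G hw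
  have hbw : b ∈ G.N w := hG.symmN w b hw
  have eN : ∀ u ∈ G.N b, w ∉ G.N u := fun u hu h => by
    have h1 := G.εN h
    have h2 := G.εN hu
    have h3 := G.εN hw
    rcases G.hε b with h4 | h4 <;> omega
  have eM : ∀ u ∈ G.N b, w ∉ G.M u := fun u hu h => by
    have h1 := G.εM h
    have h2 := G.εN hu
    have h3 := G.εN hw
    rcases G.hε b with h4 | h4 <;> omega
  have eN' : ∀ u ∈ G.M b, w ∉ G.N u := fun u hu h => by
    have h1 := G.εN h
    have h2 := G.εM hu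
    have h3 := G.εN hw
    rcases G.hε b with h4 | h4 <;> omega
  have eM' : ∀ u ∈ G.M b, w ∉ G.M u := fun u hu h => by
    have h1 := G.εM h
    have h2 := G.εM hu
    have h3 := G.εN hw
    rcases G.hε b with h4 | h4 <;> omega
  -- the part of `RR` without `y_w`
  have hC : ta w (C1 G b) = 2 * C1 G b := by
    unfold C1
    rw [map_mul, map_prod, ta_Yi hwb.symm, ← Finset.mul_prod_erase _ _ hw, ta_Yw,
      Finset.prod_congr rfl (fun u hu => ta_Y (Finset.ne_of_mem_erase hu)),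
      ← Finset.mul_prod_erase _ (fun u => (Yu u : LL (V ⊕ V))) hw]
    ring
  have hR : ta w (RR G b) = ta w (A2 G w) * ∏ u ∈ (G.N b).erase w, A2 G u +
      2 * C1 G b * ∏ u ∈ G.M b, A2 G u := by
    have h1 : ∏ u ∈ (G.N b).erase w, ta w (A2 G u) = ∏ u ∈ (G.N b).erase w, A2 G u :=
      Finset.prod_congr rfl fun u hu => ta_A2 G (Finset.ne_of_mem_erase hu)
        (eN u (Finset.mem_of_mem_erase hu)) (eM u (Finset.mem_of_mem_erase hu))
    have h2 : ∏ u ∈ G.M b, ta w (A2 G u) = ∏ u ∈ G.M b, A2 G u := by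
      refine Finset.prod_congr rfl fun u hu => ta_A2 G ?_ (eN' u hu) (eM' u hu)
      intro e
      exact Finset.disjoint_left.mp (hG.disj b) hw (e ▸ hu)
    unfold RR
    rw [map_add, map_mul, map_prod, map_prod, hC, ← Finset.mul_prod_erase _ _ hw, h1, h2]
  have hR2 : RR G b = A2 G w * ∏ u ∈ (G.N b).erase w, A2 G u +
      C1 G b * ∏ u ∈ G.M b, A2 G u := by
    unfold RR
    rw [← Finset.mul_prod_erase _ (fun u => A2 G u) hw]
  have h2 : 2 * A2 G w - ta w (A2 G w) =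
      (∏ u ∈ G.N w, A1 G u) * (((Xu w)⁻¹ : (LL (V ⊕ V))ˣ) : LL (V ⊕ V)) := by
    rw [ta_A2_self]
    unfold A2
    ring
  have hta : ta w a * A1 G b = ta w (RR G b) := by
    rw [← ha, map_mul, ta_A1 G hwb.symm]
  have key : (2 * a - ta w a) * A1 G b = ((∏ u ∈ (G.N w).erase b, A1 G u) *
      (((Xu w)⁻¹ : (LL (V ⊕ V))ˣ) : LL (V ⊕ V)) * ∏ u ∈ (G.N b).erase w, A2 G u) * A1 G b := by
    rw [← Finset.mul_prod_erase _ (fun u => A1 G u) hbw] at h2
    have e1 : (2 * a - ta w a) * A1 G b = 2 * RR G b - ta w (RR G b) := by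
      rw [← hta, ← ha]; ring
    rw [e1, hR, hR2]
    linear_combination (∏ u ∈ (G.N b).erase w, A2 G u) * h2
  have key2 := mul_right_cancel₀ (A1_ne G b ⟨w, hwb⟩) key
  have h3 : PP G b ∣ ta w a := by
    obtain ⟨m, rfl⟩ := hdvd
    rw [map_mul, ta_PP G hwb.symm]
    exact dvd_mul_right _ _
  have h4 : PP G b ∣ 2 * a - ta w a := dvd_sub (hdvd.mul_left 2) h3
  rw [key2] at h4
  refine not_dvd_of_ev G ?_ h4
  rw [map_mul, map_mul, map_prod, map_prod, ev_Xi, mul_one]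
  refine mul_ne_zero (Finset.prod_ne_zero_iff.mpr fun u hu => ?_)
    (Finset.prod_ne_zero_iff.mpr fun u hu => ?_)
  · rw [ev_A1 G (Finset.ne_of_mem_erase hu)]
    norm_num
  · exact (ev_A2 G hG (ne_of_mem_N G (Finset.mem_of_mem_erase hu))).ne'

end

end Pool.Agent.H5.TSD
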