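import Pool.Agent.H5.TSD.Lau2

/-!
# The Laurent phenomenon for the T-system
-/

namespace Pool.Agent.H5.TSD

open Finset Pool.Agent.H15.TSys

variable {V : Type} (G : Sys V)

section Orbit
variable {F : Type*} [Field F]

/-- one half-step of the T-system with coefficients -/
noncomputable def stp (s : ℤ) (z : V ⊕ V → F) : V ⊕ V → F
  | .inl v => if Even (s + G.ε v) then
      (∏ u ∈ G.N v, z (.inl u) + z (.inr v) * ∏ u ∈ G.M v, z (.inl u)) / z (.inl v) else z (.inl v)
  | .inr v => if Even (s + G.ε v) then (∏ u ∈ G.N v, z (.inr u)) / z (.inr v) else z (.inr v)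

/-- the orbit -/
noncomputable def orb (s : ℤ) (z : V ⊕ V → F) : ℕ → V ⊕ V → F
  | 0 => z
  | n + 1 => stp G (s + n) (orb s z n)

theorem orb_add (s : ℤ) (z : V ⊕ V → F) (m n : ℕ) :
    orb G s z (m + n) = orb G (s + m) (orb G s z m) n := by
  induction n with
  | zero => rfl
  | succ n ih =>
    change stp G (s + ((m + n : ℕ) : ℤ)) (orb G s z (m + n)) = stp G (s + m + n) _
    rw [ih]
    congr 1
    push_cast
    ring

theorem stp_inl_pos {s : ℤ} {v : V} (h : Even (s + G.ε v)) (z : V ⊕ V → F) :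
    stp G s z (.inl v) = (∏ u ∈ G.N v, z (.inl u) + z (.inr v) * ∏ u ∈ G.M v, z (.inl u)) /
      z (.inl v) := by
  change (if _ then _ else _) = _
  rw [if_pos h]

theorem stp_inl_neg {s : ℤ} {v : V} (h : ¬ Even (s + G.ε v)) (z : V ⊕ V → F) :
    stp G s z (.inl v) = z (.inl v) := by
  change (if _ then _ else _) = _
  rw [if_neg h]

theorem stp_inr_pos {s : ℤ} {v : V} (h : Even (s + G.ε v)) (z : V ⊕ V → F) :
    stp G s z (.inr v) = (∏ u ∈ G.N v, z (.inr u)) / z (.inr v) := by
  change (if _ then _ else _) = _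
  rw [if_pos h]

theorem stp_inr_neg {s : ℤ} {v : V} (h : ¬ Even (s + G.ε v)) (z : V ⊕ V → F) :
    stp G s z (.inr v) = z (.inr v) := by
  change (if _ then _ else _) = _
  rw [if_neg h]

theorem stp_mem (P : Cone F) (s : ℤ) (z : V ⊕ V → F) (h : ∀ i, z i ∈ P.S) (i : V ⊕ V) :
    stp G s z i ∈ P.S := by
  rcases i with v | v
  · by_cases hv : Even (s + G.ε v)
    · rw [stp_inl_pos G hv]
      exact P.div (P.add (P.prod _ _ fun u _ => h _) (P.mul (h _) (P.prod _ _ fun u _ => h _)))
        (h _)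
    · rw [stp_inl_neg G hv]
      exact h _
  · by_cases hv : Even (s + G.ε v)
    · rw [stp_inr_pos G hv]
      exact P.div (P.prod _ _ fun u _ => h _) (h _)
    · rw [stp_inr_neg G hv]
      exact h _

theorem orb_mem (P : Cone F) (s : ℤ) (z : V ⊕ V → F) (h : ∀ i, z i ∈ P.S) (n : ℕ) (i : V ⊕ V) :
    orb G s z n i ∈ P.S := by
  induction n generalizing i with
  | zero => exact h i
  | succ n ih => exact stp_mem G P _ _ ih i

end Orbit

/-- the universal orbit -/
noncomputable def Zu (s : ℤ) (n : ℕ) : V ⊕ V → KK (V ⊕ V) := orb G s xv n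

theorem Zu_pos (s : ℤ) (n : ℕ) (i : V ⊕ V) : Zu G s n i ∈ (posCone (V ⊕ V)).S :=
  orb_mem G _ s xv (fun i => xv_mem i) n i

theorem Zu_ne (s : ℤ) (n : ℕ) (i : V ⊕ V) : Zu G s n i ≠ 0 := (posCone _).ne (Zu_pos G s n i)

/-- the coefficients are Laurent monomials -/
theorem exists_unit (s : ℤ) (n : ℕ) (v : V) :
    ∃ u : (LL (V ⊕ V))ˣ, lev (xu (V := V ⊕ V)) (u : LL (V ⊕ V)) = Zu G s n (.inr v) := by
  induction n generalizing v with
  | zero => exact ⟨lx (.inr v), lev_lx _ _⟩
  | succ n ih =>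
    by_cases h : Even (s + n + G.ε v)
    · choose u hu using ih
      refine ⟨(∏ w ∈ G.N v, u w) * (u v)⁻¹, ?_⟩
      change _ = stp G (s + n) (Zu G s n) (.inr v)
      rw [stp_inr_pos G h, eq_div_iff (Zu_ne G s n _), ← hu v, ← map_mul, ← Units.val_mul,
        inv_mul_cancel_right, coe_prod_units, map_prod]
      exact Finset.prod_congr rfl fun w _ => hu w
    · obtain ⟨u, hu⟩ := ih v
      refine ⟨u, ?_⟩
      change _ = stp G (s + n) (Zu G s n) (.inr v)
      rw [stp_inr_neg G h]
      exact hu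

/-- Laurentness of the universal orbit up to `n` transports to every orbit without zeros -/
theorem transport (s : ℤ) (n : ℕ)
    (hL : ∀ k < n, ∀ i, ∃ p : LL (V ⊕ V), lev (xu (V := V ⊕ V)) p = Zu G s k i)
    {F : Type*} [Field F] [Algebra ℚ F] (z : V ⊕ V → Fˣ)
    (h0 : ∀ k, ∀ i, orb G s (fun i => (z i : F)) k i ≠ 0) (k : ℕ) (hk : k ≤ n) (i : V ⊕ V)
    (p : LL (V ⊕ V)) (hp : lev (xu (V := V ⊕ V)) p = Zu G s k i) :
    lev z p = orb G s (fun i => (z i : F)) k i := by
  induction k generalizing i p with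
  | zero =>
    have : p = (lx i : LL (V ⊕ V)) := by
      apply lev_inj
      rw [hp, lev_lx]
      rfl
    rw [this, lev_lx]
    rfl
  | succ k ih =>
    choose q hq using hL k (by omega)
    have hq2 : ∀ i, lev z (q i) = orb G s (fun i => (z i : F)) k i := fun i =>
      ih (by omega) i (q i) (hq i)
    rcases i with v | v
    · by_cases h : Even (s + k + G.ε v)
      · have e1 : p * q (.inl v) = ∏ u ∈ G.N v, q (.inl u) + q (.inr v) *
            ∏ u ∈ G.M v, q (.inl u) := by
          apply lev_inj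
          rw [map_mul, map_add, map_mul, map_prod, map_prod, hp]
          simp only [hq]
          change stp G (s + k) (Zu G s k) (.inl v) * _ = _
          rw [stp_inl_pos G h, div_mul_cancel₀ _ (Zu_ne G s k _)]
        have e2 := congrArg (lev z) e1
        rw [map_mul, map_add, map_mul, map_prod, map_prod] at e2
        simp only [hq2] at e2
        change _ = stp G (s + k) _ (.inl v)
        rw [stp_inl_pos G h, eq_div_iff (h0 k _)]
        exact e2
      · change lev _ p = stp G (s + k) (Zu G s k) (.inl v) at hp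
        rw [stp_inl_neg G h] at hp
        change _ = stp G (s + k) _ (.inl v)
        rw [stp_inl_neg G h]
        exact ih (by omega) _ _ hp
    · by_cases h : Even (s + k + G.ε v)
      · have e1 : p * q (.inr v) = ∏ u ∈ G.N v, q (.inr u) := by
          apply lev_inj
          rw [map_mul, map_prod, hp]
          simp only [hq]
          change stp G (s + k) (Zu G s k) (.inr v) * _ = _
          rw [stp_inr_pos G h, div_mul_cancel₀ _ (Zu_ne G s k _)]
        have e2 := congrArg (lev z) e1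
        rw [map_mul, map_prod] at e2
        simp only [hq2] at e2
        change _ = stp G (s + k) _ (.inr v)
        rw [stp_inr_pos G h, eq_div_iff (h0 k _)]
        exact e2
      · change lev _ p = stp G (s + k) (Zu G s k) (.inr v) at hp
        rw [stp_inr_neg G h] at hp
        change _ = stp G (s + k) _ (.inr v)
        rw [stp_inr_neg G h]
        exact ih (by omega) _ _ hp

/-! ### parity -/

theorem act_N {s : ℤ} {u v : V} (h : u ∈ G.N v) : Even (s + G.ε u) ↔ ¬ Even (s + G.ε v) := by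
  rw [G.εN h, show s + (1 - G.ε v) = (s + G.ε v) + (1 - 2 * G.ε v) by ring, Int.even_add]
  have : ¬ Even (1 - 2 * G.ε v) := by
    rintro ⟨r, hr⟩
    omega
  simp [this]

theorem act_M {s : ℤ} {u v : V} (h : u ∈ G.M v) : Even (s + G.ε u) ↔ ¬ Even (s + G.ε v) := by
  rw [G.εM h, show s + (1 - G.ε v) = (s + G.ε v) + (1 - 2 * G.ε v) by ring, Int.even_add]
  have : ¬ Even (1 - 2 * G.ε v) := by
    rintro ⟨r, hr⟩
    omega
  simp [this]

theorem act_succ (s : ℤ) (v : V) : Even (s + 1 + G.ε v) ↔ ¬ Even (s + G.ε v) := by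
  rw [show s + 1 + G.ε v = (s + G.ε v) + 1 by ring, Int.even_add_one]

theorem act_two (s : ℤ) (v : V) : Even (s + 2 + G.ε v) ↔ Even (s + G.ε v) := by
  rw [show s + 2 + G.ε v = (s + G.ε v) + 2 by ring, Int.even_add]
  simp

/-! ### the first three half-steps -/

theorem Zu1_inl {s : ℤ} {v : V} (h : Even (s + G.ε v)) :
    Zu G s 1 (.inl v) = lev (xu (V := V ⊕ V)) (A1 G v) := by
  have h' : Even (s + ((0 : ℕ) : ℤ) + G.ε v) := by simpa using h
  change stp G (s + ((0 : ℕ) : ℤ)) (Zu G s 0) (.inl v) = _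
  rw [stp_inl_pos G h']
  unfold A1 PP Xu Yu
  rw [map_mul, map_add, map_mul, map_prod, map_prod, lev_lx_inv, lev_lx, Units.val_inv_eq_inv_val,
    div_eq_mul_inv]
  simp only [lev_lx]
  rfl

theorem Zu1_inl_neg {s : ℤ} {v : V} (h : ¬ Even (s + G.ε v)) :
    Zu G s 1 (.inl v) = lev (xu (V := V ⊕ V)) (Xu v : LL (V ⊕ V)) := by
  have h' : ¬ Even (s + ((0 : ℕ) : ℤ) + G.ε v) := by simpa using h
  change stp G (s + ((0 : ℕ) : ℤ)) (Zu G s 0) (.inl v) = _
  rw [stp_inl_neg G h']
  unfold Xu
  rw [lev_lx]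
  rfl

theorem Zu1_inr {s : ℤ} {v : V} (h : Even (s + G.ε v)) :
    Zu G s 1 (.inr v) = lev (xu (V := V ⊕ V)) (C1 G v) := by
  have h' : Even (s + ((0 : ℕ) : ℤ) + G.ε v) := by simpa using h
  change stp G (s + ((0 : ℕ) : ℤ)) (Zu G s 0) (.inr v) = _
  rw [stp_inr_pos G h']
  unfold C1 Yu
  rw [map_mul, map_prod, lev_lx_inv, Units.val_inv_eq_inv_val, div_eq_mul_inv]
  simp only [lev_lx]
  rfl

theorem Zu1_inr_neg {s : ℤ} {v : V} (h : ¬ Even (s + G.ε v)) :
    Zu G s 1 (.inr v) = lev (xu (V := V ⊕ V)) (Yu v : LL (V ⊕ V)) := by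
  have h' : ¬ Even (s + ((0 : ℕ) : ℤ) + G.ε v) := by simpa using h
  change stp G (s + ((0 : ℕ) : ℤ)) (Zu G s 0) (.inr v) = _
  rw [stp_inr_neg G h']
  unfold Yu
  rw [lev_lx]
  rfl

theorem Zu2_inl {s : ℤ} {v : V} (h : ¬ Even (s + G.ε v)) :
    Zu G s 2 (.inl v) = lev (xu (V := V ⊕ V)) (A2 G v) := by
  have h' : Even (s + ((1 : ℕ) : ℤ) + G.ε v) := by
    push_cast
    rw [act_succ]
    exact h
  change stp G (s + ((1 : ℕ) : ℤ)) (Zu G s 1) (.inl v) = _
  rw [stp_inl_pos G h', Zu1_inl_neg G h, Zu1_inr_neg G h,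
    Finset.prod_congr rfl (fun u hu => Zu1_inl G ((act_N G hu).mpr h)),
    Finset.prod_congr rfl (fun u hu => Zu1_inl G ((act_M G hu).mpr h))]
  unfold A2 Xu
  rw [map_mul, map_add, map_mul, map_prod, map_prod, lev_lx_inv, lev_lx, Units.val_inv_eq_inv_val,
    div_eq_mul_inv]

theorem Zu2_inl_act {s : ℤ} {v : V} (h : Even (s + G.ε v)) :
    Zu G s 2 (.inl v) = lev (xu (V := V ⊕ V)) (A1 G v) := by
  have h' : ¬ Even (s + ((1 : ℕ) : ℤ) + G.ε v) := by
    push_cast
    rw [act_succ]
    exact not_not.mpr h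
  change stp G (s + ((1 : ℕ) : ℤ)) (Zu G s 1) (.inl v) = _
  rw [stp_inl_neg G h', Zu1_inl G h]

theorem Zu2_inr_act {s : ℤ} {v : V} (h : Even (s + G.ε v)) :
    Zu G s 2 (.inr v) = lev (xu (V := V ⊕ V)) (C1 G v) := by
  have h' : ¬ Even (s + ((1 : ℕ) : ℤ) + G.ε v) := by
    push_cast
    rw [act_succ]
    exact not_not.mpr h
  change stp G (s + ((1 : ℕ) : ℤ)) (Zu G s 1) (.inr v) = _
  rw [stp_inr_neg G h', Zu1_inr G h]

theorem Zu3_inl_neg {s : ℤ} {v : V} (h : ¬ Even (s + G.ε v)) :
    Zu G s 3 (.inl v) = lev (xu (V := V ⊕ V)) (A2 G v) := by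
  have h' : ¬ Even (s + ((2 : ℕ) : ℤ) + G.ε v) := by
    push_cast
    rw [act_two]
    exact h
  change stp G (s + ((2 : ℕ) : ℤ)) (Zu G s 2) (.inl v) = _
  rw [stp_inl_neg G h', Zu2_inl G h]

theorem Zu3_inl {s : ℤ} {v : V} (h : Even (s + G.ε v)) {a : LL (V ⊕ V)}
    (ha : a * A1 G v = RR G v) :
    Zu G s 3 (.inl v) = lev (xu (V := V ⊕ V)) a := by
  have h' : Even (s + ((2 : ℕ) : ℤ) + G.ε v) := by
    push_cast
    rw [act_two]
    exact h
  have hne : Zu G s 2 (.inl v) ≠ 0 := Zu_ne _ _ _ _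
  change stp G (s + ((2 : ℕ) : ℤ)) (Zu G s 2) (.inl v) = _
  rw [stp_inl_pos G h', div_eq_iff hne, Zu2_inl_act G h, Zu2_inr_act G h,
    Finset.prod_congr rfl (fun u hu => Zu2_inl G fun h3 => (act_N G hu).mp h3 h),
    Finset.prod_congr rfl (fun u hu => Zu2_inl G fun h3 => (act_M G hu).mp h3 h), ← map_mul, ha]
  unfold RR
  rw [map_add, map_mul, map_prod, map_prod]

/-! ### descent -/

/-- elements whose divisibility can be cancelled in the presence of a denominator prime to them -/
structure GoodD {W : Type} (Q d : KK W) : Prop where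
  mem : d ∈ LS W
  desc : ∀ z, z * d ∈ LS W → (∃ k : ℕ, z * Q ^ k ∈ LS W) → z ∈ LS W

theorem GoodD.one {W : Type} (Q : KK W) : GoodD Q 1 where
  mem := Subalgebra.one_mem _
  desc := fun z h _ => by simpa using h

theorem GoodD.mul {W : Type} {Q d e : KK W} (hd : GoodD Q d) (he : GoodD Q e) :
    GoodD Q (d * e) where
  mem := Subalgebra.mul_mem _ hd.mem he.mem
  desc := fun z h hk => by
    obtain ⟨k, hk⟩ := hk
    refine hd.desc z (he.desc (z * d) (by rw [mul_assoc]; exact h) ⟨k, ?_⟩) ⟨k, hk⟩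
    rw [mul_right_comm]
    exact Subalgebra.mul_mem _ hk hd.mem

theorem GoodD.prod {W ι : Type} {Q : KK W} (s : Finset ι) (f : ι → KK W)
    (h : ∀ i ∈ s, GoodD Q (f i)) : GoodD Q (∏ i ∈ s, f i) := by
  classical
  induction s using Finset.induction_on with
  | empty => simpa using GoodD.one Q
  | insert a s ha ih =>
    rw [Finset.prod_insert ha]
    exact (h a (by simp)).mul (ih fun i hi => h i (by simp [hi]))

theorem GoodD.pow {W : Type} {Q d : KK W} (hd : GoodD Q d) (n : ℕ) : GoodD Q (d ^ n) := by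
  induction n with
  | zero => simpa using GoodD.one Q
  | succ n ih => rw [pow_succ]; exact ih.mul hd

theorem GoodD.unit {W : Type} {Q : KK W} (u : (LL W)ˣ) :
    GoodD Q (lev (xu (V := W)) (u : LL W)) where
  mem := lev_mem_LS _
  desc := fun z h _ => by
    have := Subalgebra.mul_mem _ h (lev_mem_LS ((u⁻¹ : (LL W)ˣ) : LL W))
    rw [mul_assoc, ← map_mul, Units.mul_inv, map_one, mul_one] at this
    exact this

section
variable [DecidableEq V]

theorem PP_ne (b : V) (hne : ∃ c : V, c ≠ b) : PP G b ≠ 0 := by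
  obtain ⟨c, hc⟩ := hne
  intro h
  have := ev_PP G (b := c) (v := b) hc.symm
  rw [h, map_zero] at this
  norm_num at this

theorem not_dvd_pow {b : V} {q : LL (V ⊕ V)} (h : ¬ PP G b ∣ q) (k : ℕ) : ¬ PP G b ∣ q ^ k := by
  induction k with
  | zero =>
    rw [pow_zero]
    exact not_dvd_of_ev G (by rw [map_one]; exact one_ne_zero)
  | succ k ih =>
    rw [pow_succ]
    intro h2
    rcases PP_prime G h2 with h3 | h3
    · exact ih h3
    · exact h h3

theorem GoodD.PP {b : V} (hne : ∃ c : V, c ≠ b) {q : LL (V ⊕ V)} (h : ¬ PP G b ∣ q) :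
    GoodD (lev (xu (V := V ⊕ V)) q) (lev (xu (V := V ⊕ V)) (PP G b)) where
  mem := lev_mem_LS _
  desc := fun z hz hk => by
    obtain ⟨k, hk⟩ := hk
    obtain ⟨r, hr⟩ := exists_lev_of_mem_LS hz
    obtain ⟨t, ht⟩ := exists_lev_of_mem_LS hk
    have e1 : r * q ^ k = t * TSD.PP G b := by
      apply lev_inj
      rw [map_mul, map_mul, map_pow, hr, ht]
      ring
    rcases PP_prime G (x := r) (y := q ^ k) (e1 ▸ Dvd.intro_left t rfl) with h1 | h1
    · obtain ⟨c, hc⟩ := h1
      have hne : lev (xu (V := V ⊕ V)) (TSD.PP G b) ≠ 0 := by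
        intro h0
        exact PP_ne G b hne (lev_inj (by rw [h0, map_zero]))
      have : z = lev (xu (V := V ⊕ V)) c := by
        apply mul_right_cancel₀ hne
        rw [← hr, hc, map_mul]
        ring
      rw [this]
      exact lev_mem_LS _
    · exact absurd h1 (not_dvd_pow G h k)

omit [DecidableEq V] in
/-- clearing denominators -/
theorem clear [Fintype V] (z : V → (KK V)ˣ) (hz : ∀ i, (z i : KK V) ∈ LS V) (n : LL V) :
    ∃ k : ℕ, lev z n * (∏ i, (z i : KK V)) ^ k ∈ LS V := by
  obtain ⟨p, m, hp⟩ := LL_form n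
  have hpoly : ∀ p : MvPolynomial V ℚ,
      lev z (MvPolynomial.aeval (fun v => (lx v : LL V)) p) ∈ LS V := by
    intro p
    have : lev z (MvPolynomial.aeval (fun v => (lx v : LL V)) p) =
        MvPolynomial.aeval (fun v => (z v : KK V)) p := by
      have e : (lev z).comp (MvPolynomial.aeval (fun v => (lx v : LL V))) =
          MvPolynomial.aeval (fun v => (z v : KK V)) := by
        apply MvPolynomial.algHom_ext
        intro v
        rw [AlgHom.comp_apply, MvPolynomial.aeval_X, MvPolynomial.aeval_X, lev_lx]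
      exact congrArg (fun f : MvPolynomial V ℚ →ₐ[ℚ] KK V => f p) e
    rw [this]
    have h2 : MvPolynomial.aeval (fun v => (⟨(z v : KK V), hz v⟩ : LS V)) p ∈ (⊤ : Set (LS V)) :=
      trivial
    have h3 : ((MvPolynomial.aeval (fun v => (⟨(z v : KK V), hz v⟩ : LS V)) p : LS V) : KK V) =
        MvPolynomial.aeval (fun v => (z v : KK V)) p := by
      have e : (LS V).val.comp (MvPolynomial.aeval (fun v => (⟨(z v : KK V), hz v⟩ : LS V))) =
          MvPolynomial.aeval (fun v => (z v : KK V)) := by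
        apply MvPolynomial.algHom_ext
        intro v
        rw [AlgHom.comp_apply, MvPolynomial.aeval_X, MvPolynomial.aeval_X]
        rfl
      exact congrArg (fun f : MvPolynomial V ℚ →ₐ[ℚ] KK V => f p) e
    rw [← h3]
    exact SetLike.coe_mem _
  have hmon : lev z (MvPolynomial.aeval (fun v => (lx v : LL V))
      (MvPolynomial.monomial m (1 : ℚ))) = ∏ v ∈ m.support, (z v : KK V) ^ m v := by
    have e : MvPolynomial.monomial m (1 : ℚ) = ∏ v ∈ m.support, MvPolynomial.X v ^ m v := by
      rw [MvPolynomial.monomial_eq, MvPolynomial.C_1, one_mul]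
      rfl
    rw [e, map_prod, map_prod]
    refine Finset.prod_congr rfl fun v _ => ?_
    rw [map_pow, map_pow, MvPolynomial.aeval_X, lev_lx]
  set K := ∑ v, m v with hK
  have hle : ∀ v, m v ≤ K := fun v => Finset.single_le_sum (fun _ _ => Nat.zero_le _)
    (Finset.mem_univ v)
  refine ⟨K, ?_⟩
  have e1 : (∏ i, (z i : KK V)) ^ K = (∏ v ∈ m.support, (z v : KK V) ^ m v) *
      ∏ v, (z v : KK V) ^ (K - m v) := by
    have e2 : ∏ v ∈ m.support, (z v : KK V) ^ m v = ∏ v, (z v : KK V) ^ m v := by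
      apply Finset.prod_subset (Finset.subset_univ _)
      intro v _ hv
      rw [Finsupp.notMem_support_iff.mp hv, pow_zero]
    rw [e2, ← Finset.prod_mul_distrib, ← Finset.prod_pow]
    refine Finset.prod_congr rfl fun v _ => ?_
    rw [← pow_add]
    congr 1
    have := hle v
    omega
  rw [e1, ← mul_assoc, ← hmon, ← map_mul, hp]
  refine Subalgebra.mul_mem _ (hpoly p) (Subalgebra.prod_mem _ fun v _ =>
    Subalgebra.pow_mem _ (hz v) _)

/-! ### the universal Laurent phenomenon -/

variable {G}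

theorem lau [Fintype V] (hG : Good G) (hN : ∀ v, (G.N v).Nonempty) (n : ℕ) :
    ∀ (s : ℤ) (i : V ⊕ V), ∃ p : LL (V ⊕ V), lev (xu (V := V ⊕ V)) p = Zu G s n i := by
  induction n using Nat.strong_induction_on with
  | _ n ih =>
  intro s i
  have hne : ∀ b : V, ∃ c : V, c ≠ b := fun b => by
    obtain ⟨w, hw⟩ := hN b
    exact ⟨w, ne_of_mem_N G hw⟩
  rcases i with v | v
  swap
  · obtain ⟨u, hu⟩ := exists_unit G s n v
    exact ⟨u, hu⟩
  rcases n with _ | _ | _ | _ | n
  · exact ⟨(Xu v : LL (V ⊕ V)), lev_lx _ _⟩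
  · by_cases h : Even (s + G.ε v)
    · exact ⟨_, (Zu1_inl G h).symm⟩
    · exact ⟨_, (Zu1_inl_neg G h).symm⟩
  · by_cases h : Even (s + G.ε v)
    · exact ⟨_, (Zu2_inl_act G h).symm⟩
    · exact ⟨_, (Zu2_inl G h).symm⟩
  · by_cases h : Even (s + G.ε v)
    · obtain ⟨a, ha⟩ := exists_A3 G hG v
      exact ⟨a, (Zu3_inl G h ha).symm⟩
    · exact ⟨_, (Zu3_inl_neg G h).symm⟩
  -- the general case: descent
  set W := V ⊕ V with hW
  set z := Zu G s (n + 1 + 1 + 1 + 1) (.inl v) with hz
  have hL : ∀ (k : ℕ) (_ : k < n + 4) (s : ℤ) (i : W), ∃ p : LL W,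
      lev (xu (V := W)) p = Zu G s k i := fun k hk s i => ih k hk s i
  have hLS : ∀ (k : ℕ) (_ : k < n + 4) (s : ℤ) (i : W), Zu G s k i ∈ LS W := fun k hk s i => by
    obtain ⟨p, hp⟩ := hL k hk s i
    rw [← hp]
    exact lev_mem_LS _
  -- transport from the seed after `m` half-steps
  have htr : ∀ (m k : ℕ), m + k = n + 4 → 0 < m → ∃ p : LL W,
      lev (fun j => Units.mk0 (Zu G s m j) (Zu_ne G s m j)) p = z := by
    intro m k hmk hm
    obtain ⟨p, hp⟩ := hL k (by omega) (s + m) (.inl v)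
    refine ⟨p, ?_⟩
    have e1 : z = orb G (s + m) (orb G s xv m) k (.inl v) := by
      rw [← orb_add, hmk, hz]
      rfl
    rw [e1]
    exact transport G (s + m) k (fun k' hk' i => hL k' (by omega) _ i) _ (fun k' i => by
      have : orb G (s + m) (fun j => ((Units.mk0 (Zu G s m j) (Zu_ne G s m j) : (KK W)ˣ) : KK W))
          k' i = Zu G s (m + k') i := by
        unfold Zu
        rw [orb_add]
        rfl
      rw [this]
      exact Zu_ne _ _ _ _) k le_rfl _ _ hp
  obtain ⟨p1, hp1⟩ := htr 1 (n + 3) (by omega) (by omega)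
  obtain ⟨p3, hp3⟩ := htr 3 (n + 1) (by omega) (by omega)
  obtain ⟨k1, hk1⟩ := clear (fun j => Units.mk0 (Zu G s 1 j) (Zu_ne G s 1 j))
    (fun i => hLS 1 (by omega) s i) p1
  obtain ⟨k3, hk3⟩ := clear (fun j => Units.mk0 (Zu G s 3 j) (Zu_ne G s 3 j))
    (fun i => hLS 3 (by omega) s i) p3
  rw [hp1] at hk1
  rw [hp3] at hk3
  simp only [Units.val_mk0] at hk1 hk3
  -- the denominators of the third seed
  choose q hq using fun i => hL 3 (by omega) s i
  have hQ : lev (xu (V := W)) (∏ i, q i) = ∏ i, Zu G s 3 i := by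
    rw [map_prod]
    exact Finset.prod_congr rfl fun i _ => hq i
  have hndvd : ∀ b : V, Even (s + G.ε b) → ¬ PP G b ∣ ∏ i, q i := by
    intro b hb hdvd
    have hsplit : ∀ (S : Finset W), PP G b ∣ ∏ i ∈ S, q i → ∃ i ∈ S, PP G b ∣ q i := by
      intro S
      induction S using Finset.induction_on with
      | empty =>
        intro h
        rw [Finset.prod_empty] at h
        exact absurd h (not_dvd_of_ev G (by rw [map_one]; exact one_ne_zero))
      | insert a S ha ihS =>
        intro h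
        rw [Finset.prod_insert ha] at h
        rcases PP_prime G h with h1 | h1
        · exact ⟨a, by simp, h1⟩
        · obtain ⟨i, hi, hi'⟩ := ihS h1
          exact ⟨i, by simp [hi], hi'⟩
    obtain ⟨i, _, hi⟩ := hsplit _ hdvd
    rcases i with w | w
    · by_cases hw : Even (s + G.ε w)
      · obtain ⟨a, ha⟩ := exists_A3 G hG w
        have e : q (.inl w) = a := by
          apply lev_inj
          rw [hq, Zu3_inl G hw ha]
        rw [e] at hi
        by_cases hwb : w = b
        · subst hwb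
          obtain ⟨w', hw'⟩ := hN w
          exact not_dvd_A3 G hG hw' ha hi
        · have hRR : PP G b ∣ RR G w := ha ▸ hi.mul_right _
          refine not_dvd_of_ev G (ev_RR G hG hwb ?_ ?_).ne' hRR
          · intro hmem
            exact ((act_N G hmem).mp hb) hw
          · intro hmem
            exact ((act_M G hmem).mp hb) hw
      · have e : q (.inl w) = A2 G w := by
          apply lev_inj
          rw [hq, Zu3_inl_neg G hw]
        rw [e] at hi
        refine not_dvd_of_ev G (ev_A2 G hG ?_).ne' hi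
        intro hwb
        rw [hwb] at hw
        exact hw hb
    · obtain ⟨u, hu⟩ := exists_unit G s 3 w
      have e : q (.inr w) = (u : LL W) := by
        apply lev_inj
        rw [hq, hu]
      rw [e] at hi
      exact not_dvd_of_ev G ((u.isUnit.map (ev b)).ne_zero) hi
  -- the denominators of the first seed are good
  have hgood : GoodD (∏ i, Zu G s 3 i) (∏ i, Zu G s 1 i) := by
    rw [← hQ]
    refine GoodD.prod _ _ fun i _ => ?_
    rcases i with w | w
    · by_cases hw : Even (s + G.ε w)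
      · rw [Zu1_inl G hw]
        unfold A1
        rw [map_mul]
        exact (GoodD.PP G (hne w) (hndvd w hw)).mul (GoodD.unit _)
      · rw [Zu1_inl_neg G hw]
        exact GoodD.unit _
    · obtain ⟨u, hu⟩ := exists_unit G s 1 w
      rw [← hu]
      exact GoodD.unit _
  exact exists_lev_of_mem_LS ((hgood.pow k1).desc z hk1 ⟨k3, hk3⟩)

/-! ### the T-system without coefficients -/

/-- the initial data with trivial coefficients -/
noncomputable def z0 : V ⊕ V → (KK V)ˣ
  | .inl v => xu v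
  | .inr _ => 1

/-- the states of a solution -/
noncomputable def zT (G : Sys V) (T : V → ℤ → KK V) (n : ℕ) : V ⊕ V → KK V
  | .inl v => if Even ((n : ℤ) + 1 + G.ε v) then T v (n + 1) else T v n
  | .inr _ => 1

omit [DecidableEq V] in
theorem orb_zT (T : V → ℤ → KK V) (hT : G.IsT T) (n : ℕ) :
    orb G 0 (fun i => ((z0 i : (KK V)ˣ) : KK V)) n = zT G T n := by
  induction n with
  | zero =>
    funext i
    rcases i with v | v
    · change xv v = if Even (((0 : ℕ) : ℤ) + 1 + G.ε v) then T v (((0 : ℕ) : ℤ) + 1)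
        else T v ((0 : ℕ) : ℤ)
      have := hT.init v
      rcases G.hε v with h | h
      · rw [if_neg (by rw [h]; decide), ← this, h]
        rfl
      · rw [if_pos (by rw [h]; decide), ← this, h]
        rfl
    · rfl
  | succ n ih =>
    change stp G (0 + (n : ℤ)) (orb G 0 _ n) = _
    rw [ih]
    funext i
    rcases i with v | v
    · by_cases h : Even (0 + (n : ℤ) + G.ε v)
      · rw [stp_inl_pos G h]
        have h1 : ¬ Even ((n : ℤ) + 1 + G.ε v) := by
          rw [act_succ, ← zero_add (n : ℤ)]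
          exact not_not.mpr h
        have h2 : Even (((n + 1 : ℕ) : ℤ) + 1 + G.ε v) := by
          push_cast
          rw [act_succ]
          exact h1
        have eT : zT G T (n + 1) (.inl v) = T v (n + 2) := by
          change (if Even (((n + 1 : ℕ) : ℤ) + 1 + G.ε v) then T v (((n + 1 : ℕ) : ℤ) + 1)
            else T v ((n + 1 : ℕ) : ℤ)) = _
          rw [if_pos h2]
          push_cast
          rw [show (n : ℤ) + 1 + 1 = n + 2 by ring]
        have eT0 : zT G T n (.inl v) = T v n := by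
          change (if Even ((n : ℤ) + 1 + G.ε v) then T v ((n : ℤ) + 1) else T v (n : ℤ)) = _
          rw [if_neg h1]
        have eu : ∀ u, Even ((n : ℤ) + 1 + G.ε u) → zT G T n (.inl u) = T u (n + 1) := by
          intro u hu
          change (if Even ((n : ℤ) + 1 + G.ε u) then T u ((n : ℤ) + 1) else T u (n : ℤ)) = _
          rw [if_pos hu]
        have hr := hT.rel v (n + 1) (by
          have : ((n : ℤ) + 1 + 1 + G.ε v) = (((n + 1 : ℕ) : ℤ) + 1 + G.ε v) := by push_cast; ring
          rw [this]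
          exact h2)
        rw [show ((n : ℤ) + 1 + 1) = n + 2 by ring, show ((n : ℤ) + 1 - 1) = n by ring] at hr
        have hne : T v n ≠ 0 := hT.ne (by rw [← zero_add (n : ℤ)]; exact h)
        rw [eT, eT0, div_eq_iff hne, hr, Finset.prod_congr rfl (fun u hu => eu u
          ((act_N G hu).mpr h1)), Finset.prod_congr rfl (fun u hu => eu u ((act_M G hu).mpr h1))]
        change _ + 1 * _ = _
        rw [one_mul]
      · rw [stp_inl_neg G h]
        have h1 : Even ((n : ℤ) + 1 + G.ε v) := by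
          rw [act_succ, ← zero_add (n : ℤ)]
          exact h
        have h2 : ¬ Even (((n + 1 : ℕ) : ℤ) + 1 + G.ε v) := by
          push_cast
          rw [act_succ]
          exact not_not.mpr h1
        change (if Even ((n : ℤ) + 1 + G.ε v) then T v ((n : ℤ) + 1) else T v (n : ℤ)) =
          (if Even (((n + 1 : ℕ) : ℤ) + 1 + G.ε v) then T v (((n + 1 : ℕ) : ℤ) + 1)
            else T v ((n + 1 : ℕ) : ℤ))
        rw [if_pos h1, if_neg h2]
        congr 1
    · by_cases h : Even (0 + (n : ℤ) + G.ε v)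
      · rw [stp_inr_pos G h]
        change (∏ u ∈ G.N v, (1 : KK V)) / 1 = 1
        rw [Finset.prod_const_one, div_one]
      · rw [stp_inr_neg G h]
        rfl

/-- (M6) the Laurent phenomenon -/
theorem laurent [Fintype V] (hG : Good G) (hN : ∀ v, (G.N v).Nonempty) (T : V → ℤ → KK V)
    (hT : G.IsT T) (v : V) (t : ℤ) (ht : 0 ≤ t) (hp : Even (t + G.ε v)) : T v t ∈ LS V := by
  rcases ht.eq_or_lt with h0 | h0
  · have : G.ε v = 0 := by
      rw [← h0, zero_add] at hp
      rcases G.hε v with h | h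
      · exact h
      · rw [h] at hp; exact absurd hp (by decide)
    rw [← h0, ← this, hT.init]
    exact xv_mem_LS v
  · obtain ⟨n, hn⟩ : ∃ n : ℕ, t = n + 1 := ⟨(t - 1).toNat, by omega⟩
    subst hn
    obtain ⟨p, hp1⟩ := lau hG hN n 0 (.inl v)
    have h1 : zT G T n (.inl v) = T v (n + 1) := by
      change (if Even ((n : ℤ) + 1 + G.ε v) then T v ((n : ℤ) + 1) else T v (n : ℤ)) = _
      rw [if_pos hp]
    have hzne : ∀ (k : ℕ) (i : V ⊕ V), orb G 0 (fun i => ((z0 i : (KK V)ˣ) : KK V)) k i ≠ 0 :=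
      fun k i => (posCone V).ne (orb_mem G _ _ _ (fun i => by
        rcases i with w | w
        · exact xv_mem w
        · exact (posCone V).one) _ _)
    have h2 := transport G 0 n (fun k _ i => lau hG hN k 0 i) (z0 (V := V)) hzne n le_rfl _ p hp1
    rw [← h1, ← orb_zT T hT n, ← h2]
    apply lev_mem
    · intro i
      rcases i with w | w
      · exact xv_mem_LS w
      · exact Subalgebra.one_mem _
    · intro i
      rcases i with w | w
      · change (((xu w)⁻¹ : (KK V)ˣ) : KK V) ∈ _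
        rw [Units.val_inv_eq_inv_val]
        exact xv_inv_mem_LS w
      · change (((1 : (KK V)ˣ)⁻¹ : (KK V)ˣ) : KK V) ∈ _
        rw [inv_one]
        exact Subalgebra.one_mem _

end

end Pool.Agent.H5.TSD
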