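import Pool.Agent.H5.TSD.Decay

/-!
# Assembly: from the period of the linear part, the tropical evolution and the Laurent phenomenon to
linear recurrences with conserved coefficients
-/

namespace Pool.Agent.H5.TSD

open Finset Pool.Agent.H15.TSys

variable {V : Type}

theorem hk_mem {K : Type*} [Field K] [Algebra ℚ K] (S : Subalgebra ℚ K) (a : ℕ → K)
    (h : ∀ l, a l ∈ S) (M s : ℕ) : hk a M s ∈ S := by
  unfold hk
  rw [Matrix.det_apply]
  refine S.sum_mem fun τ _ => ?_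
  have h1 : ∏ i : Fin (M + 1), (Matrix.of fun i j : Fin (M + 1) => a (s + i + j)) (τ i) i ∈ S :=
    S.prod_mem fun i _ => h _
  rcases Int.units_eq_one_or (Equiv.Perm.sign τ) with h2 | h2
  · rw [h2, one_smul]; exact h1
  · rw [h2, Units.neg_smul, one_smul]; exact S.neg_mem h1

/-- (M8) assembly -/
theorem main_of [Finite V] [Nonempty V] (G : Sys V)
    (q : V → ℝ) (lam : ℝ) (hq : Eig G q lam)
    (n : ℕ) (hn : 0 < n)
    (hper : ∀ {B : Type} [AddCommGroup B] (L : ℕ → V → B),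
      (∀ t v, L (t + 2) v + L t v = ∑ u ∈ G.N v, L (t + 1) u) →
      ∀ t v, L (t + 2 * n) v + L t v = 2 • L (t + n) v)
    (hlin : ∀ s : ℝ, s ≠ 0 → ∃ (t0 : ℕ) (p : ℝ), 0 < p ∧ fseq lam s t0 < 0 ∧
      ∀ t : ℕ, fseq lam s (t0 + t) = fseq lam s t0 - p * t)
    (T : V → ℤ → KK V) (hT : G.IsT T)
    (hL : ∀ v t, 0 ≤ t → Even (t + G.ε v) → T v t ∈ LS V) (v : V) : G.HasRec T v := by
  classical
  set μ : V → ℝ := fun v => if G.ε v = 1 then q v else 0 with hμ
  obtain ⟨A, B, hA, hB, hAx, hBx, hAadd, hBadd, hAB⟩ := exists_abv (V := V) μ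
  have hxA : ∀ v, A (xv v) = Real.exp (-(q v * fseq lam (-1) (G.ε v).toNat)) := by
    intro v
    rw [hAx, hμ]
    rcases G.hε v with h | h
    · norm_num [fseq, h]
    · norm_num [fseq, h]
  have hxB : ∀ v, B (xv v) = Real.exp (-(q v * fseq lam 1 (G.ε v).toNat)) := by
    intro v
    rw [hBx, hμ]
    rcases G.hε v with h | h
    · norm_num [fseq, h]
    · norm_num [fseq, h]
  obtain ⟨t1, p1, hp1, hf1, hl1⟩ := hlin (-1) (by norm_num)
  obtain ⟨t2, p2, hp2, hf2, hl2⟩ := hlin 1 (by norm_num)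
  obtain ⟨M1, h1⟩ := decay G q lam hq T hT (-1) A hxA hAadd hA n hn hper t1 p1 hp1 hf1 hl1 v
  obtain ⟨M2, h2⟩ := decay G q lam hq T hT 1 B hxB hBadd hB n hn hper t2 p2 hp2 hf2 hl2 v
  set M := max M1 M2 with hM
  have h3 := (h1 M (le_max_left _ _)).mul (h2 M (le_max_right _ _))
  rw [mul_zero] at h3
  obtain ⟨σ, hσx, hσT⟩ := hT.exists_sigma
  have hadm : ∀ l : ℤ, Even (G.ε v + 2 * l + G.ε v) := fun l => ⟨G.ε v + l, by ring⟩
  set a : ℤ → KK V := fun l => T v (G.ε v + 2 * l) with ha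
  have hσa : ∀ l, σ (a l) = a (l + 1) := by
    intro l
    change σ (T v (G.ε v + 2 * l)) = T v (G.ε v + 2 * (l + 1))
    rw [hσT v _ (hadm l)]
    congr 1; ring
  have ha0 : a 0 ≠ 0 := hT.ne (hadm 0)
  have hzero : hz a M 0 = 0 := by
    by_contra hne
    have hne' : ∀ r : ℕ, hk (fun l : ℕ => T v (G.ε v + 2 * l)) M r ≠ 0 := by
      intro r
      have h4 : hk (fun l : ℕ => T v (G.ε v + 2 * l)) M r = hz a M r := by
        unfold hk hz
        congr 1
      rw [h4]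
      exact fun h => hne ((hz_zero_iff σ a hσa M r).mp h)
    have hge : ∀ r : ℕ, 1 ≤ A (hk (fun l : ℕ => T v (G.ε v + 2 * l)) M r) *
        B (hk (fun l : ℕ => T v (G.ε v + 2 * l)) M r) := by
      intro r
      refine hAB _ (hk_mem _ _ (fun l => hL v _ ?_ (hadm l)) M r) (hne' r)
      rcases G.hε v with h | h <;> rw [h] <;> positivity
    exact absurd (ge_of_tendsto' h3 hge) (by norm_num)
  obtain ⟨m, c, hc, hrec⟩ := exists_rec_of_hankel σ a hσa ha0 M hzero
  exact hT.hasRec v m c hc hrec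

end Pool.Agent.H5.TSD
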