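import Pool.Agent.H5.TSD.Small

/-!
# The group of sequences close to one, infinite products
-/

namespace Pool.Agent.H5.TSD

open Finset

variable {E : Type*} [NormedField E] [IsUltrametricDist E]

/-- `|f t - 1| ≤ δ a ^ t` -/
def Near (δ a : ℝ) (f : ℕ → E) : Prop := ∀ t, ‖f t - 1‖ ≤ δ * a ^ t

section
variable {δ a : ℝ}

theorem bd_lt (hδ0 : 0 ≤ δ) (hδ : δ < 1) (ha0 : 0 < a) (ha : a < 1) (t : ℕ) : δ * a ^ t < 1 :=
  lt_of_le_of_lt (mul_le_of_le_one_right hδ0 (pow_le_one₀ ha0.le ha.le)) hδ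

theorem Near.norm_eq (hδ0 : 0 ≤ δ) (hδ : δ < 1) (ha0 : 0 < a) (ha : a < 1) {f : ℕ → E}
    (hf : Near δ a f) (t : ℕ) : ‖f t‖ = 1 := by
  have h1 : ‖f t - 1‖ < 1 := (hf t).trans_lt (bd_lt hδ0 hδ ha0 ha t)
  have h2 : f t = (f t - 1) + 1 := by ring
  rw [h2, IsUltrametricDist.norm_add_eq_max_of_norm_ne_norm (by rw [norm_one]; exact h1.ne),
    norm_one, max_eq_right h1.le]

theorem Near.ne_zero (hδ0 : 0 ≤ δ) (hδ : δ < 1) (ha0 : 0 < a) (ha : a < 1) {f : ℕ → E}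
    (hf : Near δ a f) (t : ℕ) : f t ≠ 0 := by
  intro h
  have := hf.norm_eq hδ0 hδ ha0 ha t
  rw [h, norm_zero] at this
  exact zero_ne_one this

omit [IsUltrametricDist E] in
theorem Near.one (hδ0 : 0 ≤ δ) (ha0 : 0 < a) : Near δ a (1 : ℕ → E) := by
  intro t
  simp only [Pi.one_apply, sub_self, norm_zero]
  exact mul_nonneg hδ0 (pow_nonneg ha0.le t)

theorem Near.mul (hδ0 : 0 ≤ δ) (hδ : δ < 1) (ha0 : 0 < a) (ha : a < 1) {f g : ℕ → E}
    (hf : Near δ a f) (hg : Near δ a g) : Near δ a (f * g) := by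
  intro t
  have h2 : (f * g) t - 1 = (f t - 1) * g t + (g t - 1) := by
    change f t * g t - 1 = _; ring
  rw [h2]
  refine (IsUltrametricDist.norm_add_le_max _ _).trans (max_le ?_ (hg t))
  rw [norm_mul, hg.norm_eq hδ0 hδ ha0 ha t, mul_one]
  exact hf t

theorem Near.inv (hδ0 : 0 ≤ δ) (hδ : δ < 1) (ha0 : 0 < a) (ha : a < 1) {f : ℕ → E}
    (hf : Near δ a f) : Near δ a (f⁻¹) := by
  intro t
  have h0 := hf.ne_zero hδ0 hδ ha0 ha t
  have h2 : (f⁻¹) t - 1 = -((f t - 1) * (f t)⁻¹) := by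
    change (f t)⁻¹ - 1 = _
    field_simp
    ring
  rw [h2, norm_neg, norm_mul, norm_inv, hf.norm_eq hδ0 hδ ha0 ha t, inv_one, mul_one]
  exact hf t

omit [IsUltrametricDist E] in
theorem Near.shn (hδ0 : 0 ≤ δ) (ha0 : 0 < a) (ha : a < 1) {f : ℕ → E}
    (hf : Near δ a f) (n : ℕ) : Near δ a (fun t => f (t + n)) := by
  intro t
  refine (hf (t + n)).trans (mul_le_mul_of_nonneg_left ?_ hδ0)
  exact pow_le_pow_of_le_one ha0.le ha.le (Nat.le_add_right _ _)

omit [IsUltrametricDist E] in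
theorem Near.small {f : ℕ → E} (hf : Near δ a f) : Small a (f - 1) := ⟨δ, hf⟩

/-- close to one, with difference in the class `A_ρ` -/
def NearA (δ a ρ : ℝ) (f : ℕ → E) : Prop := Near δ a f ∧ Asy ρ (f - 1)

omit [IsUltrametricDist E] in
theorem NearA.one {ρ : ℝ} (hδ0 : 0 ≤ δ) (ha0 : 0 < a) : NearA δ a ρ (1 : ℕ → E) := by
  refine ⟨Near.one hδ0 ha0, ?_⟩
  rw [sub_self]
  exact Asy.of_fin FinSeq.zero

theorem NearA.mul {ρ : ℝ} (hδ0 : 0 ≤ δ) (hδ : δ < 1) (ha0 : 0 < a) (ha : a < 1) (hρ : 0 < ρ)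
    (hρa : ρ ≤ a) {f g : ℕ → E}
    (hf : NearA δ a ρ f) (hg : NearA δ a ρ g) : NearA δ a ρ (f * g) := by
  refine ⟨hf.1.mul hδ0 hδ ha0 ha hg.1, ?_⟩
  have h2 : f * g - 1 = (f - 1) * (g - 1) + (f - 1) + (g - 1) := by ring
  rw [h2]
  refine (Asy.add ?_ hf.2).add hg.2
  exact Asy.mul hρ.le hρ.le hρa hf.2 hg.2 hf.1.small hg.1.small
    (mul_le_of_le_one_left hρ.le ha.le) (mul_le_of_le_one_right hρ.le ha.le) ha0.le

theorem NearA.inv {ρ : ℝ} (hδ0 : 0 ≤ δ) (hδ : δ < 1) (ha0 : 0 < a) (ha : a < 1) (hρ : 0 < ρ)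
    (hρa : ρ ≤ a) {f : ℕ → E}
    (hf : NearA δ a ρ f) : NearA δ a ρ (f⁻¹) := by
  refine ⟨hf.1.inv hδ0 hδ ha0 ha, ?_⟩
  have hsm := (hf.1.inv hδ0 hδ ha0 ha).small
  refine Asy.bootstrap ha0 ha hρ hρa hsm ?_
  intro σ hσ hσa hy
  have h2 : f⁻¹ - 1 = -((f - 1) + (f - 1) * (f⁻¹ - 1)) := by
    funext t
    have h0 := hf.1.ne_zero hδ0 hδ ha0 ha t
    change (f t)⁻¹ - 1 = -((f t - 1) + (f t - 1) * ((f t)⁻¹ - 1))
    field_simp
    ring
  rw [h2]
  refine Asy.neg (Asy.add (hf.2.mono hρ.le (le_max_left _ _)) ?_)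
  exact Asy.mul hρ.le (hρ.le.trans hσ) hρa hf.2 hy hf.1.small hsm (le_max_right _ _)
    ((mul_le_of_le_one_right hρ.le ha.le).trans (le_max_left _ _)) ha0.le

omit [IsUltrametricDist E] in
theorem NearA.shn {ρ : ℝ} (hδ0 : 0 ≤ δ) (ha0 : 0 < a) (ha : a < 1) {f : ℕ → E}
    (hf : NearA δ a ρ f) (n : ℕ) : NearA δ a ρ (fun t => f (t + n)) :=
  ⟨hf.1.shn hδ0 ha0 ha n, hf.2.shn n⟩

/-- the infinite product `W t = ∏_j Θ (t + j n)` -/
theorem exists_prod [CompleteSpace E] (hδ0 : 0 ≤ δ) (hδ : δ < 1) (ha0 : 0 < a) (ha : a < 1)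
    (n : ℕ) (hn : 0 < n) {Θ : ℕ → E} (hΘ : Near δ a Θ) :
    ∃ W : ℕ → E, Near δ a W ∧ (∀ t, W t = Θ t * W (t + n)) ∧
      ∀ ρ, 0 < ρ → ρ ≤ a → NearA δ a ρ Θ → NearA δ a ρ W := by
  set P : ℕ → ℕ → E := fun t m => ∏ j ∈ range m, Θ (t + j * n) with hP
  have hPn : ∀ t m, ‖P t m‖ = 1 := by
    intro t m
    simp only [hP, norm_prod]
    exact Finset.prod_eq_one fun j _ => hΘ.norm_eq hδ0 hδ ha0 ha _
  have hstep : ∀ t m, P t (m + 1) = P t m * Θ (t + m * n) := by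
    intro t m
    simp only [hP, prod_range_succ]
  have hcau : ∀ t, CauchySeq (P t) := by
    intro t
    refine cauchySeq_of_le_geometric a δ ha fun m => ?_
    rw [dist_eq_norm, hstep, ← norm_neg]
    have : -(P t m - P t m * Θ (t + m * n)) = P t m * (Θ (t + m * n) - 1) := by ring
    rw [this, norm_mul, hPn, one_mul]
    refine (hΘ _).trans (mul_le_mul_of_nonneg_left ?_ hδ0)
    refine pow_le_pow_of_le_one ha0.le ha.le ?_
    have : m * 1 ≤ m * n := Nat.mul_le_mul_left m hn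
    omega
  choose W hW using fun t => cauchySeq_tendsto_of_complete (hcau t)
  have hPnear : ∀ t m, ‖P t m - 1‖ ≤ δ * a ^ t := by
    intro t m
    induction m with
    | zero =>
      simp only [hP, range_zero, prod_empty, sub_self, norm_zero]
      exact mul_nonneg hδ0 (pow_nonneg ha0.le t)
    | succ m ih =>
      have : P t (m + 1) - 1 = P t m * (Θ (t + m * n) - 1) + (P t m - 1) := by
        rw [hstep]; ring
      rw [this]
      refine (IsUltrametricDist.norm_add_le_max _ _).trans (max_le ?_ ih)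
      rw [norm_mul, hPn, one_mul]
      refine (hΘ _).trans (mul_le_mul_of_nonneg_left ?_ hδ0)
      exact pow_le_pow_of_le_one ha0.le ha.le (Nat.le_add_right _ _)
  have hnear : Near δ a W := by
    intro t
    have h1 : Filter.Tendsto (fun m => ‖P t m - 1‖) Filter.atTop (nhds ‖W t - 1‖) :=
      ((hW t).sub_const 1).norm
    exact le_of_tendsto' h1 (hPnear t)
  have hrec : ∀ t, W t = Θ t * W (t + n) := by
    intro t
    have h1 : Filter.Tendsto (fun m => P t (m + 1)) Filter.atTop (nhds (W t)) :=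
      (hW t).comp (Filter.tendsto_add_atTop_nat 1)
    have h2 : Filter.Tendsto (fun m => Θ t * P (t + n) m) Filter.atTop
        (nhds (Θ t * W (t + n))) := (hW (t + n)).const_mul _
    have h3 : (fun m => P t (m + 1)) = fun m => Θ t * P (t + n) m := by
      funext m
      simp only [hP, prod_range_succ']
      rw [mul_comm]
      congr 1
      · simp
      · refine Finset.prod_congr rfl fun j _ => ?_
        congr 1; ring
    rw [h3] at h1
    exact tendsto_nhds_unique h1 h2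
  refine ⟨W, hnear, hrec, fun ρ hρ hρa hA => ⟨hnear, ?_⟩⟩
  refine Asy.bootstrap ha0 ha hρ hρa hnear.small ?_
  intro σ hσ hσa hy
  have hmax : max ρ (a * σ) ≤ a :=
    max_le hρa ((mul_le_of_le_one_left (hρ.le.trans hσ) ha.le).trans hσa)
  refine Asy.of_sub_shn ha (hρ.le.trans (le_max_left _ _)) hmax n hn hnear.small ?_
  have h2 : (fun t => (W - 1) t - (W - 1) (t + n)) =
      (Θ - 1) + (Θ - 1) * (fun t => (W - 1) (t + n)) := by
    funext t
    change (W t - 1) - (W (t + n) - 1) = (Θ t - 1) + (Θ t - 1) * (W (t + n) - 1)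
    rw [hrec t]; ring
  rw [h2]
  refine Asy.add (hA.2.mono hρ.le (le_max_left _ _)) ?_
  exact Asy.mul hρ.le (hρ.le.trans hσ) hρa hA.2 (hy.shn n) hA.1.small (hnear.small.shn n)
    (le_max_right _ _) ((mul_le_of_le_one_right hρ.le ha.le).trans (le_max_left _ _)) ha0.le

end

end Pool.Agent.H5.TSD
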