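import Mathlib

/-!
# Sequences in a normed field: shift-finite sequences, exponentially small sequences and their sums
-/

namespace Pool.Agent.H5.TSD

open Finset

section Fin

variable {E : Type*} [Field E]

/-- the shift as an algebra homomorphism -/
def sh (E : Type*) [Field E] : (ℕ → E) →ₐ[E] (ℕ → E) where
  toFun f := fun t => f (t + 1)
  map_one' := rfl
  map_mul' _ _ := rfl
  map_zero' := rfl
  map_add' _ _ := rfl
  commutes' _ := rfl

@[simp] theorem sh_apply (f : ℕ → E) (t : ℕ) : sh E f t = f (t + 1) := rfl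

theorem sh_iterate (f : ℕ → E) (n t : ℕ) : ((sh E)^[n]) f t = f (t + n) := by
  induction n generalizing f t with
  | zero => rfl
  | succ n ih =>
    rw [Function.iterate_succ_apply, ih, sh_apply, add_assoc]

/-- `f` lies in a finite dimensional shift invariant space -/
def FinSeq (f : ℕ → E) : Prop :=
  ∃ W : Submodule E (ℕ → E), W.FG ∧ (∀ g ∈ W, sh E g ∈ W) ∧ f ∈ W

theorem FinSeq.add {f g : ℕ → E} (hf : FinSeq f) (hg : FinSeq g) : FinSeq (f + g) := by
  obtain ⟨W, h1, h2, h3⟩ := hf
  obtain ⟨W', h1', h2', h3'⟩ := hg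
  refine ⟨W ⊔ W', h1.sup h1', ?_, Submodule.add_mem_sup h3 h3'⟩
  intro k hk
  obtain ⟨a, ha, b, hb, rfl⟩ := Submodule.mem_sup.mp hk
  rw [map_add]
  exact Submodule.add_mem_sup (h2 a ha) (h2' b hb)

theorem FinSeq.mul {f g : ℕ → E} (hf : FinSeq f) (hg : FinSeq g) : FinSeq (f * g) := by
  obtain ⟨W, h1, h2, h3⟩ := hf
  obtain ⟨W', h1', h2', h3'⟩ := hg
  refine ⟨W * W', h1.mul h1', ?_, Submodule.mul_mem_mul h3 h3'⟩
  intro k hk
  have : W * W' ≤ (W * W').comap (sh E).toLinearMap := by
    rw [Submodule.mul_le]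
    intro a ha b hb
    rw [Submodule.mem_comap, AlgHom.toLinearMap_apply, map_mul]
    exact Submodule.mul_mem_mul (h2 a ha) (h2' b hb)
  exact this hk

theorem FinSeq.sh {f : ℕ → E} (hf : FinSeq f) : FinSeq (sh E f) := by
  obtain ⟨W, h1, h2, h3⟩ := hf
  exact ⟨W, h1, h2, h2 f h3⟩

theorem FinSeq.const (c : E) : FinSeq (fun _ => c : ℕ → E) := by
  refine ⟨Submodule.span E {(1 : ℕ → E)}, Submodule.fg_span_singleton _, ?_, ?_⟩
  · intro g hg
    obtain ⟨c, rfl⟩ := Submodule.mem_span_singleton.mp hg
    rw [map_smul, map_one]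
    exact Submodule.smul_mem _ _ (Submodule.mem_span_singleton_self _)
  · refine Submodule.mem_span_singleton.mpr ⟨c, ?_⟩
    funext t
    simp

theorem FinSeq.one : FinSeq (1 : ℕ → E) := FinSeq.const 1

theorem FinSeq.zero : FinSeq (0 : ℕ → E) := FinSeq.const 0

theorem FinSeq.neg {f : ℕ → E} (hf : FinSeq f) : FinSeq (-f) := by
  obtain ⟨W, h1, h2, h3⟩ := hf
  exact ⟨W, h1, h2, W.neg_mem h3⟩

theorem FinSeq.shn {f : ℕ → E} (hf : FinSeq f) (n : ℕ) : FinSeq (fun t => f (t + n)) := by
  have : (fun t => f (t + n)) = ((TSD.sh E)^[n]) f := by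
    funext t; rw [sh_iterate]
  rw [this]
  induction n with
  | zero => exact hf
  | succ n ih =>
    rw [Function.iterate_succ_apply']
    refine FinSeq.sh (ih ?_)
    funext t; rw [sh_iterate]

/-- it is enough to have a space invariant under a power of the shift -/
theorem finSeq_of_pow {f : ℕ → E} (n : ℕ) (hn : 0 < n) (W : Submodule E (ℕ → E)) (hW : W.FG)
    (hs : ∀ g ∈ W, (fun t => g (t + n)) ∈ W) (hf : f ∈ W) : FinSeq f := by
  set S : (ℕ → E) →ₗ[E] (ℕ → E) := (sh E).toLinearMap with hS
  have hpow : ∀ i (g : ℕ → E), (S ^ i) g = fun t => g (t + i) := by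
    intro i
    induction i with
    | zero => intro g; rfl
    | succ i ih =>
      intro g
      rw [pow_succ', Module.End.mul_apply, ih]
      funext t
      change g (t + 1 + i) = g (t + (i + 1))
      congr 1; ring
  set W' : Submodule E (ℕ → E) := ⨆ i ∈ Finset.range n, W.map (S ^ i) with hW'
  have hle : ∀ i < n, W.map (S ^ i) ≤ W' := fun i hi =>
    le_iSup₂_of_le i (Finset.mem_range.mpr hi) le_rfl
  refine ⟨W', Submodule.fg_biSup _ _ fun i _ => hW.map _, ?_, ?_⟩
  · have : W' ≤ W'.comap S := by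
      rw [hW']
      refine iSup₂_le fun i hi => ?_
      rw [← hW']
      intro k hk
      obtain ⟨g, hg, rfl⟩ := Submodule.mem_map.mp hk
      rw [Submodule.mem_comap, ← Module.End.mul_apply, ← pow_succ']
      by_cases h : i + 1 < n
      · exact hle (i + 1) h (Submodule.mem_map_of_mem hg)
      · have hin : i + 1 = n := by
          have := Finset.mem_range.mp hi
          omega
        rw [hin, hpow]
        refine hle 0 hn (Submodule.mem_map.mpr ⟨_, hs g hg, ?_⟩)
        rw [pow_zero]; rfl
    exact fun g hg => this hg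
  · refine hle 0 hn (Submodule.mem_map.mpr ⟨f, hf, ?_⟩)
    rw [pow_zero]; rfl

/-- sequences of period `n` -/
def perSub (E : Type*) [Field E] (n : ℕ) : Submodule E (ℕ → E) where
  carrier := {h | ∀ t, h (t + n) = h t}
  add_mem' := by
    intro a b ha hb t
    change a (t + n) + b (t + n) = a t + b t
    rw [ha t, hb t]
  zero_mem' := fun _ => rfl
  smul_mem' := by
    intro c a ha t
    change c • a (t + n) = c • a t
    rw [ha t]

theorem perSub_fg (n : ℕ) (hn : 0 < n) : (perSub E n).FG := by
  have hper : ∀ h ∈ perSub E n, ∀ t, h t = h (t % n) := by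
    intro h hh t
    have : ∀ q r, h (r + n * q) = h r := by
      intro q
      induction q with
      | zero => intro r; simp
      | succ q ih =>
        intro r
        rw [show r + n * (q + 1) = r + n * q + n by ring]
        rw [show h (r + n * q + n) = h (r + n * q) from hh _]
        exact ih r
    conv_lhs => rw [← Nat.mod_add_div t n]
    exact this _ _
  set F : perSub E n →ₗ[E] (Fin n → E) :=
    (LinearMap.funLeft E E (fun i : Fin n => (i : ℕ))).comp (perSub E n).subtype with hF
  have hinj : Function.Injective F := by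
    intro a b hab
    apply Subtype.ext
    funext t
    rw [hper a.1 a.2 t, hper b.1 b.2 t]
    exact congrFun hab ⟨t % n, Nat.mod_lt _ hn⟩
  have : FiniteDimensional E (perSub E n) := FiniteDimensional.of_injective F hinj
  exact Module.Finite.iff_fg.mp this

/-- a sequence with constant second multiplicative difference equal to one -/
theorem finSeq_of_geom {f : ℕ → E} (n : ℕ) (hn : 0 < n) (h0 : ∀ t, f t ≠ 0)
    (h : ∀ t, f (t + 2 * n) * f t = f (t + n) ^ 2) : FinSeq f := by
  set m : (ℕ → E) →ₗ[E] (ℕ → E) := LinearMap.mulRight E f with hm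
  refine finSeq_of_pow n hn ((perSub E n).map m) ((perSub_fg n hn).map _) ?_ ?_
  · intro g hg
    obtain ⟨p, hp, rfl⟩ := Submodule.mem_map.mp hg
    refine Submodule.mem_map.mpr ⟨fun t => p t * (f (t + n) / f t), ?_, ?_⟩
    · intro t
      change p (t + n) * (f (t + n + n) / f (t + n)) = p t * (f (t + n) / f t)
      rw [show p (t + n) = p t from hp t]
      congr 1
      rw [div_eq_div_iff (h0 _) (h0 _), show t + n + n = t + 2 * n by ring, h t]
      ring
    · funext t
      change p t * (f (t + n) / f t) * f t = p (t + n) * f (t + n)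
      rw [show p (t + n) = p t from hp t]
      field_simp [h0 t]
  · refine Submodule.mem_map.mpr ⟨1, fun _ => rfl, ?_⟩
    funext t
    change 1 * f t = f t
    rw [one_mul]

/-- a monic polynomial in the square of the shift kills a shift-finite sequence -/
theorem FinSeq.exists_rec {f : ℕ → E} (hf : FinSeq f) :
    ∃ (D : ℕ) (p : ℕ → E), ∀ t, ∑ i ∈ range D, p i * f (t + 2 * i) + f (t + 2 * D) = 0 := by
  obtain ⟨W, h1, h2, h3⟩ := hf
  have hfin : FiniteDimensional E W := Module.Finite.iff_fg.mpr h1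
  set S : (ℕ → E) →ₗ[E] (ℕ → E) := (TSD.sh E).toLinearMap with hS
  set T : W →ₗ[E] W := (S.restrict (p := W) (q := W) (fun g hg => h2 g hg)) ^ 2 with hT
  have hTv : ∀ i (g : W), (((T ^ i) g : W) : ℕ → E) = fun t => (g : ℕ → E) (t + 2 * i) := by
    intro i
    induction i with
    | zero => intro g; rfl
    | succ i ih =>
      intro g
      rw [pow_succ, Module.End.mul_apply, ih]
      funext t
      change (g : ℕ → E) (t + 2 * i + 1 + 1) = (g : ℕ → E) (t + 2 * (i + 1))
      congr 1
  set P := T.charpoly with hPdef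
  have hP : P.Monic := T.charpoly_monic
  refine ⟨P.natDegree, P.coeff, fun t => ?_⟩
  have e1 : Polynomial.aeval T P = 0 := T.aeval_self_charpoly
  have e2 := congrArg (fun A : W →ₗ[E] W => ((A ⟨f, h3⟩ : W) : ℕ → E) t) e1
  simp only [LinearMap.zero_apply] at e2
  rw [Polynomial.aeval_eq_sum_range, Finset.sum_range_succ] at e2
  have hlead : P.coeff P.natDegree = 1 := hP
  rw [LinearMap.add_apply, hlead, one_smul, LinearMap.sum_apply] at e2
  have e3 : (((∑ i ∈ range P.natDegree, (P.coeff i • T ^ i) (⟨f, h3⟩ : W)) +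
      (T ^ P.natDegree) ⟨f, h3⟩ : W) : ℕ → E) t =
      ∑ i ∈ range P.natDegree, P.coeff i * f (t + 2 * i) + f (t + 2 * P.natDegree) := by
    rw [Submodule.coe_add, Pi.add_apply, hTv, Submodule.coe_sum, Finset.sum_apply]
    congr 1
    refine Finset.sum_congr rfl fun i _ => ?_
    rw [LinearMap.smul_apply, Submodule.coe_smul, Pi.smul_apply, hTv, smul_eq_mul]
  rw [← e3, e2]
  rfl

end Fin

end Pool.Agent.H5.TSD
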