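import Pool.Agent.H5.TSD.Seq

/-!
# Exponentially small sequences and sums of shift-finite and exponentially small sequences
-/

namespace Pool.Agent.H5.TSD

open Finset

variable {E : Type*} [NormedField E]

/-- `|f t| ≤ C ρ ^ t` -/
def Small (ρ : ℝ) (f : ℕ → E) : Prop := ∃ C, ∀ t, ‖f t‖ ≤ C * ρ ^ t

theorem Small.add {ρ : ℝ} {f g : ℕ → E} (hf : Small ρ f) (hg : Small ρ g) : Small ρ (f + g) := by
  obtain ⟨C, hC⟩ := hf
  obtain ⟨C', hC'⟩ := hg
  refine ⟨C + C', fun t => (norm_add_le _ _).trans ?_⟩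
  rw [add_mul]
  exact add_le_add (hC t) (hC' t)

theorem Small.mul {ρ σ : ℝ} (h0 : 0 ≤ ρ) {f g : ℕ → E} (hf : Small ρ f) (hg : Small σ g) :
    Small (ρ * σ) (f * g) := by
  obtain ⟨C, hC⟩ := hf
  obtain ⟨C', hC'⟩ := hg
  have hC0 : 0 ≤ C := by
    have := hC 0
    rw [pow_zero, mul_one] at this
    exact (norm_nonneg _).trans this
  refine ⟨C * C', fun t => ?_⟩
  rw [Pi.mul_apply, norm_mul, mul_pow]
  calc ‖f t‖ * ‖g t‖ ≤ (C * ρ ^ t) * (C' * σ ^ t) :=
        mul_le_mul (hC t) (hC' t) (norm_nonneg _) (mul_nonneg hC0 (pow_nonneg h0 t))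
    _ = C * C' * (ρ ^ t * σ ^ t) := by ring

theorem Small.nonneg_const {ρ : ℝ} {f : ℕ → E} (hf : Small ρ f) :
    ∃ C, 0 ≤ C ∧ ∀ t, ‖f t‖ ≤ C * ρ ^ t := by
  obtain ⟨C, hC⟩ := hf
  refine ⟨C, ?_, hC⟩
  have := hC 0
  rw [pow_zero, mul_one] at this
  exact (norm_nonneg _).trans this

theorem Small.mono {ρ σ : ℝ} (h0 : 0 ≤ ρ) (h : ρ ≤ σ) {f : ℕ → E} (hf : Small ρ f) :
    Small σ f := by
  obtain ⟨C, hC0, hC⟩ := hf.nonneg_const
  exact ⟨C, fun t => (hC t).trans (mul_le_mul_of_nonneg_left (pow_le_pow_left₀ h0 h t) hC0)⟩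

theorem Small.neg {ρ : ℝ} {f : ℕ → E} (hf : Small ρ f) : Small ρ (-f) := by
  obtain ⟨C, hC⟩ := hf
  exact ⟨C, fun t => by rw [Pi.neg_apply, norm_neg]; exact hC t⟩

theorem Small.sub {ρ : ℝ} {f g : ℕ → E} (hf : Small ρ f) (hg : Small ρ g) : Small ρ (f - g) := by
  rw [sub_eq_add_neg]
  exact hf.add hg.neg

theorem Small.zero (ρ : ℝ) : Small ρ (0 : ℕ → E) := ⟨0, fun t => by simp⟩

theorem Small.smul {ρ : ℝ} (c : E) {f : ℕ → E} (hf : Small ρ f) : Small ρ (c • f) := by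
  obtain ⟨C, hC⟩ := hf
  refine ⟨‖c‖ * C, fun t => ?_⟩
  rw [Pi.smul_apply, smul_eq_mul, norm_mul, mul_assoc]
  exact mul_le_mul_of_nonneg_left (hC t) (norm_nonneg _)

theorem Small.shn {ρ : ℝ} {f : ℕ → E} (hf : Small ρ f) (n : ℕ) : Small ρ (fun t => f (t + n)) := by
  obtain ⟨C, hC⟩ := hf
  refine ⟨C * ρ ^ n, fun t => (hC _).trans (le_of_eq ?_)⟩
  rw [pow_add]; ring

/-- the exponentially small sequences as a subspace -/
def smallSub (E : Type*) [NormedField E] (ρ : ℝ) : Submodule E (ℕ → E) where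
  carrier := {f | Small ρ f}
  add_mem' := Small.add
  zero_mem' := Small.zero ρ
  smul_mem' := fun c _ h => Small.smul c h

/-- sums of a shift-finite and a `ρ`-small sequence -/
def Asy (ρ : ℝ) (f : ℕ → E) : Prop := ∃ f₀ f₁, FinSeq f₀ ∧ Small ρ f₁ ∧ f = f₀ + f₁

theorem Asy.add {ρ : ℝ} {f g : ℕ → E} (hf : Asy ρ f) (hg : Asy ρ g) : Asy ρ (f + g) := by
  obtain ⟨f₀, f₁, h1, h2, rfl⟩ := hf
  obtain ⟨g₀, g₁, h1', h2', rfl⟩ := hg
  exact ⟨f₀ + g₀, f₁ + g₁, h1.add h1', h2.add h2', by abel⟩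

theorem Asy.neg {ρ : ℝ} {f : ℕ → E} (hf : Asy ρ f) : Asy ρ (-f) := by
  obtain ⟨f₀, f₁, h1, h2, rfl⟩ := hf
  exact ⟨-f₀, -f₁, h1.neg, h2.neg, by abel⟩

theorem Asy.mono {ρ σ : ℝ} (h0 : 0 ≤ ρ) (h : ρ ≤ σ) {f : ℕ → E} (hf : Asy ρ f) : Asy σ f := by
  obtain ⟨f₀, f₁, h1, h2, rfl⟩ := hf
  exact ⟨f₀, f₁, h1, h2.mono h0 h, rfl⟩

theorem Asy.of_small {ρ : ℝ} {f : ℕ → E} (hf : Small ρ f) : Asy ρ f :=
  ⟨0, f, FinSeq.zero, hf, by simp⟩

theorem Asy.of_fin {ρ : ℝ} {f : ℕ → E} (hf : FinSeq f) : Asy ρ f :=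
  ⟨f, 0, hf, Small.zero ρ, by simp⟩

theorem Asy.shn {ρ : ℝ} {f : ℕ → E} (hf : Asy ρ f) (n : ℕ) : Asy ρ (fun t => f (t + n)) := by
  obtain ⟨f₀, f₁, h1, h2, rfl⟩ := hf
  exact ⟨_, _, h1.shn n, h2.shn n, rfl⟩

theorem Asy.mul {ρ ρ' a b σ : ℝ} (hρ : 0 ≤ ρ) (hρ' : 0 ≤ ρ') (hρa : ρ ≤ a) {f g : ℕ → E}
    (hf : Asy ρ f) (hg : Asy ρ' g) (hfa : Small a f) (hgb : Small b g) (h1 : a * ρ' ≤ σ)
    (h2 : ρ * b ≤ σ) (hb : 0 ≤ b) : Asy σ (f * g) := by
  obtain ⟨f₀, f₁, e1, e2, rfl⟩ := hf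
  obtain ⟨g₀, g₁, e1', e2', hg'⟩ := hg
  have ha : 0 ≤ a := hρ.trans hρa
  have hf0 : Small a f₀ := by
    have := hfa.sub (e2.mono hρ hρa)
    rwa [add_sub_cancel_right] at this
  refine ⟨f₀ * g₀, f₀ * g₁ + f₁ * g, e1.mul e1', ?_, ?_⟩
  · refine Small.add ?_ ?_
    · exact (hf0.mul ha e2').mono (mul_nonneg ha hρ') h1
    · exact (e2.mul hρ hgb).mono (mul_nonneg hρ hb) h2
  · rw [hg']; ring

section Ultra

variable [IsUltrametricDist E]

/-- Solving `ω - S^n ω = F` in the class of sums of shift-finite and small sequences. -/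
theorem Asy.of_sub_shn {a τ : ℝ} (ha : a < 1) (hτ0 : 0 ≤ τ) (hτ : τ ≤ a) (n : ℕ) (hn : 0 < n)
    {ω : ℕ → E} (hω : Small a ω) (hF : Asy τ (fun t => ω t - ω (t + n))) : Asy τ ω := by
  obtain ⟨F₀, F₁, ⟨W, w1, w2, w3⟩, hF1, hFe⟩ := hF
  have ha0 : 0 ≤ a := hτ0.trans hτ
  have hFa : Small a F₀ := by
    have h1 : Small a (fun t => ω t - ω (t + n)) := hω.sub (hω.shn n)
    rw [hFe] at h1
    have := h1.sub (hF1.mono hτ0 hτ)
    rwa [add_sub_cancel_right] at this
  set W' : Submodule E (ℕ → E) := W ⊓ smallSub E a with hW'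
  have hfinW : FiniteDimensional E W := Module.Finite.iff_fg.mpr w1
  have hfin : FiniteDimensional E W' := Submodule.finiteDimensional_of_le (inf_le_left)
  have hWn : ∀ m, ∀ g ∈ W, (fun t => g (t + m)) ∈ W := by
    intro m
    induction m with
    | zero => intro g hg; exact hg
    | succ m ih =>
      intro g hg
      have := w2 _ (ih g hg)
      have e : (sh E fun t => g (t + m)) = fun t => g (t + (m + 1)) := by
        funext t
        change g (t + 1 + m) = g (t + (m + 1))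
        congr 1; ring
      rwa [e] at this
  have hinv : ∀ g ∈ W', (fun t => g t - g (t + n)) ∈ W' := by
    intro g hg
    exact ⟨W.sub_mem hg.1 (hWn n g hg.1), Small.sub hg.2 (Small.shn hg.2 n)⟩
  set L : W' →ₗ[E] W' :=
    { toFun := fun g => ⟨fun t => g.1 t - g.1 (t + n), hinv g.1 g.2⟩
      map_add' := by
        intro x y
        apply Subtype.ext
        funext t
        change (x.1 t + y.1 t) - (x.1 (t + n) + y.1 (t + n)) =
          (x.1 t - x.1 (t + n)) + (y.1 t - y.1 (t + n))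
        ring
      map_smul' := by
        intro c x
        apply Subtype.ext
        funext t
        change c * x.1 t - c * x.1 (t + n) = c * (x.1 t - x.1 (t + n))
        ring } with hL
  -- vanishing at infinity
  have hlim : ∀ g : ℕ → E, Small a g → ∀ t, Filter.Tendsto (fun m : ℕ => ‖g (t + m * n)‖)
      Filter.atTop (nhds 0) := by
    intro g hg t
    obtain ⟨C, hC0, hC⟩ := hg.nonneg_const
    have hb : ∀ m : ℕ, ‖g (t + m * n)‖ ≤ C * a ^ m := by
      intro m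
      refine (hC _).trans (mul_le_mul_of_nonneg_left ?_ hC0)
      refine pow_le_pow_of_le_one ha0 ha.le ?_
      have : m * 1 ≤ m * n := Nat.mul_le_mul_left m hn
      omega
    have h0 : Filter.Tendsto (fun m : ℕ => C * a ^ m) Filter.atTop (nhds 0) := by
      have := (tendsto_pow_atTop_nhds_zero_of_lt_one ha0 ha).const_mul C
      rwa [mul_zero] at this
    exact squeeze_zero (fun m => norm_nonneg _) hb h0
  have hinj : Function.Injective L := by
    rw [← LinearMap.ker_eq_bot, LinearMap.ker_eq_bot']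
    intro g hg
    apply Subtype.ext
    funext t
    have hstep : ∀ s, g.1 (s + n) = g.1 s := by
      intro s
      have := congrFun (congrArg Subtype.val hg) s
      change g.1 s - g.1 (s + n) = 0 at this
      exact (sub_eq_zero.mp this).symm
    have hall : ∀ m : ℕ, g.1 (t + m * n) = g.1 t := by
      intro m
      induction m with
      | zero => simp
      | succ m ih => rw [show t + (m + 1) * n = t + m * n + n by ring, hstep, ih]
    have h1 := hlim g.1 g.2.2 t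
    simp only [hall] at h1
    have h2 := tendsto_nhds_unique h1 tendsto_const_nhds
    change g.1 t = 0
    exact norm_eq_zero.mp h2.symm
  have hsurj : Function.Surjective L := LinearMap.injective_iff_surjective.mp hinj
  obtain ⟨g, hg⟩ := hsurj ⟨F₀, w3, hFa⟩
  have hg' : ∀ t, g.1 t - g.1 (t + n) = F₀ t := fun t => congrFun (congrArg Subtype.val hg) t
  refine ⟨g.1, ω - g.1, ⟨W, w1, w2, g.2.1⟩, ?_, by abel⟩
  obtain ⟨C, hC0, hC⟩ := hF1.nonneg_const
  refine ⟨C, fun t => ?_⟩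
  set r : ℕ → E := ω - g.1 with hr
  have hra : Small a r := hω.sub g.2.2
  have hstep : ∀ s, r s = F₁ s + r (s + n) := by
    intro s
    have h1 := congrFun hFe s
    change ω s - ω (s + n) = F₀ s + F₁ s at h1
    have h2 := hg' s
    change ω s - g.1 s = F₁ s + (ω (s + n) - g.1 (s + n))
    linear_combination h1 - h2
  have hτ1 : τ ≤ 1 := hτ.trans ha.le
  have hmax : ∀ m : ℕ, ‖r t‖ ≤ max (C * τ ^ t) ‖r (t + m * n)‖ := by
    intro m
    induction m with
    | zero => simp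
    | succ m ih =>
      refine ih.trans (max_le (le_max_left _ _) ?_)
      rw [hstep (t + m * n)]
      refine (IsUltrametricDist.norm_add_le_max _ _).trans (max_le_max ?_ (le_of_eq ?_))
      · refine (hC _).trans (mul_le_mul_of_nonneg_left ?_ hC0)
        exact pow_le_pow_of_le_one hτ0 hτ1 (Nat.le_add_right _ _)
      · rw [show t + (m + 1) * n = t + m * n + n by ring]
  have h1 := (hlim r hra t)
  have h2 : Filter.Tendsto (fun m : ℕ => max (C * τ ^ t) ‖r (t + m * n)‖) Filter.atTop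
      (nhds (max (C * τ ^ t) 0)) := tendsto_const_nhds.max h1
  have h3 : ‖r t‖ ≤ max (C * τ ^ t) 0 := ge_of_tendsto' h2 hmax
  rwa [max_eq_left (mul_nonneg hC0 (pow_nonneg hτ0 t))] at h3

omit [IsUltrametricDist E] in
/-- the bootstrap: if `y ∈ A_σ` implies `y ∈ A_(max ρ (a σ))` for `ρ ≤ σ ≤ a`, then `y ∈ A_ρ` -/
theorem Asy.bootstrap {a ρ : ℝ} (ha0 : 0 < a) (ha : a < 1) (hρ : 0 < ρ) (hρa : ρ ≤ a)
    {y : ℕ → E} (hy : Small a y)
    (h : ∀ σ, ρ ≤ σ → σ ≤ a → Asy σ y → Asy (max ρ (a * σ)) y) : Asy ρ y := by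
  have key : ∀ m : ℕ, Asy (max ρ (a ^ (m + 1))) y := by
    intro m
    induction m with
    | zero =>
      rw [zero_add, pow_one, max_eq_right hρa]
      exact Asy.of_small hy
    | succ m ih =>
      have h1 : max ρ (a ^ (m + 1)) ≤ a := by
        refine max_le hρa ?_
        calc a ^ (m + 1) ≤ a ^ 1 := pow_le_pow_of_le_one ha0.le ha.le (by omega)
          _ = a := pow_one a
      refine (h _ (le_max_left _ _) h1 ih).mono (hρ.le.trans (le_max_left _ _)) ?_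
      refine max_le (le_max_left _ _) ?_
      rw [mul_max_of_nonneg _ _ ha0.le]
      refine max_le ((mul_le_of_le_one_left hρ.le ha.le).trans (le_max_left _ _)) ?_
      rw [← pow_succ']
      exact le_max_right _ _
  obtain ⟨m, hm⟩ := exists_pow_lt_of_lt_one hρ ha
  have h2 : max ρ (a ^ (m + 1)) = ρ := by
    refine max_eq_left ?_
    rw [pow_succ']
    exact (mul_le_of_le_one_left (pow_nonneg ha0.le m) ha.le).trans hm.le
  rw [← h2]
  exact key m

end Ultra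

end Pool.Agent.H5.TSD
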